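import Pool.Agent.Helper83.AH.Defs

/-!
AH-1. Rank basics.  Proofs: `(A+B).mulVecLin = A.mulVecLin + B.mulVecLin`, the range of a sum is
contained in the sup of the ranges.  `exists_pinv`: let `ρ = M.rank`; choose a basis of
`LinearMap.range M.mulVecLin` (ρ vectors), preimages `g₁..g_ρ` (columns of `G₁`), and `G₂` = a linear
left inverse of the injective map `Fin ρ → K` to `b → K` given by `M * G₁`, so `G₂ * (M * G₁) = 1`.
As the columns of `M * G₁` span the range of `M`, `(M*G₁)*G₂` is the identity on the range of `M`.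
-/

set_option autoImplicit false

namespace Pool.Agent.Helper83.AH

open Finset

section basic
variable {K : Type} [Field K] {a b c : Type} [Fintype a] [Fintype b] [Fintype c]

theorem rank_add_le' (A B : Matrix b a K) : (A + B).rank ≤ A.rank + B.rank := by
  classical
  rw [Matrix.rank, Matrix.rank, Matrix.rank, Matrix.mulVecLin_add]
  refine (Submodule.finrank_mono (LinearMap.range_add_le _ _)).trans ?_
  exact Submodule.finrank_add_le_finrank_add_finrank _ _

theorem rank_sum_le' {s : Type} (t : Finset s) (A : s → Matrix b a K) :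
    (∑ i ∈ t, A i).rank ≤ ∑ i ∈ t, (A i).rank := by
  classical
  induction t using Finset.induction_on with
  | empty => simp
  | insert x t hx ih =>
    rw [Finset.sum_insert hx, Finset.sum_insert hx]
    exact (rank_add_le' _ _).trans (Nat.add_le_add_left ih _)

theorem rank_neg' (A : Matrix b a K) : (-A).rank = A.rank := by
  rw [Matrix.rank, Matrix.rank]
  have : (-A).mulVecLin = - A.mulVecLin := by
    ext x i
    simp
  rw [this, LinearMap.range_neg]

theorem rank_mul_le_mid {μ : ℕ} (A : Matrix b (Fin μ) K) (B : Matrix (Fin μ) a K) :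
    (A * B).rank ≤ μ := by
  refine (Matrix.rank_mul_le_left A B).trans ?_
  simpa using Matrix.rank_le_card_width A

theorem exists_pinv [DecidableEq a] [DecidableEq b] (M : Matrix b a K) :
    ∃ (G₁ : Matrix a (Fin M.rank) K) (G₂ : Matrix (Fin M.rank) b K),
      G₂ * M * G₁ = 1 ∧ M * G₁ * G₂ * M = M := by
  let w : Module.Basis (Fin M.rank) K (LinearMap.range M.mulVecLin) :=
    Module.finBasisOfFinrankEq K _ rfl
  have hw : ∀ i, ∃ g : a → K, M.mulVecLin g = (w i : b → K) := fun i => (w i).2
  choose g hg using hw
  let G₁ : Matrix a (Fin M.rank) K := Matrix.of fun j i => g i j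
  have hMG : ∀ i k, (M * G₁) k i = (w i : b → K) k := by
    intro i k
    rw [← hg i]
    rfl
  have hinj : Function.Injective (M * G₁).mulVecLin := by
    rw [← LinearMap.ker_eq_bot, LinearMap.ker_eq_bot']
    intro v hv
    have h1 : ∑ i, v i • w i = 0 := by
      apply Subtype.ext
      ext k
      have h2 := congrFun hv k
      simp only [Matrix.mulVecLin_apply, Matrix.mulVec, dotProduct, hMG, Pi.zero_apply] at h2
      rw [Submodule.coe_sum, Finset.sum_apply]
      simp only [Submodule.coe_smul, Pi.smul_apply, smul_eq_mul, Submodule.coe_zero,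
        Pi.zero_apply]
      rw [← h2]
      exact Finset.sum_congr rfl fun i _ => mul_comm _ _
    have h2 := Fintype.linearIndependent_iff.1 w.linearIndependent v h1
    ext i
    exact h2 i
  obtain ⟨f, hf⟩ := LinearMap.exists_leftInverse_of_injective (M * G₁).mulVecLin
    (LinearMap.ker_eq_bot.2 hinj)
  let G₂ : Matrix (Fin M.rank) b K := LinearMap.toMatrix' f
  have h1 : G₂ * (M * G₁) = 1 := by
    have h2 : LinearMap.toMatrix' (f ∘ₗ (M * G₁).mulVecLin) = 1 := by
      rw [hf, LinearMap.toMatrix'_id]
    rw [LinearMap.toMatrix'_comp] at h2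
    rw [← h2]
    congr 1
    rw [← Matrix.toLin'_apply', LinearMap.toMatrix'_toLin']
  let V : Matrix (Fin M.rank) a K := Matrix.of fun i j =>
    w.repr ⟨M.mulVecLin (Pi.single j 1), LinearMap.mem_range_self _ _⟩ i
  have h3 : M * G₁ * V = M := by
    ext k j
    have h4 := w.sum_repr ⟨M.mulVecLin (Pi.single j 1), LinearMap.mem_range_self _ _⟩
    have h5 := congrFun (congrArg Subtype.val h4) k
    rw [Submodule.coe_sum, Finset.sum_apply] at h5
    simp only [Submodule.coe_smul, Pi.smul_apply, smul_eq_mul, Matrix.mulVecLin_apply,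
      Matrix.mulVec_single_one, Matrix.col_apply] at h5
    rw [Matrix.mul_apply]
    rw [← h5]
    refine Finset.sum_congr rfl fun i _ => ?_
    rw [hMG, mul_comm]
    simp [V]
  refine ⟨G₁, G₂, by rw [Matrix.mul_assoc]; exact h1, ?_⟩
  calc M * G₁ * G₂ * M = M * G₁ * G₂ * (M * G₁ * V) := by rw [h3]
    _ = M * G₁ * (G₂ * (M * G₁)) * V := by simp only [Matrix.mul_assoc]
    _ = M := by rw [h1, Matrix.mul_one, h3]

/-- rank of a linear map and of its matrix -/
theorem finrank_range_toLin' [DecidableEq a] (A : Matrix b a K) :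
    Module.finrank K (LinearMap.range (Matrix.toLin' A)) = A.rank := by
  rw [Matrix.rank, Matrix.toLin'_apply']

end basic

end Pool.Agent.Helper83.AH
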