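import Pool.Agent.Helper83.AH.RepMain
import Pool.Agent.Helper83.AH.Basic

/-!
AH-19. Theorem A: if the block matrix `[f (x+y) - f x - f y]` (rows `(x, i)`, columns `(y, j)`) has
rank `m` then `f` is within rank `m` of a homomorphism.  `V` a finite abelian group.
Proof.  Let `f' x = f x - f 0` and `c' x y = f' (x+y) - f' x - f' y = c x y + f 0 = c x y - c x 0`
(as `c x 0 = - f 0`).  Let `𝓜` = the span of all columns of `[c]` and `𝓜'` = the span of all
columns of `[c']`, submodules of `V × b → K` (functions `φ (x, i)`); `finrank 𝓜 = m`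
(`Matrix.rank_eq_finrank_span_cols`).
`𝓜' ≤ 𝓜`, elements of `𝓜'` vanish at `x = 0` (`c' 0 y = 0`), and `φ ↦ φ (0, ·)` maps `𝓜` onto a
space containing all columns of `f 0` (`c 0 0 = - f 0`).  So `finrank 𝓜' + rank (f 0) ≤ m`.
Corner representation for `f'` with `M = 𝓜'`, `P = a → K`, `Q = b → K`:
`v y p = ` the function `(x, i) ↦ (c' x y * p) i` (a combination of columns of `[c']`),
`u x φ = φ (x, ·)`, `g y φ = (x, i) ↦ φ (x + y, i) - φ (y, i)`.
`g y` preserves `𝓜'`: on the column `φ = c' · z p`: `c' (x+y) z - c' y z = c' x (y+z) - c' x y`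
(cocycle identity, both sides are `f'(x+y+z) - f'(x+y) - f'(y+z) + f'(y)`).
`hf`: `u x (v y p) = c' x y p`.  `hv`: `v (x+y) = v x + g x (v y)` is
the same identity, `hu`: `u (x+y) φ = φ (x+y) = u y φ + u x (g y φ)`.
`hg`: `g (x+y) φ = g x (g y φ)`: at `z`: `(g y φ)(z + x) - (g y φ)(x) =
φ (z+x+y) - φ y - φ (x+y) + φ y`.
`rep_main` gives `ℓ` with `rank (f' x - ℓ x) ≤ finrank 𝓜'`, so
`rank (f x - ℓ x) ≤ rank (f 0) + finrank 𝓜' ≤ m`.
-/

set_option autoImplicit false
set_option linter.unusedSectionVars false
set_option linter.unusedVariables false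

namespace Pool.Agent.Helper83.AH

/-- the defect block matrix -/
def defectMatrix {K : Type} [Field K] {V a b : Type} [AddCommGroup V] (f : V → Matrix b a K) :
    Matrix (V × b) (V × a) K :=
  Matrix.of fun i j => (f (i.1 + j.1) - f i.1 - f j.1) i.2 j.2

section aux
variable {K : Type} [Field K] {V a b : Type} [AddCommGroup V] [Fintype V]
    [Fintype a] [Fintype b] [DecidableEq a] [DecidableEq b]

/-- the cocycle of `f - f 0` -/
private def cz (f : V → Matrix b a K) (x y : V) : Matrix b a K := f (x + y) - f x - f y + f 0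

/-- columns of the block matrix of a family of matrices -/
private def colL (C : V → Matrix b a K) : (a → K) →ₗ[K] (V × b → K) where
  toFun p := fun i => (C i.1).mulVec p i.2
  map_add' p q := by
    funext i
    simp [Matrix.mulVec_add]
  map_smul' c p := by
    funext i
    simp [Matrix.mulVec_smul]

@[simp] private theorem colL_apply (C : V → Matrix b a K) (p : a → K) (i : V × b) :
    colL C p i = (C i.1).mulVec p i.2 := rfl

omit [Fintype V] [AddCommGroup V] in
private theorem mvs (A B : Matrix b a K) (p : a → K) (i : b) :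
    A.mulVec p i - B.mulVec p i = (A - B).mulVec p i := by
  rw [Matrix.sub_mulVec, Pi.sub_apply]

omit [Fintype V] [AddCommGroup V] in
private theorem mva (A B : Matrix b a K) (p : a → K) (i : b) :
    A.mulVec p i + B.mulVec p i = (A + B).mulVec p i := by
  rw [Matrix.add_mulVec, Pi.add_apply]

/-- the span of the columns of the cocycle -/
private def MM' (f : V → Matrix b a K) : Submodule K (V × b → K) :=
  ⨆ z : V, LinearMap.range (colL fun x => cz f x z)

private theorem mem_MM' (f : V → Matrix b a K) (z : V) (p : a → K) :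
    colL (fun x => cz f x z) p ∈ MM' f :=
  (le_iSup (fun z : V => LinearMap.range (colL fun x => cz f x z)) z) ⟨p, rfl⟩

private theorem MM'_le (f : V → Matrix b a K) (S : Submodule K (V × b → K))
    (h : ∀ z p, colL (fun x => cz f x z) p ∈ S) : MM' f ≤ S := by
  refine iSup_le fun z => ?_
  rintro _ ⟨p, rfl⟩
  exact h z p

/-- evaluation at `x` -/
private def evL (K : Type) [Field K] {V b : Type} (x : V) : (V × b → K) →ₗ[K] (b → K) where
  toFun φ := fun i => φ (x, i)
  map_add' φ ψ := rfl
  map_smul' c φ := rfl

/-- the shift operators -/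
private def shL (K : Type) [Field K] {V b : Type} [AddCommGroup V] (y : V) :
    (V × b → K) →ₗ[K] (V × b → K) where
  toFun φ := fun i => φ (i.1 + y, i.2) - φ (y, i.2)
  map_add' φ ψ := by
    funext i
    simp only [Pi.add_apply]
    ring
  map_smul' c φ := by
    funext i
    simp only [Pi.smul_apply, smul_eq_mul, RingHom.id_apply]
    ring

private theorem defect_mulVec (f : V → Matrix b a K) (z : V) (p : a → K) :
    colL (fun x => f (x + z) - f x - f z) p ∈ LinearMap.range (defectMatrix f).mulVecLin := by
  classical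
  refine ⟨fun j => if j.1 = z then p j.2 else 0, ?_⟩
  funext i
  rw [Matrix.mulVecLin_apply, colL_apply]
  simp only [Matrix.mulVec, dotProduct, defectMatrix, Matrix.of_apply]
  rw [Fintype.sum_prod_type, Finset.sum_eq_single z]
  · refine Finset.sum_congr rfl fun j _ => ?_
    rw [if_pos rfl]
  · intro y _ hy
    refine Finset.sum_eq_zero fun j _ => ?_
    rw [if_neg hy, mul_zero]
  · intro h
    exact absurd (Finset.mem_univ z) h

private theorem MM'_dim (f : V → Matrix b a K) :
    Module.finrank K (MM' f) + (f 0).rank ≤ (defectMatrix f).rank := by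
  set S := LinearMap.range (defectMatrix f).mulVecLin with hS
  have h1 : MM' f ≤ S := by
    apply MM'_le
    intro z p
    have h2 := S.sub_mem (defect_mulVec f z p) (defect_mulVec f 0 p)
    have h3 : colL (fun x => cz f x z) p = colL (fun x => f (x + z) - f x - f z) p -
        colL (fun x => f (x + 0) - f x - f 0) p := by
      funext i
      simp only [colL_apply, Pi.sub_apply]
      rw [mvs]
      refine congrArg (fun T : Matrix b a K => T.mulVec p i.2) ?_
      simp only [cz, add_zero]
      abel
    rw [h3]
    exact h2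
  have hr : (defectMatrix f).rank = Module.finrank K S := rfl
  have hr0 : (f 0).rank = Module.finrank K (LinearMap.range (f 0).mulVecLin) := rfl
  set e : S →ₗ[K] (b → K) := (evL K (0 : V)).domRestrict S with he
  have h4 := LinearMap.finrank_range_add_finrank_ker e
  have h5 : LinearMap.range (f 0).mulVecLin ≤ LinearMap.range e := by
    rintro _ ⟨p, rfl⟩
    refine ⟨-⟨_, defect_mulVec f 0 p⟩, ?_⟩
    rw [map_neg]
    funext i
    rw [he, LinearMap.domRestrict_apply]
    show -(colL (fun x => f (x + 0) - f x - f 0) p (0, i)) = _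
    rw [colL_apply]
    simp only [add_zero, sub_self, zero_sub, Matrix.neg_mulVec, Pi.neg_apply, neg_neg,
      Matrix.mulVecLin_apply]
  have h6 : Module.finrank K (MM' f) ≤ Module.finrank K (LinearMap.ker e) := by
    have h7 : (MM' f).comap S.subtype ≤ LinearMap.ker e := by
      have h8 : MM' f ≤ LinearMap.ker (evL K (0 : V)) := by
        apply MM'_le
        intro z p
        rw [LinearMap.mem_ker]
        funext i
        show colL (fun x => cz f x z) p (0, i) = 0
        rw [colL_apply]
        have h9 : cz f 0 z = 0 := by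
          simp only [cz, zero_add]
          abel
        simp only [h9, Matrix.zero_mulVec, Pi.zero_apply]
      intro s hs
      rw [LinearMap.mem_ker, he, LinearMap.domRestrict_apply]
      exact LinearMap.mem_ker.1 (h8 hs)
    rw [← LinearEquiv.finrank_eq (Submodule.comapSubtypeEquivOfLe h1)]
    exact Submodule.finrank_mono h7
  have h10 := Submodule.finrank_mono h5
  rw [hr, hr0, ← h4]
  omega

end aux

theorem block_rank {K : Type} [Field K] {V a b : Type} [AddCommGroup V] [Fintype V]
    [Fintype a] [Fintype b] [DecidableEq a] [DecidableEq b] (f : V → Matrix b a K) :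
    ∃ ℓ : V →+ Matrix b a K, ∀ x, (f x - ℓ x).rank ≤ (defectMatrix f).rank := by
  have hG : ∀ y : V, ∀ φ ∈ MM' f, shL K y φ ∈ MM' f := by
    intro y φ hφ
    have h1 : MM' f ≤ (MM' f).comap (shL K y) := by
      apply MM'_le
      intro z p
      rw [Submodule.mem_comap]
      have h2 : shL K y (colL (fun x => cz f x z) p) =
          colL (fun x => cz f x (y + z)) p - colL (fun x => cz f x y) p := by
        funext i
        show (cz f (i.1 + y) z).mulVec p i.2 - (cz f y z).mulVec p i.2 =
          (cz f i.1 (y + z)).mulVec p i.2 - (cz f i.1 y).mulVec p i.2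
        rw [mvs, mvs]
        refine congrArg (fun T : Matrix b a K => T.mulVec p i.2) ?_
        simp only [cz, add_assoc]
        abel
      rw [h2]
      exact Submodule.sub_mem _ (mem_MM' f _ p) (mem_MM' f _ p)
    exact h1 hφ
  let u : V → MM' f →ₗ[K] (b → K) := fun x => (evL K x).domRestrict (MM' f)
  let v : V → (a → K) →ₗ[K] MM' f := fun y =>
    (colL fun x => cz f x y).codRestrict (MM' f) (mem_MM' f y)
  let g : V → MM' f →ₗ[K] MM' f := fun y => (shL K y).restrict (hG y)
  let F : V → (a → K) →ₗ[K] (b → K) := fun x => (f x - f 0).mulVecLin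
  have hrep : CornerRep K F u v g := by
    constructor
    · intro x y
      apply LinearMap.ext
      intro p
      show (f (x + y) - f 0).mulVec p = (f x - f 0).mulVec p + (f y - f 0).mulVec p +
        (fun i => (cz f x y).mulVec p i)
      show (f (x + y) - f 0).mulVec p = (f x - f 0).mulVec p + (f y - f 0).mulVec p +
        (cz f x y).mulVec p
      rw [← Matrix.add_mulVec, ← Matrix.add_mulVec]
      congr 1
      simp only [cz]
      abel
    · intro x y
      apply LinearMap.ext
      intro p
      apply Subtype.ext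
      funext i
      show (cz f i.1 (x + y)).mulVec p i.2 = (cz f i.1 x).mulVec p i.2 +
        ((cz f (i.1 + x) y).mulVec p i.2 - (cz f x y).mulVec p i.2)
      rw [mvs, mva]
      refine congrArg (fun T : Matrix b a K => T.mulVec p i.2) ?_
      simp only [cz, add_assoc]
      abel
    · intro x y
      apply LinearMap.ext
      intro φ
      funext i
      show (φ : V × b → K) (x + y, i) = (φ : V × b → K) (y, i) +
        ((φ : V × b → K) (x + y, i) - (φ : V × b → K) (y, i))
      ring
    · intro x y
      apply LinearMap.ext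
      intro φ
      apply Subtype.ext
      funext i
      show (φ : V × b → K) (i.1 + (x + y), i.2) - (φ : V × b → K) (x + y, i.2) =
        ((φ : V × b → K) (i.1 + x + y, i.2) - (φ : V × b → K) (y, i.2)) -
        ((φ : V × b → K) (x + y, i.2) - (φ : V × b → K) (y, i.2))
      rw [add_assoc]
      ring
  obtain ⟨ℓ, hℓ⟩ := rep_main (Module.finrank K (MM' f)) (a → K) (MM' f) (b → K) F u v g hrep rfl
  refine ⟨(LinearMap.toMatrix' (R := K) (m := b) (n := a)).toLinearMap.toAddMonoidHom.comp ℓ,
    fun x => ?_⟩
  have h1 : ((f x - f 0) - LinearMap.toMatrix' (ℓ x)).rank ≤ Module.finrank K (MM' f) := by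
    have h2 : ((f x - f 0) - LinearMap.toMatrix' (ℓ x)).mulVecLin = F x - ℓ x := by
      have h8 : (LinearMap.toMatrix' (ℓ x)).mulVecLin = ℓ x := by
        rw [← Matrix.toLin'_apply']
        exact Matrix.toLin'_toMatrix' _
      apply LinearMap.ext
      intro p
      rw [LinearMap.sub_apply, Matrix.mulVecLin_apply, Matrix.sub_mulVec]
      conv_rhs => rw [← h8]
      rfl
    have h3 : ((f x - f 0) - LinearMap.toMatrix' (ℓ x)).rank =
      Module.finrank K (LinearMap.range ((f x - f 0) - LinearMap.toMatrix' (ℓ x)).mulVecLin) := rfl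
    rw [h3, h2]
    exact hℓ x
  have h4 : f x - LinearMap.toMatrix' (ℓ x) = ((f x - f 0) - LinearMap.toMatrix' (ℓ x)) + f 0 := by
    abel
  show (f x - LinearMap.toMatrix' (ℓ x)).rank ≤ _
  rw [h4]
  have h5 := rank_add_le' ((f x - f 0) - LinearMap.toMatrix' (ℓ x)) (f 0)
  have h6 := MM'_dim f
  omega

end Pool.Agent.Helper83.AH
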