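import Pool.Agent.Helper83.AH.ML
import Pool.Agent.Helper83.AH.Basic

/-!
AH-10. Calculus of `HasCost`: sums (concatenate the middle spaces: `Fin μ ⊕ Fin ν ≃ Fin (μ + ν)`,
`Matrix.fromCols`, `Matrix.fromRows` reindexed), monotonicity (pad with zeros), zero, and constant
maps (`rank` factorization, all in the term `I = ∅` when `ι` is empty).
-/

set_option autoImplicit false

namespace Pool.Agent.Helper83.AH

open Finset

variable {K : Type} [Field K] {ι V : Type} [Fintype ι] [DecidableEq ι] [AddCommGroup V]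
    [Module K V] {a b : Type} [Fintype a] [Fintype b] [DecidableEq a] [DecidableEq b]

namespace Cost

/-- columns side by side -/
def cols {μ ν : ℕ} (A : Matrix b (Fin μ) K) (A' : Matrix b (Fin ν) K) :
    Matrix b (Fin (μ + ν)) K :=
  Matrix.of fun i j => Fin.addCases (motive := fun _ => K) (fun t => A i t) (fun t => A' i t) j

/-- rows above each other -/
def rows {μ ν : ℕ} (B : Matrix (Fin μ) a K) (B' : Matrix (Fin ν) a K) :
    Matrix (Fin (μ + ν)) a K :=
  Matrix.of fun i j => Fin.addCases (motive := fun _ => K) (fun t => B t j) (fun t => B' t j) i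

omit [Fintype a] [Fintype b] [DecidableEq a] [DecidableEq b] in
theorem cols_mul_rows {μ ν : ℕ} (A : Matrix b (Fin μ) K) (A' : Matrix b (Fin ν) K)
    (B : Matrix (Fin μ) a K) (B' : Matrix (Fin ν) a K) :
    cols A A' * rows B B' = A * B + A' * B' := by
  ext i j
  simp only [Matrix.mul_apply, Matrix.add_apply, cols, rows, Matrix.of_apply, Fin.sum_univ_add,
    Fin.addCases_left, Fin.addCases_right]

omit [Fintype ι] [Fintype b] [DecidableEq b] in
theorem isML_cols {μ ν : ℕ} {I : Finset ι} {A : (ι → V) → Matrix b (Fin μ) K}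
    {A' : (ι → V) → Matrix b (Fin ν) K} (hA : IsML K I A) (hA' : IsML K I A') :
    IsML K I (fun x => cols (A x) (A' x)) where
  dep x y h := by
    rw [hA.dep x y h, hA'.dep x y h]
  add i hi x v w := by
    rw [hA.add i hi, hA'.add i hi]
    ext s t
    refine Fin.addCases (fun j => ?_) (fun j => ?_) t
    · simp only [cols, Matrix.of_apply, Matrix.add_apply, Fin.addCases_left]
    · simp only [cols, Matrix.of_apply, Matrix.add_apply, Fin.addCases_right]
  smul i hi x c v := by
    rw [hA.smul i hi, hA'.smul i hi]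
    ext s t
    refine Fin.addCases (fun j => ?_) (fun j => ?_) t
    · simp only [cols, Matrix.of_apply, Matrix.smul_apply, Fin.addCases_left]
    · simp only [cols, Matrix.of_apply, Matrix.smul_apply, Fin.addCases_right]

omit [Fintype ι] [Fintype a] [DecidableEq a] in
theorem isML_rows {μ ν : ℕ} {I : Finset ι} {B : (ι → V) → Matrix (Fin μ) a K}
    {B' : (ι → V) → Matrix (Fin ν) a K} (hB : IsML K I B) (hB' : IsML K I B') :
    IsML K I (fun x => rows (B x) (B' x)) where
  dep x y h := by
    rw [hB.dep x y h, hB'.dep x y h]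
  add i hi x v w := by
    rw [hB.add i hi, hB'.add i hi]
    ext s t
    refine Fin.addCases (fun j => ?_) (fun j => ?_) s
    · simp only [rows, Matrix.of_apply, Matrix.add_apply, Fin.addCases_left]
    · simp only [rows, Matrix.of_apply, Matrix.add_apply, Fin.addCases_right]
  smul i hi x c v := by
    rw [hB.smul i hi, hB'.smul i hi]
    ext s t
    refine Fin.addCases (fun j => ?_) (fun j => ?_) s
    · simp only [rows, Matrix.of_apply, Matrix.smul_apply, Fin.addCases_left]
    · simp only [rows, Matrix.of_apply, Matrix.smul_apply, Fin.addCases_right]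

omit [DecidableEq a] [DecidableEq b] in
theorem hasCost_zero (ν : ℕ) : HasCost K (fun _ : ι → V => (0 : Matrix b a K)) ν := by
  refine ⟨fun _ _ => 0, fun _ _ => 0, fun I => IsML.zero I, fun I => IsML.zero Iᶜ, fun x => ?_⟩
  simp

end Cost

theorem HasCost.add {T T' : (ι → V) → Matrix b a K} {μ ν : ℕ} (h : HasCost K T μ)
    (h' : HasCost K T' ν) : HasCost K (fun x => T x + T' x) (μ + ν) := by
  obtain ⟨A, B, hA, hB, hT⟩ := h
  obtain ⟨A', B', hA', hB', hT'⟩ := h'
  refine ⟨fun I x => Cost.cols (A I x) (A' I x), fun I x => Cost.rows (B I x) (B' I x),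
    fun I => Cost.isML_cols (hA I) (hA' I), fun I => Cost.isML_rows (hB I) (hB' I), fun x => ?_⟩
  show T x + T' x = _
  rw [hT x, hT' x, ← Finset.sum_add_distrib]
  exact Finset.sum_congr rfl fun I _ => (Cost.cols_mul_rows _ _ _ _).symm

theorem HasCost.mono {T : (ι → V) → Matrix b a K} {μ ν : ℕ} (h : HasCost K T μ) (hμ : μ ≤ ν) :
    HasCost K T ν := by
  obtain ⟨k, rfl⟩ := Nat.exists_eq_add_of_le hμ
  have := h.add (Cost.hasCost_zero (K := K) (ι := ι) (V := V) (a := a) (b := b) k)
  simpa using this

theorem HasCost.of_zero {T : (ι → V) → Matrix b a K} (h : ∀ x, T x = 0) : HasCost K T 0 := by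
  have : T = fun _ => 0 := funext h
  rw [this]
  exact Cost.hasCost_zero 0

theorem HasCost.of_isEmpty [IsEmpty ι] {T : (ι → V) → Matrix b a K} (R : ℕ)
    (hR : ∀ x, (T x).rank ≤ R) : HasCost K T R := by
  obtain ⟨x₀⟩ : Nonempty (ι → V) := ⟨fun i => isEmptyElim i⟩
  obtain ⟨G₁, G₂, -, hM⟩ := exists_pinv (T x₀)
  have hcost : HasCost K T (T x₀).rank := by
    refine ⟨fun _ _ => T x₀ * G₁, fun _ _ => G₂ * T x₀, fun I => ?_, fun I => ?_, fun x => ?_⟩
    · rw [Finset.eq_empty_of_isEmpty I]
      exact IsML.const _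
    · rw [Finset.eq_empty_of_isEmpty Iᶜ]
      exact IsML.const _
    · have huniv : (Finset.univ : Finset (Finset ι)) = {∅} :=
        Finset.eq_singleton_iff_unique_mem.mpr
          ⟨Finset.mem_univ _, fun I _ => Finset.eq_empty_of_isEmpty I⟩
      rw [huniv, Finset.sum_singleton, Subsingleton.elim x x₀, ← Matrix.mul_assoc, hM]
  exact hcost.mono (hR x₀)

end Pool.Agent.Helper83.AH
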