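import Pool.Agent.Helper83.AH.Basic

/-!
AH-6. The cube matrix.  For `s ≠ 0` let `N = (cubePoly M).map (eval s)`, i.e. for `J ⊆ L` the block
`(L, J)` is `∑_{U ⊆ J} s^|U| M_{(L \ J) ∪ U}`.  Put `Z_{E,J} = s^|J|` if `J ⊆ E` and `0` otherwise
(a matrix on `Finset ι`, invertible: triangular for inclusion with nonzero diagonal, e.g. its
inverse is `W_{J,E} = s^{-|J|} (-1)^{|J \ E|}` if `E ⊆ J` and `0` otherwise, Moebius inversion).
Let `M(E) = ∑_{I ⊆ E} s^|I| • M I`.  Identity:
`∑_{L} Z_{E,L} N_{L,J} = M(E) Z_{E,J}`: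
for `J ⊆ E` the left side is `∑_{J ⊆ L ⊆ E} ∑_{U ⊆ J} s^{|L|+|U|} M_{(L\J) ∪ U}` and
`(L, U) ↦ I = (L \ J) ∪ U` is a bijection onto the subsets `I` of `E`, with
`|L| + |U| = |J| + |I|`; for `J ⊄ E` both sides vanish.
So `(Z ⊗ 1_b) * N = blockDiagonal(M(E)) * (Z ⊗ 1_a)`, hence `rank N = rank ((Z ⊗ 1) * N) ≤
rank (block diagonal) ≤ ∑_E rank M(E)`.
(Alternatively with linear maps: if `v : Finset ι → a → K`, then `∑_L Z_{E,L} (N v)_L =
M(E) (∑_J Z_{E,J} v_J)`; so the map `w ↦ (E ↦ ∑_L Z_{E,L} w_L)` is injective and sends the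
range of `N` into the product of the ranges of the `M(E)`.)
-/

set_option autoImplicit false

namespace Pool.Agent.Helper83.AH

open Finset

variable {K : Type} [Field K] {ι : Type} [Fintype ι] [DecidableEq ι] {a b : Type} [Fintype a]
  [Fintype b]

theorem cubePoly_natDegree (M : Finset ι → Matrix b a K) (i : Finset ι × b) (j : Finset ι × a) :
    (cubePoly M i j).natDegree ≤ Fintype.card ι := by
  unfold cubePoly
  rw [Matrix.of_apply]
  split_ifs with h
  · refine Polynomial.natDegree_sum_le_of_forall_le _ _ fun U _ => ?_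
    refine Polynomial.natDegree_mul_le.trans ?_
    rw [Polynomial.natDegree_C, add_zero, Polynomial.natDegree_X_pow]
    exact Finset.card_le_univ U
  · simp

namespace CubeAux

omit [Fintype ι] in
theorem key (F : Finset ι → K) (s : K) {J E : Finset ι} (h : J ⊆ E) :
    ∑ L ∈ E.powerset, (if J ⊆ L then ∑ U ∈ J.powerset,
      s ^ L.card * (s ^ U.card * F ((L \ J) ∪ U)) else 0) =
      s ^ J.card * ∑ I ∈ E.powerset, s ^ I.card * F I := by
  rw [← Finset.sum_filter, ← Finset.sum_product', Finset.mul_sum]
  refine Finset.sum_nbij' (fun p => (p.1 \ J) ∪ p.2) (fun I => (I ∪ J, I ∩ J)) ?_ ?_ ?_ ?_ ?_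
  · rintro ⟨L, U⟩ hp
    simp only [mem_product, mem_filter, mem_powerset] at hp ⊢
    exact union_subset (sdiff_subset.trans hp.1.1) (hp.2.trans h)
  · intro I hI
    simp only [mem_product, mem_filter, mem_powerset] at hI ⊢
    exact ⟨⟨union_subset hI h, subset_union_right⟩, inter_subset_right⟩
  · rintro ⟨L, U⟩ hp
    simp only [mem_product, mem_filter, mem_powerset] at hp
    obtain ⟨⟨_, hJL⟩, hUJ⟩ := hp
    simp only [Prod.mk.injEq]
    constructor
    · ext x
      simp only [mem_union, mem_sdiff]
      constructor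
      · rintro ((h1 | h1) | h1)
        · exact h1.1
        · exact hJL (hUJ h1)
        · exact hJL h1
      · intro hx
        by_cases hxJ : x ∈ J
        · exact Or.inr hxJ
        · exact Or.inl (Or.inl ⟨hx, hxJ⟩)
    · ext x
      simp only [mem_inter, mem_union, mem_sdiff]
      constructor
      · rintro ⟨h1 | h1, h2⟩
        · exact absurd h2 h1.2
        · exact h1
      · intro hx
        exact ⟨Or.inr hx, hUJ hx⟩
  · intro I hI
    ext x
    simp only [mem_inter, mem_union, mem_sdiff]
    tauto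
  · rintro ⟨L, U⟩ hp
    simp only [mem_product, mem_filter, mem_powerset] at hp
    obtain ⟨⟨_, hJL⟩, hUJ⟩ := hp
    have hd : Disjoint (L \ J) U :=
      Finset.disjoint_of_subset_right hUJ Finset.sdiff_disjoint
    have hcard : ((L \ J) ∪ U).card + J.card = L.card + U.card := by
      rw [Finset.card_union_of_disjoint hd]
      have := Finset.card_sdiff_add_card_eq_card hJL
      omega
    have hpow : s ^ L.card * s ^ U.card = s ^ J.card * s ^ ((L \ J) ∪ U).card := by
      rw [← pow_add, ← pow_add, ← hcard, add_comm]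
    calc s ^ L.card * (s ^ U.card * F ((L \ J) ∪ U))
        = (s ^ L.card * s ^ U.card) * F ((L \ J) ∪ U) := by ring
      _ = _ := by rw [hpow]; ring

/-- the evaluated matrix -/
theorem eval_entry (M : Finset ι → Matrix b a K) (s : K) (i : Finset ι × b) (j : Finset ι × a) :
    ((cubePoly M).map (Polynomial.eval s)) i j = if j.1 ⊆ i.1 then
      ∑ U ∈ j.1.powerset, s ^ U.card * M ((i.1 \ j.1) ∪ U) i.2 j.2 else 0 := by
  rw [Matrix.map_apply]
  unfold cubePoly
  rw [Matrix.of_apply]
  split_ifs with h
  · rw [Polynomial.eval_finsetSum]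
    refine Finset.sum_congr rfl fun U _ => ?_
    rw [Polynomial.eval_mul, Polynomial.eval_pow, Polynomial.eval_X, Polynomial.eval_C]
  · simp

theorem intertwine (M : Finset ι → Matrix b a K) (s : K) (v : Finset ι × a → K) (E : Finset ι)
    (x : b) :
    ∑ L ∈ E.powerset, s ^ L.card * (((cubePoly M).map (Polynomial.eval s)).mulVec v) (L, x) =
      ((∑ I ∈ E.powerset, s ^ I.card • M I).mulVec
        (fun y => ∑ J ∈ E.powerset, s ^ J.card * v (J, y))) x := by
  have h1 : ∀ L : Finset ι,
      s ^ L.card * (((cubePoly M).map (Polynomial.eval s)).mulVec v) (L, x) =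
      ∑ J : Finset ι, ∑ y : a, v (J, y) * (if J ⊆ L then ∑ U ∈ J.powerset,
        s ^ L.card * (s ^ U.card * M ((L \ J) ∪ U) x y) else 0) := by
    intro L
    rw [Matrix.mulVec, dotProduct, Fintype.sum_prod_type, Finset.mul_sum]
    refine Finset.sum_congr rfl fun J _ => ?_
    rw [Finset.mul_sum]
    refine Finset.sum_congr rfl fun y _ => ?_
    rw [eval_entry]
    split_ifs with h
    · simp only at h ⊢
      rw [← Finset.mul_sum]
      ring
    · simp
  simp_rw [h1]
  rw [Finset.sum_comm]
  have h2 : ∀ J : Finset ι, ∑ L ∈ E.powerset, ∑ y : a, v (J, y) * (if J ⊆ L then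
      ∑ U ∈ J.powerset, s ^ L.card * (s ^ U.card * M ((L \ J) ∪ U) x y) else 0) =
      if J ⊆ E then ∑ y : a, v (J, y) * (s ^ J.card * ∑ I ∈ E.powerset, s ^ I.card * M I x y)
        else 0 := by
    intro J
    rw [Finset.sum_comm]
    split_ifs with hJ
    · refine Finset.sum_congr rfl fun y _ => ?_
      rw [← Finset.mul_sum, key (fun I => M I x y) s hJ]
    · refine Finset.sum_eq_zero fun y _ => Finset.sum_eq_zero fun L hL => ?_
      rw [if_neg, mul_zero]
      intro h
      exact hJ (h.trans (Finset.mem_powerset.1 hL))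
  simp_rw [h2]
  rw [← Finset.sum_filter]
  have hf : (Finset.univ.filter fun J : Finset ι => J ⊆ E) = E.powerset := by
    ext J; simp
  rw [hf, Matrix.mulVec, dotProduct, Finset.sum_comm]
  refine Finset.sum_congr rfl fun y _ => ?_
  rw [Finset.mul_sum]
  refine Finset.sum_congr rfl fun J _ => ?_
  rw [Matrix.sum_apply]
  simp only [Matrix.smul_apply, smul_eq_mul]
  ring

/-- the triangular change of coordinates, one component -/
noncomputable def Phi (K : Type) [Field K] {ι : Type} [DecidableEq ι] {b : Type}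
    (s : K) (E : Finset ι) : (Finset ι × b → K) →ₗ[K] (b → K) where
  toFun w := fun x => ∑ L ∈ E.powerset, s ^ L.card * w (L, x)
  map_add' u w := by
    funext x
    simp only [Pi.add_apply, mul_add, Finset.sum_add_distrib]
  map_smul' c w := by
    funext x
    simp only [Pi.smul_apply, smul_eq_mul, RingHom.id_apply, Finset.mul_sum]
    refine Finset.sum_congr rfl fun L _ => ?_
    ring

omit [Fintype ι] [Fintype b] in
theorem Phi_inj (s : K) (hs : s ≠ 0) (w : Finset ι × b → K)
    (h : ∀ E, Phi K s E w = 0) : w = 0 := by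
  have key : ∀ n : ℕ, ∀ E : Finset ι, E.card = n → ∀ x, w (E, x) = 0 := by
    intro n
    induction n using Nat.strong_induction_on with
    | _ n ih =>
      intro E hE x
      have h1 : ∑ L ∈ E.powerset, s ^ L.card * w (L, x) = 0 := congrFun (h E) x
      rw [Finset.sum_eq_single E] at h1
      · rcases mul_eq_zero.1 h1 with h2 | h2
        · exact absurd h2 (pow_ne_zero _ hs)
        · exact h2
      · intro L hL hne
        have hss : L ⊂ E := lt_of_le_of_ne (Finset.mem_powerset.1 hL) hne
        rw [ih L.card (hE ▸ Finset.card_lt_card hss) L rfl x, mul_zero]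
      · intro hne
        exact absurd (Finset.mem_powerset_self E) hne
  funext p
  exact key _ p.1 rfl p.2

end CubeAux

open CubeAux

theorem cube_rank_le (M : Finset ι → Matrix b a K) (s : K) (hs : s ≠ 0) :
    ((cubePoly M).map (Polynomial.eval s)).rank ≤
      ∑ E : Finset ι, (∑ I ∈ E.powerset, s ^ I.card • M I).rank := by
  set N := (cubePoly M).map (Polynomial.eval s) with hN
  set ME : Finset ι → Matrix b a K := fun E => ∑ I ∈ E.powerset, s ^ I.card • M I with hME
  have hmem : ∀ (E : Finset ι) (w : LinearMap.range N.mulVecLin),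
      ((Phi K s E).comp (LinearMap.range N.mulVecLin).subtype) w ∈
        LinearMap.range (ME E).mulVecLin := by
    rintro E ⟨w, v, rfl⟩
    refine ⟨fun y => ∑ J ∈ E.powerset, s ^ J.card * v (J, y), ?_⟩
    funext x
    exact (intertwine M s v E x).symm
  let Ψ : LinearMap.range N.mulVecLin →ₗ[K] (∀ E : Finset ι, LinearMap.range (ME E).mulVecLin) :=
    LinearMap.pi fun E => LinearMap.codRestrict (LinearMap.range (ME E).mulVecLin)
      ((Phi K s E).comp (LinearMap.range N.mulVecLin).subtype) (hmem E)
  have hinj : Function.Injective Ψ := by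
    rw [injective_iff_map_eq_zero]
    intro w hw
    apply Subtype.ext
    refine Phi_inj s hs w.1 fun E => ?_
    have h1 : Ψ w E = 0 := by rw [hw]; rfl
    exact congrArg Subtype.val h1
  have h := LinearMap.finrank_le_finrank_of_injective hinj
  rw [Module.finrank_pi_fintype] at h
  exact h

end Pool.Agent.Helper83.AH
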