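import Mathlib

/-!
# Approximate homomorphisms into matrices: definitions

`K` is a field, `ι` a finite type of slots, `V` a `K`-vector space.
-/

set_option autoImplicit false

namespace Pool.Agent.Helper83.AH

open Finset

/-- `f` depends only on the coordinates in `J` and is `K`-linear in each of them. -/
structure IsML (K : Type) [Field K] {ι V W : Type} [DecidableEq ι] [AddCommGroup V] [Module K V]
    [AddCommGroup W] [Module K W] (J : Finset ι) (f : (ι → V) → W) : Prop where
  dep : ∀ x y : ι → V, (∀ i ∈ J, x i = y i) → f x = f y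
  add : ∀ i ∈ J, ∀ (x : ι → V) (v w : V),
    f (Function.update x i (v + w)) = f (Function.update x i v) + f (Function.update x i w)
  smul : ∀ i ∈ J, ∀ (x : ι → V) (c : K) (v : V),
    f (Function.update x i (c • v)) = c • f (Function.update x i v)

/-- `T` is a sum over all sets `I` of slots of products `A_I(x_I) * B_I(x_{I^c})` through a middle
space of dimension `μ`, where `A_I` is multilinear in the variables in `I` and `B_I` is multilinear
in the variables outside `I`. -/
def HasCost (K : Type) [Field K] {ι V : Type} [Fintype ι] [DecidableEq ι] [AddCommGroup V]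
    [Module K V] {a b : Type} [Fintype a] [Fintype b]
    (T : (ι → V) → Matrix b a K) (μ : ℕ) : Prop :=
  ∃ (A : Finset ι → (ι → V) → Matrix b (Fin μ) K) (B : Finset ι → (ι → V) → Matrix (Fin μ) a K),
    (∀ I, IsML K I (A I)) ∧ (∀ I, IsML K Iᶜ (B I)) ∧ ∀ x, T x = ∑ I, A I x * B I x

/-- The polynomial block matrix of a family of matrices `M_I` indexed by subsets: the block
`(L, J)` is `∑_{U ⊆ J} X^|U| M_{(L \ J) ∪ U}` if `J ⊆ L` and `0` otherwise. -/
noncomputable def cubePoly {K : Type} [Field K] {ι : Type} [DecidableEq ι] {a b : Type}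
    (M : Finset ι → Matrix b a K) : Matrix (Finset ι × b) (Finset ι × a) (Polynomial K) :=
  Matrix.of fun i j => if j.1 ⊆ i.1 then
    ∑ U ∈ j.1.powerset, (Polynomial.X : Polynomial K) ^ U.card *
      Polynomial.C (M ((i.1 \ j.1) ∪ U) i.2 j.2) else 0

/-- Partial evaluation: the coordinates in `I` from `x`, the others from `c`. -/
def mix {ι V : Type} [DecidableEq ι] (c x : ι → V) (I : Finset ι) : ι → V :=
  fun i => if i ∈ I then x i else c i

/-- The threshold for the number of nonzero scalars. -/
def thr (k : ℕ) : ℕ := k + 2 ^ (k + 1) * k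

/-- `f` has degree at most two. -/
def IsQuadratic {V W : Type} [AddCommGroup V] [AddCommGroup W] (f : V → W) : Prop :=
  ∀ x y z, f (x + y + z) - f (x + y) - f (x + z) - f (y + z) + f x + f y + f z - f 0 = 0

/-- The data of a representation of the additive group `V` on `Q ⊕ M ⊕ P`, trivial on the
sub `Q` and the quotient `P`, with corner `f`. -/
structure CornerRep (K : Type) [Field K] {V P M Q : Type} [AddCommGroup V]
    [AddCommGroup P] [Module K P] [AddCommGroup M] [Module K M] [AddCommGroup Q] [Module K Q]
    (f : V → P →ₗ[K] Q) (u : V → M →ₗ[K] Q) (v : V → P →ₗ[K] M) (g : V → M →ₗ[K] M) : Prop where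
  hf : ∀ x y, f (x + y) = f x + f y + u x ∘ₗ v y
  hv : ∀ x y, v (x + y) = v x + g x ∘ₗ v y
  hu : ∀ x y, u (x + y) = u y + u x ∘ₗ g y
  hg : ∀ x y, g (x + y) = g x ∘ₗ g y

end Pool.Agent.Helper83.AH
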