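import Pool.Agent.Helper83.AH.ML
import Pool.Agent.Helper83.AH.Basic

/-!
AH-13. Descent.  There is an `F`-linear `φ : K → F` with `φ (algebraMap F K c) = c` (a retraction of
the injective `F`-linear map `algebraMap`; `LinearMap.exists_leftInverse_of_injective`).
Let `T' y = ∑_I A I y * B I y` over `K`, `μ`.  For `x : ι → Fin n → F` let `y = algebraMap ∘ x`.
`T x = ((T x).map algebraMap).map φ = ∑_I (A I y * B I y).map φ`, and with
`A I y (p, i) = ∑_l (e.repr (A I y p i)) l • e l`:
`φ ((A I y * B I y) p q) = ∑_i ∑_l e.repr (A I y p i) l * φ (e l * B I y i q)`.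
So with middle index `Fin m × Fin μ ≃ Fin (m * μ)`, `A₁ I x p (l, i) = e.repr (A I y p i) l`,
`B₁ I x (l, i) q = φ (e l * B I y i q)`.  These are `F`-multilinear in `I`, resp. `Iᶜ`
(`IsML K I f` and `g` `F`-linear imply `IsML F I (g ∘ f ∘ (algebraMap ∘ ·))`:
`algebraMap ∘ (update x i v) = update (algebraMap ∘ x) i (algebraMap ∘ v)`).
-/

set_option autoImplicit false

namespace Pool.Agent.Helper83.AH

open Finset

variable {F K : Type} [Field F] [Field K] [Algebra F K] {ι : Type} [Fintype ι] [DecidableEq ι]
  {n : ℕ} {a b : Type} [Fintype a] [Fintype b] [DecidableEq a] [DecidableEq b]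

/-- extension of scalars for tuples -/
private def emb (x : ι → Fin n → F) : ι → Fin n → K := fun i j => algebraMap F K (x i j)

private theorem emb_update_add (x : ι → Fin n → F) (i : ι) (v w : Fin n → F) :
    (emb (Function.update x i (v + w)) : ι → Fin n → K) =
      Function.update (emb x) i ((fun j => algebraMap F K (v j)) + fun j => algebraMap F K (w j)) := by
  funext k
  by_cases h : k = i
  · subst h
    funext j
    simp [emb]
  · funext j
    simp [emb, Function.update_of_ne h]

private theorem emb_update (x : ι → Fin n → F) (i : ι) (v : Fin n → F) :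
    (emb (Function.update x i v) : ι → Fin n → K) =
      Function.update (emb x) i (fun j => algebraMap F K (v j)) := by
  funext k
  by_cases h : k = i
  · subst h
    funext j
    simp [emb]
  · funext j
    simp [emb, Function.update_of_ne h]

private theorem emb_update_smul (x : ι → Fin n → F) (i : ι) (c : F) (v : Fin n → F) :
    (emb (Function.update x i (c • v)) : ι → Fin n → K) =
      Function.update (emb x) i (algebraMap F K c • fun j => algebraMap F K (v j)) := by
  funext k
  by_cases h : k = i
  · subst h
    funext j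
    simp only [emb, Function.update_self, Pi.smul_apply, smul_eq_mul, map_mul]
  · funext j
    simp [emb, Function.update_of_ne h]

/-- restriction of scalars for multilinear functions -/
private theorem isML_descend {c d c' d' : Type} {J : Finset ι}
    {f : (ι → Fin n → K) → Matrix c d K} (hf : IsML K J f)
    (g : Matrix c d K → Matrix c' d' F) (hg : ∀ M N, g (M + N) = g M + g N)
    (hg' : ∀ (t : F) M, g (algebraMap F K t • M) = t • g M) :
    IsML F J (fun x : ι → Fin n → F => g (f (emb x))) where
  dep x y h := by
    have : f (emb x) = f (emb y) := hf.dep _ _ fun i hi => by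
      funext j
      simp only [emb, h i hi]
    simp only [this]
  add i hi x v w := by
    rw [emb_update_add, hf.add i hi, hg, ← emb_update, ← emb_update]
  smul i hi x t v := by
    rw [emb_update_smul, hf.smul i hi, hg', ← emb_update]

theorem descent (m : ℕ) (e : Module.Basis (Fin m) F K)
    (T : (ι → Fin n → F) → Matrix b a F)
    (T' : (ι → Fin n → K) → Matrix b a K)
    (h : ∀ x, T' (fun i j => algebraMap F K (x i j)) = (T x).map (algebraMap F K))
    (μ : ℕ) (hT' : HasCost K T' μ) : HasCost F T (m * μ) := by
  obtain ⟨A, B, hA, hB, hAB⟩ := hT'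
  obtain ⟨φ, hφ⟩ : ∃ φ : K →ₗ[F] F, ∀ t, φ (algebraMap F K t) = t := by
    have hinj : LinearMap.ker (Algebra.linearMap F K) = ⊥ := by
      rw [LinearMap.ker_eq_bot]
      exact (algebraMap F K).injective
    obtain ⟨φ, hφ⟩ := LinearMap.exists_leftInverse_of_injective (Algebra.linearMap F K) hinj
    exact ⟨φ, fun t => congrArg (fun ψ : F →ₗ[F] F => ψ t) hφ⟩
  let ψ : Fin (m * μ) ≃ Fin m × Fin μ := finProdFinEquiv.symm
  let gA : Matrix b (Fin μ) K → Matrix b (Fin (m * μ)) F := fun M =>
    Matrix.of fun p k => e.repr (M p (ψ k).2) (ψ k).1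
  let gB : Matrix (Fin μ) a K → Matrix (Fin (m * μ)) a F := fun M =>
    Matrix.of fun k q => φ (e (ψ k).1 * M (ψ k).2 q)
  refine ⟨fun I x => gA (A I (emb x)), fun I x => gB (B I (emb x)), fun I => ?_, fun I => ?_,
    fun x => ?_⟩
  · refine isML_descend (hA I) gA (fun M N => ?_) (fun t M => ?_)
    · ext p k
      simp [gA]
    · ext p k
      simp only [gA, Matrix.of_apply, Matrix.smul_apply]
      rw [smul_eq_mul, ← Algebra.smul_def, map_smul]
      rfl
  · refine isML_descend (hB I) gB (fun M N => ?_) (fun t M => ?_)
    · ext k q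
      simp [gB, mul_add]
    · ext k q
      simp only [gB, Matrix.of_apply, Matrix.smul_apply]
      rw [smul_eq_mul, mul_left_comm, ← Algebra.smul_def, map_smul]
  · ext p q
    have h1 : algebraMap F K (T x p q) = ∑ I, ∑ i, A I (emb x) p i * B I (emb x) i q := by
      have h2 := congrFun (congrFun (h x) p) q
      rw [Matrix.map_apply] at h2
      rw [← h2]
      have h3 := congrFun (congrFun (hAB (emb x)) p) q
      rw [Matrix.sum_apply] at h3
      simp only [Matrix.mul_apply] at h3
      exact h3
    have h4 : T x p q = ∑ I, ∑ i, φ (A I (emb x) p i * B I (emb x) i q) := by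
      rw [← hφ (T x p q), h1, map_sum]
      exact Finset.sum_congr rfl fun I _ => map_sum _ _ _
    rw [h4, Matrix.sum_apply]
    refine Finset.sum_congr rfl fun I _ => ?_
    rw [Matrix.mul_apply]
    have h5 : ∑ k : Fin (m * μ), gA (A I (emb x)) p k * gB (B I (emb x)) k q =
        ∑ z : Fin m × Fin μ, e.repr (A I (emb x) p z.2) z.1 * φ (e z.1 * B I (emb x) z.2 q) := by
      rw [← ψ.sum_comp]
      rfl
    rw [h5, Fintype.sum_prod_type, Finset.sum_comm]
    refine Finset.sum_congr rfl fun i _ => ?_
    have h6 : A I (emb x) p i = ∑ l, e.repr (A I (emb x) p i) l • e l := (e.sum_repr _).symm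
    conv_lhs => rw [h6]
    rw [Finset.sum_mul, map_sum]
    refine Finset.sum_congr rfl fun l _ => ?_
    rw [smul_mul_assoc, map_smul, smul_eq_mul]

end Pool.Agent.Helper83.AH
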