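import Pool.Agent.Helper83.AH.Defs

/-!
AH-2. If the square polynomial matrix `D` (of size `g`) has `rank D(s) ≤ ρ`, then `(X - s)^(g - ρ)`
divides `det D`.
Proof: let `D₀ = D(s)`, a matrix over `K` of rank `≤ ρ`. There is an invertible matrix `E` over `K`
such that at least `g - ρ` rows of `E * D₀` vanish (take for `E` the rows: a basis of `a → K`
extending a basis of the left kernel, of dimension `g - rank D₀`; e.g. use
`Matrix.exists_rank_normal_form`).  Then in `(E.map C) * D` at least `g - ρ` rows are divisible by
`X - C s` (every entry has root `s`), so `det (E.map C * D) = C (det E) * det D` is divisible by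
`(X - C s)^(g - ρ)` (`Matrix.det_mul_column`/`Matrix.det_mul_row`: write the matrix as
`diagonal w * D'` with `w i = X - C s` for those rows and `1` for the others), and `det E` is a unit.
If `ρ ≥ g` the claim is trivial.
-/

set_option autoImplicit false

namespace Pool.Agent.Helper83.AH

open Finset

variable {K : Type} [Field K] {a : Type} [Fintype a] [DecidableEq a]

/-- entries of a row divisible by `q` at selected rows -/
theorem dvd_det_of_rows {R : Type} [CommRing R] (M : Matrix a a R) (q : R) (P : a → Prop)
    [DecidablePred P] (h : ∀ i, P i → ∀ j, q ∣ M i j) :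
    q ^ (Finset.univ.filter P).card ∣ M.det := by
  classical
  have hex : ∀ i j, ∃ r, M i j = (if P i then q else 1) * r := by
    intro i j
    by_cases hi : P i
    · obtain ⟨r, hr⟩ := h i hi j
      exact ⟨r, by rw [if_pos hi, hr]⟩
    · exact ⟨M i j, by rw [if_neg hi, one_mul]⟩
  choose N hN using hex
  have hM : M = Matrix.diagonal (fun i => if P i then q else 1) * Matrix.of N := by
    ext i j
    rw [Matrix.diagonal_mul, Matrix.of_apply]
    exact hN i j
  rw [hM, Matrix.det_mul, Matrix.det_diagonal]
  apply Dvd.dvd.mul_right
  rw [Finset.prod_ite, Finset.prod_const_one, mul_one, Finset.prod_const]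

theorem dvd_det (D : Matrix a a (Polynomial K)) (s : K) (ρ : ℕ)
    (h : (D.map (Polynomial.eval s)).rank ≤ ρ) :
    (Polynomial.X - Polynomial.C s) ^ (Fintype.card a - ρ) ∣ D.det := by
  classical
  obtain ⟨V, U, e, hV, hU, heq⟩ :=
    Matrix.exists_rank_normal_form (D.map (Polynomial.eval s))
  set V' : Matrix a a (Polynomial K) := V.map Polynomial.C with hV'
  set U' : Matrix a a (Polynomial K) := U.map Polynomial.C with hU'
  have hmap : (V' * D * U').map (Polynomial.eval s) =
      V * D.map (Polynomial.eval s) * U := by
    have h1 : ∀ A B : Matrix a a (Polynomial K),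
        (A * B).map (Polynomial.eval s) = A.map (Polynomial.eval s) * B.map (Polynomial.eval s) := by
      intro A B
      exact Matrix.map_mul (f := Polynomial.evalRingHom s)
    rw [h1, h1]
    congr 2
    · ext i j; simp [hV']
    · ext i j; simp [hU']
  have hrow : ∀ i, (e i).isRight = true → ∀ j,
      (Polynomial.X - Polynomial.C s) ∣ (V' * D * U') i j := by
    intro i hi j
    rw [Polynomial.dvd_iff_isRoot, Polynomial.IsRoot.def]
    have h2 : ((V' * D * U').map (Polynomial.eval s)) i j = 0 := by
      rw [hmap, heq]
      obtain ⟨k, hk⟩ := Sum.isRight_iff.mp hi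
      rw [Matrix.submatrix_apply, hk]
      cases e j <;> simp
    simpa using h2
  have hdet := dvd_det_of_rows (V' * D * U') (Polynomial.X - Polynomial.C s)
    (fun i => (e i).isRight = true) hrow
  have hcard : (Finset.univ.filter (fun i => (e i).isRight = true)).card =
      Fintype.card a - (D.map (Polynomial.eval s)).rank := by
    have h3 : (Finset.univ.filter (fun i => (e i).isRight = true)).card =
        (Finset.univ.filter (fun x : Fin (D.map (Polynomial.eval s)).rank ⊕
          Fin (Fintype.card a - (D.map (Polynomial.eval s)).rank) => x.isRight = true)).card := by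
      apply Finset.card_bij (fun i _ => e i)
      · intro i hi; simpa using hi
      · intro i _ j _ hij; exact e.injective hij
      · intro x hx
        exact ⟨e.symm x, by simpa using hx, by simp⟩
    rw [h3]
    have h4 : (Finset.univ.filter (fun x : Fin (D.map (Polynomial.eval s)).rank ⊕
          Fin (Fintype.card a - (D.map (Polynomial.eval s)).rank) => x.isRight = true)) =
        Finset.univ.map ⟨Sum.inr, Sum.inr_injective⟩ := by
      ext x
      cases x <;> simp
    rw [h4, Finset.card_map, Finset.card_univ, Fintype.card_fin]
  rw [hcard] at hdet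
  have hV1 : IsUnit V'.det := by
    have : V'.det = Polynomial.C V.det := by
      rw [hV']; exact (RingHom.map_det Polynomial.C V).symm
    rw [this]
    exact ((Matrix.isUnit_iff_isUnit_det _).mp hV).map Polynomial.C
  have hU1 : IsUnit U'.det := by
    have : U'.det = Polynomial.C U.det := by
      rw [hU']; exact (RingHom.map_det Polynomial.C U).symm
    rw [this]
    exact ((Matrix.isUnit_iff_isUnit_det _).mp hU).map Polynomial.C
  rw [Matrix.det_mul, Matrix.det_mul, hU1.dvd_mul_right, hV1.dvd_mul_left] at hdet
  exact (pow_dvd_pow _ (Nat.sub_le_sub_left h _)).trans hdet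

end Pool.Agent.Helper83.AH
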