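import Pool.Agent.Helper83.AH.ML

/-!
AH-5. Expansion of a multilinear map.  Induction on `E` (generalizing `c`, `x` if needed): for
`E = insert i E'`, use additivity and homogeneity in the slot `i` and the induction hypothesis for
the two base points `c` and `update c i (x i)` (note `s • x i`), and
`(insert i E').powerset = E'.powerset ∪ (E'.powerset).image (insert i)`.
`expand_sub`: `f (x - y)` as a signed sum over the cube.
-/

set_option autoImplicit false

namespace Pool.Agent.Helper83.AH

open Finset

variable {K : Type} [Field K] {ι V : Type} [Fintype ι] [DecidableEq ι] [AddCommGroup V]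
    [Module K V] {W : Type} [AddCommGroup W] [Module K W]

theorem expand_ml {f : (ι → V) → W} (hf : IsML K Finset.univ f) (c x : ι → V) (s : K)
    (E : Finset ι) :
    f (fun i => if i ∈ E then c i + s • x i else c i) =
      ∑ I ∈ E.powerset, s ^ I.card • f (mix c x I) := by
  induction E using Finset.induction_on generalizing c with
  | empty =>
    rw [Finset.powerset_empty, Finset.sum_singleton, Finset.card_empty, pow_zero, one_smul]
    congr 1
  | insert j E' hj ih =>
    rw [Finset.sum_powerset_insert hj]
    set y : ι → V := fun i => if i ∈ E' then c i + s • x i else c i with hy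
    have h1 : (fun i => if i ∈ insert j E' then c i + s • x i else c i) =
        Function.update y j (c j + s • x j) := by
      funext i
      by_cases hi : i = j
      · subst hi
        simp
      · simp [hi, hy, Finset.mem_insert]
    have h2 : Function.update y j (c j) = y := by
      rw [Function.update_eq_self_iff]
      simp [hy, hj]
    have h3 : Function.update y j (x j) = fun i => if i ∈ E' then
        Function.update c j (x j) i + s • x i else Function.update c j (x j) i := by
      funext i
      by_cases hi : i = j
      · subst hi
        simp [hj]
      · simp [hi, hy]
    rw [h1, hf.add j (Finset.mem_univ _), hf.smul j (Finset.mem_univ _), h2, h3,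
      ih (Function.update c j (x j)), hy, ih c, Finset.smul_sum]
    congr 1
    refine Finset.sum_congr rfl fun I hI => ?_
    have hjI : j ∉ I := fun h => hj (Finset.mem_powerset.mp hI h)
    rw [Finset.card_insert_of_notMem hjI, pow_succ, smul_smul, mul_comm (s ^ I.card) s]
    congr 2
    funext i
    unfold mix
    by_cases hi : i = j
    · subst hi
      simp [hjI]
    · simp [hi, Finset.mem_insert]

theorem expand_sub_ml {f : (ι → V) → W} (hf : IsML K Finset.univ f) (x y : ι → V) :
    f (x - y) = ∑ I : Finset ι, (-1 : K) ^ I.card • f (mix x y I) := by
  have h := expand_ml hf x y (-1) Finset.univ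
  rw [Finset.powerset_univ] at h
  rw [← h]
  congr 1
  funext i
  simp [sub_eq_add_neg]

end Pool.Agent.Helper83.AH
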