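import Pool.Agent.Helper83.AH.ML
import Pool.Agent.Helper83.AH.Basic

/-!
AH-12. Extension of scalars for a multilinear map.  Put, for `j : ι → Fin n`,
`t_j = T (fun i => Pi.single (j i) 1)`, and define
`T' y = ∑_j (∏_i y i (j i)) • (t_j).map (algebraMap F K)`.  It is `K`-multilinear in all slots and
agrees with `T` on `F`-points (expand `x i = ∑_l x i l • Pi.single l 1`; multilinear expansion, e.g.
package `T` as a `MultilinearMap` and use `MultilinearMap.map_sum`, `map_smul_univ`).
Rank bound: for `y : ι → Fin n → K` write `y i = ∑_{l : Fin m} e l • (algebraMap ∘ y^(l)_i)` with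
`y^(l)_i : Fin n → F` (coordinates `e.repr`); expanding (K-multilinearity of `T'`, again
`MultilinearMap.map_sum`) `T' y = ∑_{l : ι → Fin m} (∏_i e (l i)) • T'(algebraMap ∘ y^(l i)_i) =
∑_l (∏ e (l i)) • (T (fun i => y^(l i)_i)).map (algebraMap F K)`, a sum of `m^(card ι)` matrices of
rank `≤ R` (`rank (c • A) ≤ rank A`, `rank (A.map (algebraMap F K)) ≤ rank A`: factor `A = G * H`
through `Fin (rank A)`).
-/

set_option autoImplicit false

namespace Pool.Agent.Helper83.AH

open Finset

variable {F K : Type} [Field F] [Field K] [Algebra F K] {ι : Type} [Fintype ι] [DecidableEq ι]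
  {n : ℕ} {a b : Type} [Fintype a] [Fintype b] [DecidableEq a] [DecidableEq b]

theorem rank_map_le (A : Matrix b a F) : (A.map (algebraMap F K)).rank ≤ A.rank := by
  obtain ⟨G₁, G₂, _, h⟩ := exists_pinv A
  have h1 : A = (A * G₁) * (G₂ * A) := by
    rw [← Matrix.mul_assoc]; exact h.symm
  have h2 : A.map (algebraMap F K) =
      (A * G₁).map (algebraMap F K) * (G₂ * A).map (algebraMap F K) := by
    rw [← Matrix.map_mul, ← h1]
  rw [h2]
  exact rank_mul_le_mid _ _

namespace ExtAux

omit [Fintype ι] [Fintype a] in
theorem rank_smul_le [Fintype a] (c : K) (A : Matrix b a K) : (c • A).rank ≤ A.rank := by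
  have h : c • A = (c • (1 : Matrix b b K)) * A := by
    rw [Matrix.smul_mul, Matrix.one_mul]
  rw [h]
  exact Matrix.rank_mul_le_right _ _

theorem toMM_add {κ R V W : Type} [inst : DecidableEq κ] [Fintype κ] [Field R] [AddCommGroup V]
    [Module R V] [AddCommGroup W] [Module R W] (T : (κ → V) → W) (hT : IsML R Finset.univ T)
    (inst' : DecidableEq κ) (x : κ → V) (i : κ) (v w : V) :
    T (@Function.update κ (fun _ => V) inst' x i (v + w)) =
      T (@Function.update κ (fun _ => V) inst' x i v) +
      T (@Function.update κ (fun _ => V) inst' x i w) := by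
  have e : inst' = inst := Subsingleton.elim _ _
  subst e
  exact hT.add i (Finset.mem_univ i) x v w

theorem toMM_smul {κ R V W : Type} [inst : DecidableEq κ] [Fintype κ] [Field R] [AddCommGroup V]
    [Module R V] [AddCommGroup W] [Module R W] (T : (κ → V) → W) (hT : IsML R Finset.univ T)
    (inst' : DecidableEq κ) (x : κ → V) (i : κ) (c : R) (v : V) :
    T (@Function.update κ (fun _ => V) inst' x i (c • v)) =
      c • T (@Function.update κ (fun _ => V) inst' x i v) := by
  have e : inst' = inst := Subsingleton.elim _ _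
  subst e
  exact hT.smul i (Finset.mem_univ i) x c v

/-- a map that is linear in every slot as a multilinear map -/
def toMM {R V W : Type} [Field R] [AddCommGroup V] [Module R V] [AddCommGroup W] [Module R W]
    (T : (ι → V) → W) (hT : IsML R Finset.univ T) : MultilinearMap R (fun _ : ι => V) W where
  toFun := T
  map_update_add' := by
    have h := toMM_add T hT
    intro inst' x i v w
    exact h inst' x i v w
  map_update_smul' := by
    have h := toMM_smul T hT
    intro inst' x i c v
    exact h inst' x i c v

theorem isML_of_MM {R V W : Type} [Field R] [AddCommGroup V] [Module R V] [AddCommGroup W]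
    [Module R W] (T : MultilinearMap R (fun _ : ι => V) W) : IsML R Finset.univ (fun x => T x) where
  dep x y h := by
    have : x = y := funext fun i => h i (Finset.mem_univ i)
    rw [this]
  add i _ x v w := T.map_update_add x i v w
  smul i _ x c v := T.map_update_smul x i c v

theorem expand_single {R : Type} [Field R] (v : Fin n → R) :
    v = ∑ l, v l • (Pi.single l (1 : R) : Fin n → R) := by
  funext k
  rw [Finset.sum_apply, Finset.sum_eq_single k]
  · simp
  · intro l _ hl
    simp [hl.symm]
  · intro h; exact absurd (Finset.mem_univ k) h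

theorem expand_MM {R W : Type} [Field R] [AddCommGroup W] [Module R W]
    (T : MultilinearMap R (fun _ : ι => Fin n → R) W) (x : ι → Fin n → R) :
    T x = ∑ j : ι → Fin n, (∏ i, x i (j i)) • T (fun i => Pi.single (j i) (1 : R)) := by
  have h1 : x = fun i => ∑ l, x i l • (Pi.single l (1 : R) : Fin n → R) :=
    funext fun i => expand_single (x i)
  have h2 : T x = T (fun i => ∑ l, x i l • (Pi.single l (1 : R) : Fin n → R)) := by
    rw [← h1]
  rw [h2, T.map_sum]
  refine Finset.sum_congr rfl fun j _ => ?_
  exact T.map_smul_univ (fun i => x i (j i)) (fun i => Pi.single (j i) (1 : R))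

/-- the extended multilinear map -/
noncomputable def extMM (K : Type) [Field K] [Algebra F K]
    (T : (ι → Fin n → F) → Matrix b a F) : MultilinearMap K (fun _ : ι => Fin n → K)
      (Matrix b a K) :=
  ∑ j : ι → Fin n, ((MultilinearMap.mkPiAlgebra K ι K).compLinearMap
    (fun i => LinearMap.proj (j i))).smulRight
      ((T (fun i => Pi.single (j i) (1 : F))).map (algebraMap F K))

theorem extMM_apply (T : (ι → Fin n → F) → Matrix b a F) (y : ι → Fin n → K) :
    extMM K T y = ∑ j : ι → Fin n, (∏ i, y i (j i)) •
      (T (fun i => Pi.single (j i) (1 : F))).map (algebraMap F K) := by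
  unfold extMM
  rw [_root_.sum_apply]
  refine Finset.sum_congr rfl fun j _ => ?_
  simp [MultilinearMap.smulRight_apply]

theorem extMM_base (T : (ι → Fin n → F) → Matrix b a F) (hT : IsML F Finset.univ T)
    (x : ι → Fin n → F) :
    extMM K T (fun i j => algebraMap F K (x i j)) = (T x).map (algebraMap F K) := by
  have h1 : T x = ∑ j : ι → Fin n, (∏ i, x i (j i)) • T (fun i => Pi.single (j i) (1 : F)) :=
    expand_MM (toMM T hT) x
  rw [extMM_apply, h1]
  ext p q
  rw [Matrix.map_apply, Matrix.sum_apply, Matrix.sum_apply, map_sum]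
  refine Finset.sum_congr rfl fun j _ => ?_
  rw [Matrix.smul_apply, Matrix.smul_apply, smul_eq_mul, smul_eq_mul, Matrix.map_apply, map_mul,
    map_prod]

end ExtAux

open ExtAux

theorem exists_ext (m : ℕ) (e : Module.Basis (Fin m) F K)
    (T : (ι → Fin n → F) → Matrix b a F) (hT : IsML F Finset.univ T) :
    ∃ T' : (ι → Fin n → K) → Matrix b a K, IsML K Finset.univ T' ∧
      (∀ x, T' (fun i j => algebraMap F K (x i j)) = (T x).map (algebraMap F K)) ∧
      (∀ R : ℕ, (∀ x, (T x).rank ≤ R) → ∀ y, (T' y).rank ≤ m ^ Fintype.card ι * R) := by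
  refine ⟨fun y => extMM K T y, isML_of_MM _, extMM_base T hT, ?_⟩
  intro R hR y
  let z : Fin m → ι → Fin n → F := fun l i k => e.repr (y i k) l
  have hy : y = fun i => ∑ l : Fin m, e l • (fun k => algebraMap F K (z l i k)) := by
    funext i k
    rw [Finset.sum_apply]
    simp only [Pi.smul_apply, smul_eq_mul]
    have h := e.sum_repr (y i k)
    refine h.symm.trans (Finset.sum_congr rfl fun l _ => ?_)
    rw [Algebra.smul_def, mul_comm]
  have hexp : extMM K T y = ∑ l : ι → Fin m, (∏ i, e (l i)) •
      (T (fun i => z (l i) i)).map (algebraMap F K) := by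
    have h2 : extMM K T y =
        extMM K T (fun i => ∑ l : Fin m, e l • (fun k => algebraMap F K (z l i k))) := by
      rw [← hy]
    rw [h2, MultilinearMap.map_sum]
    refine Finset.sum_congr rfl fun l _ => ?_
    refine ((extMM K T).map_smul_univ (fun i => e (l i))
      (fun i k => algebraMap F K (z (l i) i k))).trans ?_
    rw [← extMM_base T hT (fun i => z (l i) i)]
  show (extMM K T y).rank ≤ _
  rw [hexp]
  refine (rank_sum_le' _ _).trans ?_
  have h3 : ∀ l ∈ (Finset.univ : Finset (ι → Fin m)), ((∏ i, e (l i)) •
      (T (fun i => z (l i) i)).map (algebraMap F K)).rank ≤ R := fun l _ =>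
    (rank_smul_le _ _).trans ((rank_map_le _).trans (hR _))
  refine (Finset.sum_le_card_nsmul _ _ _ h3).trans ?_
  rw [Finset.card_univ, Fintype.card_fun, Fintype.card_fin, smul_eq_mul]

end Pool.Agent.Helper83.AH
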