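import Pool.Agent.Helper83.AH.RepMain
import Pool.Agent.Helper83.AH.Basic

/-!
AH-20. `rep_main` for matrices and `g = 1`: if `f (x+y) = f x + f y + u x * v y` with `u`, `v`
additive through a middle space of dimension `m`, then `f` is within rank `m` of a homomorphism.
(`P = a → K`, `Q = b → K`, `M = Fin m → K`, `Matrix.toLin'`, `finrank_range_toLin'`.)
-/

set_option autoImplicit false

namespace Pool.Agent.Helper83.AH

theorem additive_corner {K : Type} [Field K] {V a b : Type} [AddCommGroup V]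
    [Fintype a] [Fintype b] [DecidableEq a] [DecidableEq b] (m : ℕ) (f : V → Matrix b a K)
    (u : V →+ Matrix b (Fin m) K) (v : V →+ Matrix (Fin m) a K)
    (h : ∀ x y, f (x + y) = f x + f y + u x * v y) :
    ∃ ℓ : V →+ Matrix b a K, ∀ x, (f x - ℓ x).rank ≤ m := by
  have hrep : CornerRep K (P := a → K) (M := Fin m → K) (Q := b → K)
      (fun x => Matrix.toLin' (f x)) (fun x => Matrix.toLin' (u x))
      (fun x => Matrix.toLin' (v x)) (fun _ => LinearMap.id) := by
    refine ⟨fun x y => ?_, fun x y => ?_, fun x y => ?_, fun x y => ?_⟩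
    · rw [h, map_add, map_add, Matrix.toLin'_mul]
    · rw [map_add, map_add, LinearMap.id_comp]
    · rw [map_add, map_add, LinearMap.comp_id, add_comm]
    · rw [LinearMap.id_comp]
  obtain ⟨ℓ, hℓ⟩ := rep_main (K := K) m (a → K) (Fin m → K) (b → K) _ _ _ _ hrep
    (Module.finrank_fin_fun K)
  refine ⟨(LinearMap.toMatrix' : ((a → K) →ₗ[K] (b → K)) ≃ₗ[K] Matrix b a K).toLinearMap.toAddMonoidHom.comp ℓ,
    fun x => ?_⟩
  rw [← finrank_range_toLin', map_sub]
  have h1 : Matrix.toLin' (((LinearMap.toMatrix' : ((a → K) →ₗ[K] (b → K)) ≃ₗ[K]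
      Matrix b a K).toLinearMap.toAddMonoidHom.comp ℓ) x) = ℓ x :=
    Matrix.toLin'_toMatrix' (ℓ x)
  rw [h1]
  exact hℓ x

end Pool.Agent.Helper83.AH
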