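import Pool.Agent.Helper83.AH.DetDvd

/-!
AH-3. Semicontinuity of the rank with multiplicities.
Proof: let `g = rank N(0)`. If `g ≤ ρ` trivial. Choose an invertible `g × g` submatrix of `N(0)`:
injections `r : Fin g → b`, `c : Fin g → a` with `det ((N(0)).submatrix r c) ≠ 0` (the rank of a
matrix over a field is the size of the largest nonzero minor; search Mathlib / Pool for it,
otherwise: choose `g` linearly independent columns, then `g` linearly independent rows of the
resulting `b × Fin g` matrix, using that row rank = column rank). Let `D = N.submatrix r c`, a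
`g × g` polynomial matrix with `det D ≠ 0` (its value at 0 is nonzero) and
`natDegree (det D) ≤ k * g` (each term of the determinant is a product of `g` entries of
degree `≤ k`). For `s ∈ S`, `rank D(s) ≤ rank N(s) ≤ ρ`, so `(X - s)^(g-ρ) ∣ det D` by `dvd_det`; the
factors for different `s` are pairwise coprime, so `∏_{s∈S} (X - s)^(g-ρ) ∣ det D` and comparing
degrees, `S.card * (g - ρ) ≤ k * g`.
-/

set_option autoImplicit false

namespace Pool.Agent.Helper83.AH

open Finset

variable {K : Type} [Field K] {a b : Type} [Fintype a] [Fintype b] [DecidableEq a] [DecidableEq b]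

omit [DecidableEq a] [DecidableEq b] in
theorem exists_cols_PR {a b : Type} [Fintype a] [Fintype b] (N : Matrix b a K) (g : ℕ)
    (hg : N.rank = g) : ∃ c : Fin g → a, LinearIndependent K (fun i => N.col (c i)) := by
  rw [Matrix.rank_eq_finrank_span_cols] at hg
  subst hg
  obtain ⟨f, h1, _, h3⟩ := Submodule.exists_fun_fin_finrank_span_eq K (Set.range N.col)
  choose c hc using h1
  refine ⟨c, ?_⟩
  have : (fun i => N.col (c i)) = f := by
    funext i
    exact hc i
  rw [this]
  exact h3

theorem exists_minor (N : Matrix b a K) :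
    ∃ (r : Fin N.rank → b) (c : Fin N.rank → a), (N.submatrix r c).det ≠ 0 := by
  obtain ⟨c, hc⟩ := exists_cols_PR N N.rank rfl
  have hrank : (N.submatrix id c).rank = N.rank := by
    have h1 : LinearIndependent K (N.submatrix id c).transpose.row := hc
    have := h1.rank_matrix
    rw [Matrix.rank_transpose] at this
    simpa using this
  have hrank' : (N.submatrix id c).transpose.rank = N.rank := by
    rw [Matrix.rank_transpose, hrank]
  obtain ⟨r, hr⟩ := exists_cols_PR (N.submatrix id c).transpose N.rank hrank'
  refine ⟨r, c, ?_⟩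
  have h2 : LinearIndependent K (N.submatrix r c).row := hr
  rw [Matrix.linearIndependent_rows_iff_isUnit, Matrix.isUnit_iff_isUnit_det] at h2
  exact h2.ne_zero

theorem natDegree_det_PR {g : ℕ} (D : Matrix (Fin g) (Fin g) (Polynomial K)) (k : ℕ)
    (hdeg : ∀ i j, (D i j).natDegree ≤ k) : D.det.natDegree ≤ k * g := by
  rw [Matrix.det_apply]
  apply Polynomial.natDegree_sum_le_of_forall_le
  intro σ _
  refine (Polynomial.natDegree_smul_le _ _).trans ?_
  refine (Polynomial.natDegree_prod_le _ _).trans ?_
  refine (Finset.sum_le_card_nsmul _ _ k fun i _ => hdeg _ _).trans ?_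
  simp [mul_comm]

theorem rank_eval_zero_le
    (N : Matrix b a (Polynomial K)) (k ρ : ℕ) (hdeg : ∀ i j, (N i j).natDegree ≤ k)
    (S : Finset K) (hS : ∀ s ∈ S, (N.map (Polynomial.eval s)).rank ≤ ρ) :
    S.card * (N.map (Polynomial.eval 0)).rank ≤
      S.card * ρ + k * (N.map (Polynomial.eval 0)).rank := by
  classical
  rcases Nat.le_total (N.map (Polynomial.eval 0)).rank ρ with h | h
  · exact (Nat.mul_le_mul_left _ h).trans (Nat.le_add_right _ _)
  obtain ⟨r, c, hrc⟩ := exists_minor (N.map (Polynomial.eval 0))
  generalize hg : (N.map (Polynomial.eval 0)).rank = g at *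
  have hD0 : (N.submatrix r c).det ≠ 0 := by
    intro h0
    apply hrc
    have h1 : ((N.submatrix r c).map (Polynomial.evalRingHom 0)).det =
        Polynomial.evalRingHom 0 (N.submatrix r c).det := by
      rw [RingHom.map_det]
      rfl
    rw [h0, map_zero] at h1
    exact h1
  have hdegD : (N.submatrix r c).det.natDegree ≤ k * g :=
    natDegree_det_PR _ k fun i j => hdeg _ _
  have hdvd : ∀ s ∈ S, (Polynomial.X - Polynomial.C s) ^ (g - ρ) ∣ (N.submatrix r c).det := by
    intro s hs
    have h1 : ((N.submatrix r c).map (Polynomial.eval s)).rank ≤ ρ := by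
      refine le_trans ?_ (hS s hs)
      exact Matrix.rank_submatrix_le (N.map (Polynomial.eval s)) r c
    have := dvd_det (N.submatrix r c) s ρ h1
    simpa using this
  have hprod : (∏ s ∈ S, (Polynomial.X - Polynomial.C s) ^ (g - ρ)) ∣ (N.submatrix r c).det := by
    apply Finset.prod_dvd_of_coprime
    · intro s _ t _ hst
      apply IsCoprime.pow
      apply Polynomial.isCoprime_X_sub_C_of_isUnit_sub
      exact (sub_ne_zero.2 hst).isUnit
    · exact hdvd
  have hdeg2 := Polynomial.natDegree_le_of_dvd hprod hD0
  have hdeg3 : (∏ s ∈ S, (Polynomial.X - Polynomial.C s) ^ (g - ρ)).natDegree =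
      S.card * (g - ρ) := by
    rw [Polynomial.natDegree_prod_of_monic]
    · simp
    · intro s _
      exact (Polynomial.monic_X_sub_C s).pow _
  rw [hdeg3] at hdeg2
  have h5 : S.card * (g - ρ) ≤ k * g := hdeg2.trans hdegD
  have h6 : S.card * g = S.card * (g - ρ) + S.card * ρ := by
    rw [← Nat.mul_add, Nat.sub_add_cancel h]
  omega

end Pool.Agent.Helper83.AH
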