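import Pool.Agent.Helper83.AH.Basic

/-!
AH-7. Lower bound for the rank of the cube matrix at 0.  `N = (cubePoly M).map (eval 0)` has the
block `(L, J)` equal to `M_{L \ J}` if `J ⊆ L` and `0` otherwise (only `U = ∅` survives).
Let `Π = 1 - M ∅ * G₁ * G₂` (so `G₂ * Π = 0` by `h1`), and `Y_J = ∑_{∅ ≠ I ⊆ J} M I * U (J \ I)`,
`S_J = ∑_{I ⊆ J} M I * U (J \ I)`.  Then `S_∅ = M ∅ * U ∅ = 0` by `h2` and for `J ≠ ∅`,
`S_J = M ∅ * U J + Y_J = Π * Y_J`; in particular `G₂ * S_J = 0` for all `J`.
(If `ι` is empty then `univ.powerset.erase ∅ = ∅`, the second rank is 0.)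
Let `s = rank (S_univ)` [= the rank in the statement if `univ ≠ ∅`]. Choose vectors
`κ_1..κ_s ∈ a → K` with `S_univ κ_i` linearly independent.  Consider the linear map
`Φ : (Finset ι → Fin ρ → K) × (Fin s → K) → (Finset ι × a → K)`,
`Φ (v, t) (J, ·) = G₁ v_J + U_J (∑ t_i κ_i)`. Claim: `N ∘ Φ` is injective.  Suppose
`N (Φ (v, t)) = 0`, let `κ = ∑ t_i κ_i`. The `L`-component of `N (Φ (v,t))` is
`∑_{J ⊆ L} M_{L \ J} G₁ v_J + S_L κ`.  Apply `G₂`: `∑_{J ⊆ L} G₂ M_{L \ J} G₁ v_J = 0` for all `L`;
by strong induction on `L` (the term `J = L` is `G₂ M_∅ G₁ v_L = v_L`) all `v_L = 0`.  Then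
`S_univ κ = 0`, so `t = 0`.  Hence `rank N ≥ 2^|ι| * ρ + s`.
-/

set_option autoImplicit false

namespace Pool.Agent.Helper83.AH

open Finset

variable {K : Type} [Field K] {ι : Type} [Fintype ι] [DecidableEq ι] {a b : Type} [Fintype a]
  [Fintype b]

theorem exists_cols_Sch (N : Matrix b a K) :
    ∃ c : Fin N.rank → a, LinearIndependent K (fun i => N.col (c i)) := by
  have h : ∀ g, N.rank = g → ∃ c : Fin g → a, LinearIndependent K (fun i => N.col (c i)) := by
    intro g hg
    rw [Matrix.rank_eq_finrank_span_cols] at hg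
    subst hg
    obtain ⟨f, h1, _, h3⟩ := Submodule.exists_fun_fin_finrank_span_eq K (Set.range N.col)
    choose c hc using h1
    refine ⟨c, ?_⟩
    have : (fun i => N.col (c i)) = f := by
      funext i
      exact hc i
    rw [this]
    exact h3
  exact h _ rfl

theorem cube0_apply (M : Finset ι → Matrix b a K) (L J : Finset ι) (i : b) (j : a) :
    ((cubePoly M).map (Polynomial.eval 0)) (L, i) (J, j) = if J ⊆ L then M (L \ J) i j else 0 := by
  simp only [cubePoly, Matrix.map_apply, Matrix.of_apply]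
  split_ifs with h
  · rw [Polynomial.eval_finset_sum]
    rw [Finset.sum_eq_single ∅]
    · simp
    · intro U _ hU
      have : U.card ≠ 0 := by
        rwa [Ne, Finset.card_eq_zero]
      simp [this]
    · simp
  · simp

theorem cube0_mulVec (M : Finset ι → Matrix b a K) (z : Finset ι × a → K) (L : Finset ι) (i : b) :
    (((cubePoly M).map (Polynomial.eval 0)).mulVec z) (L, i) =
      (∑ J ∈ L.powerset, (M (L \ J)).mulVec (fun j => z (J, j))) i := by
  rw [Matrix.mulVec, dotProduct, Fintype.sum_prod_type, Finset.sum_apply]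
  rw [← Finset.sum_subset (Finset.subset_univ L.powerset)]
  · apply Finset.sum_congr rfl
    intro J hJ
    rw [Finset.mem_powerset] at hJ
    rw [Matrix.mulVec, dotProduct]
    apply Finset.sum_congr rfl
    intro j _
    rw [cube0_apply, if_pos hJ]
  · intro J _ hJ
    rw [Finset.mem_powerset] at hJ
    apply Finset.sum_eq_zero
    intro j _
    rw [cube0_apply, if_neg hJ, zero_mul]

theorem schur_rank [DecidableEq a] [DecidableEq b]
    (M : Finset ι → Matrix b a K) (U : Finset ι → Matrix a a K) (ρ : ℕ)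
    (G₁ : Matrix a (Fin ρ) K) (G₂ : Matrix (Fin ρ) b K)
    (h1 : G₂ * M ∅ * G₁ = 1) (h2 : M ∅ * G₁ * G₂ * M ∅ = M ∅)
    (hU0 : U ∅ = 1 - G₁ * G₂ * M ∅)
    (hU : ∀ J, J ≠ ∅ → U J = -(G₁ * G₂ * ∑ I ∈ J.powerset.erase ∅, M I * U (J \ I))) :
    2 ^ Fintype.card ι * ρ +
      ((1 - M ∅ * G₁ * G₂) * ∑ I ∈ (Finset.univ : Finset ι).powerset.erase ∅,
        M I * U (Finset.univ \ I)).rank
      ≤ ((cubePoly M).map (Polynomial.eval 0)).rank := by
  set S : Matrix b a K := (1 - M ∅ * G₁ * G₂) * ∑ I ∈ (Finset.univ : Finset ι).powerset.erase ∅,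
        M I * U (Finset.univ \ I) with hS
  set N := (cubePoly M).map (Polynomial.eval 0) with hN
  -- the sums `S_L`
  have hSL : ∀ L : Finset ι, L ≠ ∅ → ∑ J ∈ L.powerset, M (L \ J) * U J =
      (1 - M ∅ * G₁ * G₂) * ∑ I ∈ L.powerset.erase ∅, M I * U (L \ I) := by
    intro L hL
    have e1 : ∑ J ∈ L.powerset, M (L \ J) * U J = ∑ I ∈ L.powerset, M I * U (L \ I) := by
      apply Finset.sum_nbij' (fun J => L \ J) (fun J => L \ J)
      · intro J _
        exact Finset.mem_powerset.2 Finset.sdiff_subset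
      · intro J _
        exact Finset.mem_powerset.2 Finset.sdiff_subset
      · intro J hJ
        exact Finset.sdiff_sdiff_eq_self (Finset.mem_powerset.1 hJ)
      · intro J hJ
        exact Finset.sdiff_sdiff_eq_self (Finset.mem_powerset.1 hJ)
      · intro J hJ
        rw [Finset.sdiff_sdiff_eq_self (Finset.mem_powerset.1 hJ)]
    rw [e1, ← Finset.add_sum_erase _ _ (Finset.empty_mem_powerset L), Finset.sdiff_empty,
      hU L hL]
    simp only [Matrix.sub_mul, Matrix.one_mul, Matrix.mul_neg, Matrix.mul_assoc]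
    abel
  have hG2S : ∀ L : Finset ι, G₂ * ∑ J ∈ L.powerset, M (L \ J) * U J = 0 := by
    intro L
    by_cases hL : L = ∅
    · subst hL
      simp only [Finset.powerset_empty, Finset.sum_singleton, Finset.sdiff_empty, hU0,
        Matrix.mul_sub, Matrix.mul_one]
      have : M ∅ * (G₁ * G₂ * M ∅) = M ∅ := by
        rw [← Matrix.mul_assoc, ← Matrix.mul_assoc, h2]
      rw [this, sub_self]
    · rw [hSL L hL, ← Matrix.mul_assoc]
      have : G₂ * (1 - M ∅ * G₁ * G₂) = 0 := by
        rw [Matrix.mul_sub, Matrix.mul_one, ← Matrix.mul_assoc, ← Matrix.mul_assoc, h1,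
          Matrix.one_mul, sub_self]
      rw [this, Matrix.zero_mul]
  obtain ⟨c, hc⟩ := exists_cols_Sch S
  -- the selection matrix
  let Q : Matrix a (Fin S.rank) K := (1 : Matrix a a K).submatrix id c
  have hQ : S * Q = S.submatrix id c := by
    ext i j
    simp [Q, Matrix.mul_apply, Matrix.one_apply]
  have hQinj : ∀ t : Fin S.rank → K, S.mulVec (Q.mulVec t) = 0 → t = 0 := by
    intro t ht
    rw [Matrix.mulVec_mulVec, hQ] at ht
    have h3 : LinearIndependent K (S.submatrix id c).col := hc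
    rw [← Matrix.mulVec_injective_iff] at h3
    apply h3
    rw [ht, Matrix.mulVec_zero]
  let Φ : ((Finset ι → Fin ρ → K) × (Fin S.rank → K)) →ₗ[K] (Finset ι × a → K) :=
    LinearMap.pi fun p => (LinearMap.proj p.2) ∘ₗ
      (G₁.mulVecLin ∘ₗ (LinearMap.proj p.1) ∘ₗ LinearMap.fst K _ _ +
        (U p.1).mulVecLin ∘ₗ Q.mulVecLin ∘ₗ LinearMap.snd K _ _)
  have hΦ : ∀ v t J, (fun j => Φ (v, t) (J, j)) = G₁.mulVec (v J) + (U J).mulVec (Q.mulVec t) := by
    intro v t J
    funext j
    simp [Φ]
  have hcomp : ∀ v t L, (∑ J ∈ L.powerset, (M (L \ J)).mulVec (fun j => Φ (v, t) (J, j))) =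
      ∑ J ∈ L.powerset, (M (L \ J) * G₁).mulVec (v J) +
        (∑ J ∈ L.powerset, M (L \ J) * U J).mulVec (Q.mulVec t) := by
    intro v t L
    rw [Matrix.sum_mulVec, ← Finset.sum_add_distrib]
    apply Finset.sum_congr rfl
    intro J _
    rw [hΦ, Matrix.mulVec_add, Matrix.mulVec_mulVec, Matrix.mulVec_mulVec]
  have hinj : Function.Injective (N.mulVecLin ∘ₗ Φ) := by
    rw [← LinearMap.ker_eq_bot, LinearMap.ker_eq_bot']
    rintro ⟨v, t⟩ hvt
    have hz : ∀ L : Finset ι, ∑ J ∈ L.powerset, (M (L \ J) * G₁).mulVec (v J) +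
        (∑ J ∈ L.powerset, M (L \ J) * U J).mulVec (Q.mulVec t) = 0 := by
      intro L
      rw [← hcomp]
      funext i
      have h4 := congrFun hvt (L, i)
      rw [LinearMap.comp_apply, Matrix.mulVecLin_apply, hN, cube0_mulVec] at h4
      exact h4
    have hv : ∀ n, ∀ L : Finset ι, L.card = n → v L = 0 := by
      intro n
      induction n using Nat.strong_induction_on with
      | _ n ih =>
        intro L hL
        have h5 := congrArg G₂.mulVec (hz L)
        rw [Matrix.mulVec_add, Matrix.mulVec_zero, Matrix.mulVec_mulVec, hG2S L,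
          Matrix.zero_mulVec, add_zero] at h5
        rw [Finset.sum_eq_single L] at h5
        · rw [Finset.sdiff_self, Matrix.mulVec_mulVec, ← Matrix.mul_assoc, h1,
            Matrix.one_mulVec] at h5
          exact h5
        · intro J hJ hJL
          rw [Finset.mem_powerset] at hJ
          have h6 : v J = 0 := ih J.card (hL ▸ Finset.card_lt_card
            (Finset.ssubset_iff_subset_ne.2 ⟨hJ, hJL⟩)) J rfl
          rw [h6, Matrix.mulVec_zero]
        · intro h7
          exact absurd (Finset.mem_powerset_self L) h7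
    have hv0 : v = 0 := by
      funext L
      exact hv _ L rfl
    have hSt : S.mulVec (Q.mulVec t) = 0 := by
      by_cases hu : (Finset.univ : Finset ι) = ∅
      · have h0 : S = 0 := by
          rw [hS, hu]
          simp
        exact (congrArg (fun B : Matrix b a K => B.mulVec (Q.mulVec t)) h0).trans
          (Matrix.zero_mulVec _)
      · have h8 := hz Finset.univ
        rw [hSL _ hu, ← hS, hv0] at h8
        simpa using h8
    rw [hv0, hQinj t hSt]
    rfl
  have hfr := LinearMap.finrank_range_of_inj hinj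
  have hdim : Module.finrank K ((Finset ι → Fin ρ → K) × (Fin S.rank → K)) =
      2 ^ Fintype.card ι * ρ + S.rank := by
    simp [Module.finrank_pi_fintype]
  rw [hdim] at hfr
  rw [← hfr]
  change _ ≤ Module.finrank K (LinearMap.range N.mulVecLin)
  apply Submodule.finrank_mono
  rw [LinearMap.range_comp]
  exact LinearMap.map_le_range

end Pool.Agent.Helper83.AH
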