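import Pool.Agent.Helper83.AH.UExist
import Pool.Agent.Helper83.AH.Expand
import Pool.Agent.Helper83.AH.Cube
import Pool.Agent.Helper83.AH.Schur
import Pool.Agent.Helper83.AH.PolyRank

/-!
AH-9. The step.  Notation `k = card ι`, `M_I = T (mix c x I)` (so `M_∅ = T c`, `M_univ = T x`),
`R = rank (T c)`.

`rank_schur_le`: let `N = cubePoly M`, entries of degree `≤ k`. For `s ∈ S` (so `s ≠ 0`),
`cube_rank_le` and `expand_ml` (for each `E`, `∑_{I ⊆ E} s^|I| • M_I = T (c + s x on E, c off E)`) give
`rank N(s) ≤ ∑_E rank (T ...) ≤ 2^k * R =: ρ'`.  `rank_eval_zero_le` with `g = rank N(0)`: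
`|S| * g ≤ |S| * ρ' + k * g`.  `schur_rank`: `2^k * R + t ≤ g`, `t` the rank in the statement.
So `(|S| - k) * (2^k R + t) ≤ (|S| - k) g ≤ |S| 2^k R`, `(|S| - k) t ≤ k 2^k R`, and
`|S| - k ≥ 2^(k+1) k`, `k > 0` give `2 t ≤ R`.

`step`: `G₁, G₂` from `exists_pinv (T c)`, `M I x = T (mix c x I)` multilinear in `I`
(`IsML.mixed`), `U, U'` from `exists_U` with `M0 = T c`.  Let `Π = 1 - T c * G₁ * G₂` and
`T₁ x = Π * ∑_{∅ ≠ I ⊆ univ} M I x * U (univ \ I) x`; it is multilinear in `univ`, its rank bound is
`rank_schur_le`.  Finally `T x - T₁ x` is: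
`I = univ` term of `T₁`: `Π * T x * U ∅ x = Π * T x * (1 - G₁ * G₂ * T c)`.  So
`T x - T₁ x = (T c * G₁) * (G₂ * T x) + (Π * T x * G₁) * (G₂ * T c)
   - ∑_{∅ ≠ I ≠ univ} (Π * M I x * G₁) * U' (univ \ I) x`
which has the form required by `HasCost` with `μ = R`: `A ∅ = T c * G₁` (constant),
`B ∅ x = G₂ * T x`, `A univ x = Π * T x * G₁`, `B univ = G₂ * T c`, and for the others
`A I x = -(Π * M I x * G₁)`, `B I x = U' (univ \ I) x`.  (`∅ ≠ univ` since `0 < card ι`.)
-/

set_option autoImplicit false

namespace Pool.Agent.Helper83.AH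

open Finset

variable {K : Type} [Field K] {ι V : Type} [Fintype ι] [DecidableEq ι] [AddCommGroup V]
    [Module K V] {a b : Type} [Fintype a] [Fintype b] [DecidableEq a] [DecidableEq b]

theorem rank_schur_le (hι : 0 < Fintype.card ι) (S : Finset K) (hS0 : (0 : K) ∉ S)
    (hS : thr (Fintype.card ι) ≤ S.card)
    (T : (ι → V) → Matrix b a K) (hT : IsML K Finset.univ T) (c : ι → V)
    (hc : ∀ x, (T x).rank ≤ (T c).rank) (x : ι → V)
    (G₁ : Matrix a (Fin (T c).rank) K) (G₂ : Matrix (Fin (T c).rank) b K)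
    (h1 : G₂ * T c * G₁ = 1) (h2 : T c * G₁ * G₂ * T c = T c)
    (U : Finset ι → Matrix a a K)
    (hU0 : U ∅ = 1 - G₁ * G₂ * T c)
    (hU : ∀ J, J ≠ ∅ →
      U J = -(G₁ * G₂ * ∑ I ∈ J.powerset.erase ∅, T (mix c x I) * U (J \ I))) :
    2 * ((1 - T c * G₁ * G₂) * ∑ I ∈ (Finset.univ : Finset ι).powerset.erase ∅,
        T (mix c x I) * U (Finset.univ \ I)).rank ≤ (T c).rank := by
  have hM0 : mix c x ∅ = c := by
    funext i
    simp [mix]
  have hs : ∀ s ∈ S, ((cubePoly (fun I => T (mix c x I))).map (Polynomial.eval s)).rank ≤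
      2 ^ Fintype.card ι * (T c).rank := by
    intro s hs
    have hs0 : s ≠ 0 := by
      rintro rfl
      exact hS0 hs
    refine (cube_rank_le (fun I => T (mix c x I)) s hs0).trans ?_
    have h : ∀ E ∈ (Finset.univ : Finset (Finset ι)),
        (∑ I ∈ E.powerset, s ^ I.card • T (mix c x I)).rank ≤ (T c).rank := by
      intro E _
      rw [← expand_ml hT c x s E]
      exact hc _
    refine (Finset.sum_le_card_nsmul _ _ _ h).trans ?_
    rw [Finset.card_univ, Fintype.card_finset, smul_eq_mul]
  have hg := rank_eval_zero_le (cubePoly (fun I => T (mix c x I))) (Fintype.card ι)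
    (2 ^ Fintype.card ι * (T c).rank) (cubePoly_natDegree _) S hs
  have hsch := schur_rank (fun I => T (mix c x I)) U (T c).rank G₁ G₂
    (by simp only [hM0]; exact h1) (by simp only [hM0]; exact h2)
    (by simp only [hM0]; exact hU0) hU
  simp only [hM0] at hsch
  generalize ((cubePoly (fun I => T (mix c x I))).map (Polynomial.eval 0)).rank = g at hg hsch
  generalize ((1 - T c * G₁ * G₂) * ∑ I ∈ (Finset.univ : Finset ι).powerset.erase ∅,
        T (mix c x I) * U (Finset.univ \ I)).rank = t at hsch ⊢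
  generalize (T c).rank = R at hg hsch ⊢
  generalize Fintype.card ι = k at hι hg hsch hS
  unfold thr at hS
  obtain ⟨A, hA⟩ := Nat.exists_eq_add_of_le hS
  rw [hA] at hg
  rw [pow_succ] at hg
  have hP : 0 < 2 ^ k := by positivity
  generalize 2 ^ k = P at hg hsch hP
  have e1 : (P * 2 * k + A) * g ≤ (k + P * 2 * k + A) * (P * R) := by nlinarith
  have e2 : (P * 2 * k + A) * (P * R + t) ≤ (k + P * 2 * k + A) * (P * R) :=
    (Nat.mul_le_mul_left _ hsch).trans e1
  have e3 : (P * 2 * k) * t ≤ k * (P * R) := by nlinarith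
  have e4 : (P * k) * (2 * t) ≤ (P * k) * R := by nlinarith
  exact Nat.le_of_mul_le_mul_left e4 (Nat.mul_pos hP hι)

theorem step (hι : 0 < Fintype.card ι) (S : Finset K) (hS0 : (0 : K) ∉ S)
    (hS : thr (Fintype.card ι) ≤ S.card)
    (T : (ι → V) → Matrix b a K) (hT : IsML K Finset.univ T) (c : ι → V)
    (hc : ∀ x, (T x).rank ≤ (T c).rank) :
    ∃ T₁ : (ι → V) → Matrix b a K, IsML K Finset.univ T₁ ∧
      (∀ x, 2 * (T₁ x).rank ≤ (T c).rank) ∧
      HasCost K (fun x => T x - T₁ x) (T c).rank := by
  obtain ⟨G₁, G₂, h1, h2⟩ := exists_pinv (T c)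
  obtain ⟨U, U', hU, hU', hUU', hU0, hUJ⟩ := exists_U (fun I x => T (mix c x I))
    (fun I => hT.mixed c (Finset.subset_univ I)) (T c) (T c).rank G₁ G₂
  have hne : (Finset.univ : Finset ι) ≠ ∅ := by
    intro h
    have := congrArg Finset.card h
    rw [Finset.card_univ, Finset.card_empty] at this
    omega
  refine ⟨fun x => (1 - T c * G₁ * G₂) * ∑ I ∈ (Finset.univ : Finset ι).powerset.erase ∅,
    T (mix c x I) * U (Finset.univ \ I) x, ?_, ?_, ?_⟩
  · refine IsML.const_mul (IsML.sum _ fun I _ => ?_) _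
    have h := IsML.mul (hT.mixed c (Finset.subset_univ I)) (hU (Finset.univ \ I))
      Finset.disjoint_sdiff
    rw [Finset.union_sdiff_of_subset (Finset.subset_univ I)] at h
    exact h
  · intro x
    exact rank_schur_le hι S hS0 hS T hT c hc x G₁ G₂ h1 h2 (fun J => U J x) (hU0 x)
      (fun J hJ => hUJ J hJ x)
  · refine ⟨fun I x => if I = ∅ then T c * G₁ else if I = Finset.univ then
        (1 - T c * G₁ * G₂) * T x * G₁ else -((1 - T c * G₁ * G₂) * T (mix c x I) * G₁),
      fun I x => if I = ∅ then G₂ * T x else if I = Finset.univ then G₂ * T c else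
        U' (Finset.univ \ I) x, ?_, ?_, ?_⟩
    · intro I
      by_cases hI : I = ∅
      · simp only [if_pos hI]
        rw [hI]
        exact IsML.const _
      · simp only [if_neg hI]
        by_cases hI2 : I = Finset.univ
        · simp only [if_pos hI2]
          rw [hI2]
          exact (hT.const_mul _).mul_const _
        · simp only [if_neg hI2]
          exact (((hT.mixed c (Finset.subset_univ I)).const_mul _).mul_const _).neg
    · intro I
      by_cases hI : I = ∅
      · simp only [if_pos hI]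
        rw [hI, Finset.compl_empty]
        exact hT.const_mul _
      · simp only [if_neg hI]
        by_cases hI2 : I = Finset.univ
        · simp only [if_pos hI2]
          rw [hI2, Finset.compl_univ]
          exact IsML.const _
        · simp only [if_neg hI2]
          rw [Finset.compl_eq_univ_sdiff]
          exact hU' _
    · intro x
      have hMu : mix c x Finset.univ = x := by
        funext i
        simp [mix]
      have hmem : (Finset.univ : Finset ι) ∈ (Finset.univ : Finset (Finset ι)).erase ∅ :=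
        Finset.mem_erase.mpr ⟨hne, Finset.mem_univ _⟩
      rw [← Finset.add_sum_erase Finset.univ _ (Finset.mem_univ (∅ : Finset ι)),
        ← Finset.add_sum_erase _ _ hmem]
      beta_reduce
      rw [Finset.powerset_univ, ← Finset.add_sum_erase _ (fun I => T (mix c x I) * U (Finset.univ \ I) x) hmem]
      simp only [if_pos, if_neg hne, Finset.sdiff_self]
      rw [hMu, hU0 x, Matrix.mul_add, Matrix.mul_sum]
      have hrest : ∀ I ∈ ((Finset.univ : Finset (Finset ι)).erase ∅).erase Finset.univ,
          ((if I = ∅ then T c * G₁ else if I = Finset.univ then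
            (1 - T c * G₁ * G₂) * T x * G₁ else -((1 - T c * G₁ * G₂) * T (mix c x I) * G₁)) *
          (if I = ∅ then G₂ * T x else if I = Finset.univ then G₂ * T c else
            U' (Finset.univ \ I) x) : Matrix b a K) =
          -((1 - T c * G₁ * G₂) * (T (mix c x I) * U (Finset.univ \ I) x)) := by
        intro I hI
        rw [Finset.mem_erase, Finset.mem_erase] at hI
        rw [if_neg hI.2.1, if_neg hI.1, if_neg hI.2.1, if_neg hI.1]
        have hne2 : Finset.univ \ I ≠ ∅ := by
          intro h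
          exact hI.1 (Finset.univ_subset_iff.mp (Finset.sdiff_eq_empty_iff_subset.mp h))
        rw [hUU' _ hne2 x]
        simp only [Matrix.mul_assoc, Matrix.neg_mul]
      rw [Finset.sum_congr rfl hrest, Finset.sum_neg_distrib]
      simp only [Matrix.mul_sub, Matrix.sub_mul, Matrix.one_mul, Matrix.mul_one, Matrix.mul_assoc]
      abel

end Pool.Agent.Helper83.AH
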