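import Pool.Agent.Helper83.AH.Cost
import Pool.Agent.Helper83.AH.Step

/-!
AH-11. Iteration.  Strong induction on `R`.  If `ι` is empty use `HasCost.of_isEmpty` and `mono`.
Otherwise choose `c` with `rank (T c)` maximal (the values are bounded by `R`), `ρ = rank (T c) ≤ R`.
If `ρ = 0` then `T = 0`.  Otherwise `step` gives `T₁` with `rank ≤ ρ / 2 < ρ ≤ R`, so by induction
`HasCost K T₁ (2 * (ρ / 2))`, and `HasCost K (T - T₁) ρ`; total `≤ 2 ρ ≤ 2 R`.
-/

set_option autoImplicit false

namespace Pool.Agent.Helper83.AH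

open Finset

variable {K : Type} [Field K] {ι V : Type} [Fintype ι] [DecidableEq ι] [AddCommGroup V]
    [Module K V] {a b : Type} [Fintype a] [Fintype b] [DecidableEq a] [DecidableEq b]

theorem hasCost_of_big (S : Finset K) (hS0 : (0 : K) ∉ S)
    (hS : thr (Fintype.card ι) ≤ S.card)
    (T : (ι → V) → Matrix b a K) (hT : IsML K Finset.univ T) (R : ℕ)
    (hR : ∀ x, (T x).rank ≤ R) : HasCost K T (2 * R) := by
  rcases isEmpty_or_nonempty ι with hι | hι
  · exact (HasCost.of_isEmpty R hR).mono (by omega)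
  have hk : 0 < Fintype.card ι := Fintype.card_pos
  induction R using Nat.strong_induction_on generalizing T with
  | _ R ih =>
    obtain ⟨c, hc⟩ : ∃ c, ∀ x, (T x).rank ≤ (T c).rank := by
      have hbdd : BddAbove (Set.range fun x => (T x).rank) :=
        ⟨R, by rintro _ ⟨x, rfl⟩; exact hR x⟩
      have hne : (Set.range fun x => (T x).rank).Nonempty := ⟨_, ⟨0, rfl⟩⟩
      obtain ⟨c, hc⟩ := Nat.sSup_mem hne hbdd
      exact ⟨c, fun x => (le_csSup hbdd ⟨x, rfl⟩).trans hc.ge⟩
    rcases Nat.eq_zero_or_pos (T c).rank with h0 | h0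
    · refine (HasCost.of_zero fun x => ?_).mono (Nat.zero_le _)
      have h1 : (T x).rank = 0 := Nat.le_zero.mp ((hc x).trans h0.le)
      have h2 : LinearMap.range (T x).mulVecLin = ⊥ := Submodule.finrank_eq_zero.mp h1
      have h3 : (T x).mulVecLin = 0 := LinearMap.range_eq_bot.mp h2
      have h4 : (T x).mulVecLin = (0 : Matrix b a K).mulVecLin := by
        rw [h3, Matrix.mulVecLin_zero]
      have h5 : Matrix.toLin' (T x) = Matrix.toLin' (0 : Matrix b a K) := by
        rw [Matrix.toLin'_apply', Matrix.toLin'_apply', h4]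
      exact Matrix.toLin'.injective h5
    · obtain ⟨T₁, hT₁, hr, hcost⟩ := step hk S hS0 hS T hT c hc
      have hρ : (T c).rank ≤ R := hR c
      have h1 := ih ((T c).rank / 2) (by omega) T₁ hT₁ (fun x => by have := hr x; omega)
      have h2 := (hcost.add h1).mono (show _ ≤ 2 * R by omega)
      simpa using h2

end Pool.Agent.Helper83.AH
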