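import Pool.Agent.Helper83.AH.SliceDefs

/-!
AH-25. Calculus of `MultiHom`.
-/

set_option autoImplicit false

namespace Pool.Agent.Helper83.AH

open Finset

variable {F : Type} [Field F] {d n : ℕ}

theorem MultiHom.totalDegree_le {J : Finset (Fin d)} {P : MvPolynomial (Fin d × Fin n) F}
    (hP : MultiHom J P) : P.totalDegree ≤ J.card := by
  classical
  rw [MvPolynomial.totalDegree]
  refine Finset.sup_le fun m hm => ?_
  rw [Finsupp.sum_fintype _ _ (fun _ => rfl), Fintype.sum_prod_type]
  rw [Finset.sum_congr rfl fun i _ => hP m hm i]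
  simp

theorem MultiHom.mul {I J : Finset (Fin d)} {P Q : MvPolynomial (Fin d × Fin n) F}
    (hP : MultiHom I P) (hQ : MultiHom J Q) (h : Disjoint I J) : MultiHom (I ∪ J) (P * Q) := by
  classical
  intro m hm i
  obtain ⟨m₁, hm₁, m₂, hm₂, rfl⟩ := Finset.mem_add.mp (MvPolynomial.support_mul P Q hm)
  simp only [Finsupp.coe_add, Pi.add_apply, Finset.sum_add_distrib]
  rw [hP m₁ hm₁ i, hQ m₂ hm₂ i]
  by_cases hI : i ∈ I
  · have hJ : i ∉ J := Finset.disjoint_left.mp h hI
    simp [hI, hJ]
  · by_cases hJ : i ∈ J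
    · simp [hI, hJ]
    · simp [hI, hJ]

/-- equality of functions implies equality of multilinear polynomials, over every finite field
(`MvPolynomial.restrictDegree` with `Fintype.card F - 1 ≥ 1`,
`MvPolynomial.eq_zero_of_eval_eq_zero`) -/
theorem MultiHom.ext_of_eval [Fintype F] {P Q : MvPolynomial (Fin d × Fin n) F}
    (hP : MultiHom Finset.univ P) (hQ : MultiHom Finset.univ Q)
    (h : ∀ z, MvPolynomial.eval z P = MvPolynomial.eval z Q) : P = Q := by
  classical
  have hle : ∀ {P : MvPolynomial (Fin d × Fin n) F}, MultiHom Finset.univ P →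
      P ∈ MvPolynomial.restrictDegree (Fin d × Fin n) F (Fintype.card F - 1) := by
    intro P hP
    rw [MvPolynomial.mem_restrictDegree]
    intro m hm c
    have hcard : 1 ≤ Fintype.card F - 1 := by
      have := Fintype.one_lt_card (α := F)
      omega
    refine le_trans ?_ hcard
    have hs := hP m hm c.1
    rw [if_pos (Finset.mem_univ _)] at hs
    rw [← hs]
    exact Finset.single_le_sum (f := fun j => m (c.1, j)) (fun _ _ => Nat.zero_le _)
      (Finset.mem_univ c.2)
  have hsub : P - Q = 0 := by
    refine MvPolynomial.eq_zero_of_eval_eq_zero _ _ (P - Q) ?_ ?_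
    · intro z
      rw [map_sub, h z, sub_self]
    · exact Submodule.sub_mem _ (hle hP) (hle hQ)
  exact sub_eq_zero.mp hsub

end Pool.Agent.Helper83.AH
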