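import Pool.Agent.Helper83.AH.Defs

/-!
AH-4. Calculus of `IsML` (all elementary).  For products: if `i ∈ I` then `i ∉ J` and
`B (update x i v) = B x` by `hB.dep`; similarly for `i ∈ J`.  `mix`: `mix c (update x i v) I =
update (mix c x I) i v` for `i ∈ I`.
-/

set_option autoImplicit false

namespace Pool.Agent.Helper83.AH

open Finset

variable {K : Type} [Field K] {ι V : Type} [DecidableEq ι] [AddCommGroup V]
    [Module K V] {a b c : Type} [Fintype a] [Fintype b] [Fintype c]
    {W W' : Type} [AddCommGroup W] [Module K W] [AddCommGroup W'] [Module K W']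

theorem IsML.update_of_notMem {J : Finset ι} {f : (ι → V) → W} (hf : IsML K J f) {i : ι}
    (hi : i ∉ J) (x : ι → V) (v : V) : f (Function.update x i v) = f x := by
  apply hf.dep
  intro j hj
  rw [Function.update_of_ne]
  rintro rfl
  exact hi hj

theorem IsML.mul {I J : Finset ι} {A : (ι → V) → Matrix a b K} {B : (ι → V) → Matrix b c K}
    (hA : IsML K I A) (hB : IsML K J B) (h : Disjoint I J) :
    IsML K (I ∪ J) (fun x => A x * B x) where
  dep x y hxy := by
    rw [hA.dep x y fun i hi => hxy i (mem_union_left _ hi),
      hB.dep x y fun i hi => hxy i (mem_union_right _ hi)]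
  add i hi x v w := by
    rcases mem_union.1 hi with hi | hi
    · have hj : i ∉ J := Finset.disjoint_left.1 h hi
      rw [hA.add i hi, hB.update_of_notMem hj, hB.update_of_notMem hj, hB.update_of_notMem hj,
        Matrix.add_mul]
    · have hj : i ∉ I := Finset.disjoint_right.1 h hi
      rw [hB.add i hi, hA.update_of_notMem hj, hA.update_of_notMem hj, hA.update_of_notMem hj,
        Matrix.mul_add]
  smul i hi x r v := by
    rcases mem_union.1 hi with hi | hi
    · have hj : i ∉ J := Finset.disjoint_left.1 h hi
      rw [hA.smul i hi, hB.update_of_notMem hj, hB.update_of_notMem hj, Matrix.smul_mul]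
    · have hj : i ∉ I := Finset.disjoint_right.1 h hi
      rw [hB.smul i hi, hA.update_of_notMem hj, hA.update_of_notMem hj, Matrix.mul_smul]

theorem IsML.sum {J : Finset ι} {s : Type} (t : Finset s)
    {f : s → (ι → V) → W} (h : ∀ i ∈ t, IsML K J (f i)) :
    IsML K J (fun x => ∑ i ∈ t, f i x) where
  dep x y hxy := Finset.sum_congr rfl fun i hi => (h i hi).dep x y hxy
  add j hj x v w := by
    rw [← Finset.sum_add_distrib]
    exact Finset.sum_congr rfl fun i hi => (h i hi).add j hj x v w
  smul j hj x r v := by
    rw [Finset.smul_sum]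
    exact Finset.sum_congr rfl fun i hi => (h i hi).smul j hj x r v

theorem IsML.add' {J : Finset ι} {f g : (ι → V) → W} (hf : IsML K J f) (hg : IsML K J g) :
    IsML K J (fun x => f x + g x) where
  dep x y hxy := by
    rw [hf.dep x y hxy, hg.dep x y hxy]
  add j hj x v w := by
    rw [hf.add j hj, hg.add j hj]
    abel
  smul j hj x r v := by
    rw [hf.smul j hj, hg.smul j hj, smul_add]

theorem IsML.neg {J : Finset ι} {f : (ι → V) → W} (hf : IsML K J f) :
    IsML K J (fun x => - f x) where
  dep x y hxy := by
    rw [hf.dep x y hxy]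
  add j hj x v w := by
    rw [hf.add j hj, neg_add]
  smul j hj x r v := by
    rw [hf.smul j hj, smul_neg]

theorem IsML.zero (J : Finset ι) : IsML K J (fun _ : ι → V => (0 : W)) where
  dep _ _ _ := rfl
  add _ _ _ _ _ := (add_zero _).symm
  smul _ _ _ _ _ := (smul_zero _).symm

theorem IsML.const (w : W) : IsML K (∅ : Finset ι) (fun _ : ι → V => w) where
  dep _ _ _ := rfl
  add i hi := absurd hi (Finset.notMem_empty i)
  smul i hi := absurd hi (Finset.notMem_empty i)

theorem IsML.map {J : Finset ι} {f : (ι → V) → W} (hf : IsML K J f) (φ : W →ₗ[K] W') :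
    IsML K J (fun x => φ (f x)) where
  dep x y hxy := by
    rw [hf.dep x y hxy]
  add j hj x v w := by
    rw [hf.add j hj, map_add]
  smul j hj x r v := by
    rw [hf.smul j hj, map_smul]

theorem IsML.const_mul {J : Finset ι} {A : (ι → V) → Matrix b c K}
    (hA : IsML K J A) (C : Matrix a b K) : IsML K J (fun x => C * A x) where
  dep x y hxy := by
    rw [hA.dep x y hxy]
  add j hj x v w := by
    rw [hA.add j hj, Matrix.mul_add]
  smul j hj x r v := by
    rw [hA.smul j hj, Matrix.mul_smul]

theorem IsML.mul_const {J : Finset ι} {A : (ι → V) → Matrix a b K}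
    (hA : IsML K J A) (C : Matrix b c K) : IsML K J (fun x => A x * C) where
  dep x y hxy := by
    rw [hA.dep x y hxy]
  add j hj x v w := by
    rw [hA.add j hj, Matrix.add_mul]
  smul j hj x r v := by
    rw [hA.smul j hj, Matrix.smul_mul]

omit [AddCommGroup V] in
theorem mix_update (c x : ι → V) {I : Finset ι} {i : ι} (hi : i ∈ I) (v : V) :
    mix c (Function.update x i v) I = Function.update (mix c x I) i v := by
  funext j
  by_cases hj : j = i
  · subst hj
    simp [mix, hi]
  · simp [mix, Function.update_of_ne hj]

theorem IsML.mixed {J : Finset ι} {f : (ι → V) → W} (hf : IsML K J f) (c : ι → V)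
    {I : Finset ι} (hI : I ⊆ J) : IsML K I (fun x => f (mix c x I)) where
  dep x y hxy := by
    congr 1
    funext i
    simp only [mix]
    split_ifs with h
    · exact hxy i h
    · rfl
  add i hi x v w := by
    rw [mix_update c x hi, mix_update c x hi, mix_update c x hi, hf.add i (hI hi)]
  smul i hi x r v := by
    rw [mix_update c x hi, mix_update c x hi, hf.smul i (hI hi)]

end Pool.Agent.Helper83.AH
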