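import Pool.Agent.Helper83.AH.Ext
import Pool.Agent.Helper83.AH.Descent
import Pool.Agent.Helper83.AH.Iter

/-!
AH-14. The structure theorem for multilinear matrix valued maps of bounded rank.
`K` = an extension of `F` of degree `m` (`FiniteField.Extension F p m`, `finrank_extension`,
`natCard_extension`), a finite field with `|K| = |F|^m ≥ thr k + 1`; `S` = the set of all nonzero
elements of `K`, `|S| = |K| - 1 ≥ thr k`.  `e` = a basis (`Module.finBasisOfFinrankEq`).
`exists_ext` gives `T'` with rank `≤ m^k R` everywhere, `hasCost_of_big` gives
`HasCost K T' (2 * (m^k * R))`, `descent` gives `HasCost F T (m * (2 * (m^k * R)))`.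
-/

set_option autoImplicit false

namespace Pool.Agent.Helper83.AH

open Finset

variable {F : Type} [Field F] {ι : Type} [Fintype ι] [DecidableEq ι]
  {n : ℕ} {a b : Type} [Fintype a] [Fintype b] [DecidableEq a] [DecidableEq b]

theorem maxrank_structure [Finite F] (m : ℕ) (hm : 0 < m)
    (hm' : thr (Fintype.card ι) + 1 ≤ Nat.card F ^ m)
    (T : (ι → Fin n → F) → Matrix b a F) (hT : IsML F Finset.univ T) (R : ℕ)
    (hR : ∀ x, (T x).rank ≤ R) : HasCost F T (2 * m ^ (Fintype.card ι + 1) * R) := by
  obtain ⟨p, hp⟩ := CharP.exists F
  have hprime : Fact p.Prime := ⟨by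
    rcases CharP.char_is_prime_or_zero F p with h | h
    · exact h
    · exfalso
      subst h
      have := CharP.charP_to_charZero F
      exact not_finite F⟩
  have : NeZero m := ⟨hm.ne'⟩
  have hfin := FiniteField.finrank_extension F p m
  have hcard := FiniteField.natCard_extension F p m
  have : Module.Finite F (FiniteField.Extension F p m) := inferInstance
  let e : Module.Basis (Fin m) F (FiniteField.Extension F p m) :=
    Module.finBasisOfFinrankEq F (FiniteField.Extension F p m) hfin
  obtain ⟨T', hT', hext, hrk⟩ := exists_ext m e T hT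
  have : Finite (FiniteField.Extension F p m) := Module.finite_of_finite F
  classical
  have : Fintype (FiniteField.Extension F p m) := Fintype.ofFinite _
  have hS : thr (Fintype.card ι) ≤
      (Finset.univ.erase (0 : FiniteField.Extension F p m)).card := by
    rw [Finset.card_erase_of_mem (Finset.mem_univ _), Finset.card_univ]
    rw [Nat.card_eq_fintype_card] at hcard
    rw [hcard]
    omega
  have h1 := hasCost_of_big (Finset.univ.erase (0 : FiniteField.Extension F p m))
    (Finset.notMem_erase _ _) hS T' hT' (m ^ Fintype.card ι * R) (hrk R hR)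
  have h2 := descent m e T T' hext _ h1
  have h3 : m * (2 * (m ^ Fintype.card ι * R)) = 2 * m ^ (Fintype.card ι + 1) * R := by
    ring
  rw [h3] at h2
  exact h2

end Pool.Agent.Helper83.AH
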