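import Pool.Agent.Helper83.AH.SliceDefs
import Pool.Agent.Helper83.AH.ML

/-!
AH-24. `p = ∑_{j : J → Fin n} C (f (fun i => if i ∈ J then e_{j i} else 0)) * ∏_{i ∈ J} X (i, j i)`;
evaluation by multilinear expansion of `f`.
-/

set_option autoImplicit false

namespace Pool.Agent.Helper83.AH

open Finset

variable {F : Type} [Field F] {d n : ℕ}

theorem polyOf_sum {J : Finset (Fin d)} {s : Type} (t : Finset s)
    {p : s → MvPolynomial (Fin d × Fin n) F} (h : ∀ j ∈ t, MultiHom J (p j)) :
    MultiHom J (∑ j ∈ t, p j) := by
  classical
  intro m hm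
  obtain ⟨j, hj, hmj⟩ := Finset.mem_biUnion.1 (MvPolynomial.support_sum hm)
  exact h j hj m hmj

theorem polyOf_X_mul {J : Finset (Fin d)} {p : MvPolynomial (Fin d × Fin n) F}
    (hp : MultiHom J p) {i : Fin d} (hi : i ∉ J) (j : Fin n) :
    MultiHom (insert i J) (MvPolynomial.X (i, j) * p) := by
  classical
  intro m hm i'
  rw [MvPolynomial.support_X_mul, Finset.mem_map] at hm
  obtain ⟨m', hm', rfl⟩ := hm
  have h1 := hp m' hm' i'
  simp only [addLeftEmbedding_apply, Finsupp.add_apply, Finset.sum_add_distrib, h1]
  by_cases hii : i' = i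
  · subst hii
    rw [if_neg hi, if_pos (Finset.mem_insert_self _ _), add_zero]
    rw [Finset.sum_eq_single j]
    · simp
    · intro b _ hb
      rw [Finsupp.single_apply, if_neg]
      intro h
      exact hb (congrArg Prod.snd h).symm
    · simp
  · rw [Finset.sum_eq_zero, zero_add]
    · simp [Finset.mem_insert, hii]
    · intro b _
      rw [Finsupp.single_apply, if_neg]
      intro h
      exact hii (congrArg Prod.fst h).symm

theorem polyOf_aux (J : Finset (Fin d)) : ∀ (f : (Fin d → Fin n → F) → F),
    IsML F J f → ∃ p : MvPolynomial (Fin d × Fin n) F, MultiHom J p ∧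
      ∀ z : Fin d × Fin n → F, MvPolynomial.eval z p = f (fun i j => z (i, j)) := by
  classical
  induction J using Finset.induction_on with
  | empty =>
    intro f hf
    refine ⟨MvPolynomial.C (f 0), ?_, fun z => ?_⟩
    · intro m hm i
      have h0 : m = 0 := by
        by_contra hne
        rw [MvPolynomial.mem_support_iff, MvPolynomial.coeff_C, if_neg (Ne.symm hne)] at hm
        exact hm rfl
      subst h0
      simp
    · rw [MvPolynomial.eval_C]
      exact hf.dep _ _ (fun i hi => absurd hi (Finset.notMem_empty i))
  | insert i J hi ih =>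
    intro f hf
    have hfj : ∀ j : Fin n, IsML F J (fun x => f (Function.update x i (Pi.single j 1))) := by
      intro j
      refine ⟨fun x y hxy => ?_, fun i' hi' x v w => ?_, fun i' hi' x c v => ?_⟩
      · refine hf.dep _ _ fun k hk => ?_
        by_cases hki : k = i
        · subst hki
          simp
        · rw [Function.update_of_ne hki, Function.update_of_ne hki]
          exact hxy k (Finset.mem_of_mem_insert_of_ne hk hki)
      · have hne : i' ≠ i := fun h => hi (h ▸ hi')
        simp only [Function.update_comm hne]
        exact hf.add i' (Finset.mem_insert_of_mem hi') _ v w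
      · have hne : i' ≠ i := fun h => hi (h ▸ hi')
        simp only [Function.update_comm hne]
        exact hf.smul i' (Finset.mem_insert_of_mem hi') _ c v
    choose p hp hpe using fun j => ih _ (hfj j)
    refine ⟨∑ j : Fin n, MvPolynomial.X (i, j) * p j,
      polyOf_sum _ fun j _ => polyOf_X_mul (hp j) hi j, fun z => ?_⟩
    let L : (Fin n → F) →ₗ[F] F :=
      { toFun := fun v => f (Function.update (fun i j => z (i, j)) i v)
        map_add' := fun v w => hf.add i (Finset.mem_insert_self _ _) _ v w
        map_smul' := fun c v => hf.smul i (Finset.mem_insert_self _ _) _ c v }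
    have h1 : L (fun j => z (i, j)) = f (fun i j => z (i, j)) := by
      change f (Function.update (fun i j => z (i, j)) i (fun j => z (i, j))) = _
      rw [Function.update_eq_self_iff.2 rfl]
    rw [← h1, LinearMap.pi_apply_eq_sum_univ L (fun j => z (i, j)), map_sum]
    refine Finset.sum_congr rfl fun j _ => ?_
    rw [map_mul, MvPolynomial.eval_X, hpe j, smul_eq_mul]
    congr 1
    change _ = f (Function.update (fun i j => z (i, j)) i _)
    congr 2
    funext j'
    simp [Pi.single_apply, eq_comm]

/-- A multilinear function is a polynomial (`∑_{j : J → Fin n} f(e_j) ∏_{i ∈ J} X (i, j i)`). -/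
theorem exists_poly [Fintype F] (J : Finset (Fin d)) (f : (Fin d → Fin n → F) → F)
    (hf : IsML F J f) :
    ∃ p : MvPolynomial (Fin d × Fin n) F, MultiHom J p ∧
      ∀ z : Fin d × Fin n → F, MvPolynomial.eval z p = f (fun i j => z (i, j)) :=
  polyOf_aux J f hf

end Pool.Agent.Helper83.AH
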