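import Pool.Agent.Helper83.AH.QuadCost
import Pool.Agent.Helper83.AH.MaxRank

/-!
AH-22. Quadratic maps, `quad_two` and `quad_odd`.

`quad_of_cost` (any prime `p`): let `T x y = f (x+y) - f x - f y + f 0` (bilinear), and suppose the map
`z : Fin 2 → V ↦ T (z 0) (z 1)` has cost `μ`.  Write the four terms `I = ∅, {0}, {1}, univ`:
`T x y = A₀ * β x y + α x y * B₀ + A x * B y + A' y * B' x`, where `A₀`, `B₀` are constant and
`A, B, A', B'` are additive.  Choose square matrices `ΠP` (`a × a`), `ΠQ` (`b × b`) with `B₀ * ΠP = 0`,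
`rank (1 - ΠP) ≤ μ`, `ΠQ * A₀ = 0`, `rank (1 - ΠQ) ≤ μ` (from `exists_pinv`: for `M = B₀` take
`ΠP = 1 - G₁ * G₂ * B₀`, for `M = A₀` take `ΠQ = 1 - A₀ * G₁ * G₂`).
Let `w x = f x - f 0 - A x * B x` and `f' x = ΠQ * w x * ΠP`.  Then
`f' (x+y) - f' x - f' y = ΠQ * (T x y - A x * B y - A y * B x) * ΠP =
ΠQ * (A' y * B' x - A y * B x) * ΠP`, which is symmetric in `x, y` (the left side is), hence equal to
`u x * v y` with `u x = ΠQ * [A' x, - A x]` (columns `Fin μ ⊕ Fin μ`), `v y = [B' y; B y] * ΠP`, and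
`additive_corner` (with `m = 2 μ`) gives additive `ℓ` with `rank (f' x - ℓ x) ≤ 2 μ`.
Finally `f x - ℓ x = f 0 + A x * B x + (f' x - ℓ x) + (1 - ΠQ) * w x + ΠQ * w x * (1 - ΠP)`
has rank `≤ rank (f 0) + μ + 2 μ + μ + μ`.

`quad_two`: `p = 2`, `T` has rank `≤ r + rank (f 0) ≤ 2 r` (`f 0 = -(f (0+0) - f 0 - f 0)`),
`maxrank_structure` with `ι = Fin 2`, `m = 5` (`thr 2 + 1 = 19 ≤ 32`), cost
`2 * 5^3 * (2 r) = 500 r`; result `r + 5 * 500 r = 2501 r`.
(`T` is biadditive because `f` is quadratic; over `ZMod 2`, additive is linear.)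

`quad_odd`: `p ≠ 2`: `f x - f 0 - (2⁻¹ : ZMod p) • T x x` is additive and `T x x` has rank `≤ 2 r`.
-/

set_option autoImplicit false

namespace Pool.Agent.Helper83.AH

private theorem quad_T_add {p : ℕ} [Fact p.Prime] {n : ℕ} {a b : Type}
    (f : (Fin n → ZMod p) → Matrix b a (ZMod p)) (hf : IsQuadratic f) (v w y : Fin n → ZMod p) :
    f (v + w + y) - f (v + w) - f y + f 0 =
      (f (v + y) - f v - f y + f 0) + (f (w + y) - f w - f y + f 0) := by
  have h := hf v w y
  have h2 : f (v + w + y) = f (v + w) + f (v + y) + f (w + y) - f v - f w - f y + f 0 := by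
    rw [← sub_eq_zero]
    rw [← h]
    abel
  rw [h2]
  abel

private theorem quad_rank_T {p : ℕ} [Fact p.Prime] {n : ℕ} {a b : Type} [Fintype a] [Fintype b]
    (f : (Fin n → ZMod p) → Matrix b a (ZMod p))
    (r : ℕ) (hr : ∀ x y, (f (x + y) - f x - f y).rank ≤ r) :
    (f 0).rank ≤ r ∧ ∀ x y, (f (x + y) - f x - f y + f 0).rank ≤ 2 * r := by
  have h0 : (f 0).rank ≤ r := by
    have h := hr 0 0
    have e : f (0 + 0) - f 0 - f 0 = - f 0 := by
      rw [add_zero]; abel
    rw [e, rank_neg'] at h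
    exact h
  refine ⟨h0, fun x y => ?_⟩
  have h := rank_add_le' (f (x + y) - f x - f y) (f 0)
  have h1 := hr x y
  omega

private theorem quad_isML {n : ℕ} {a b : Type}
    (f : (Fin n → ZMod 2) → Matrix b a (ZMod 2)) (hf : IsQuadratic f) :
    IsML (ZMod 2) Finset.univ (fun z : Fin 2 → Fin n → ZMod 2 =>
      f (z 0 + z 1) - f (z 0) - f (z 1) + f 0) := by
  have hadd : ∀ i ∈ (Finset.univ : Finset (Fin 2)), ∀ (x : Fin 2 → Fin n → ZMod 2)
      (v w : Fin n → ZMod 2),
      (fun z : Fin 2 → Fin n → ZMod 2 => f (z 0 + z 1) - f (z 0) - f (z 1) + f 0)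
        (Function.update x i (v + w)) =
      (fun z : Fin 2 → Fin n → ZMod 2 => f (z 0 + z 1) - f (z 0) - f (z 1) + f 0)
        (Function.update x i v) +
      (fun z : Fin 2 → Fin n → ZMod 2 => f (z 0 + z 1) - f (z 0) - f (z 1) + f 0)
        (Function.update x i w) := by
    intro i _ x v w
    fin_cases i
    · simp only [Fin.zero_eta, Fin.isValue, Function.update_self, ne_eq, one_ne_zero,
        not_false_eq_true, Function.update_of_ne]
      exact quad_T_add f hf v w (x 1)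
    · have h01 : (0 : Fin 2) ≠ 1 := by decide
      simp only [Fin.mk_one, Fin.isValue, Function.update_self, ne_eq, h01,
        not_false_eq_true, Function.update_of_ne]
      have h := quad_T_add f hf v w (x 0)
      rw [add_comm (v + w) (x 0), add_comm v (x 0), add_comm w (x 0)] at h
      rw [show f (x 0 + (v + w)) - f (x 0) - f (v + w) + f 0
        = f (x 0 + (v + w)) - f (v + w) - f (x 0) + f 0 by abel, h]
      abel
  refine ⟨?_, hadd, ?_⟩
  · intro x y hxy
    have h0 := hxy 0 (Finset.mem_univ _)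
    have h1 := hxy 1 (Finset.mem_univ _)
    simp only [h0, h1]
  · intro i hi x c v
    let φ : (Fin n → ZMod 2) →+ Matrix b a (ZMod 2) := AddMonoidHom.mk'
      (fun v => (fun z : Fin 2 → Fin n → ZMod 2 => f (z 0 + z 1) - f (z 0) - f (z 1) + f 0)
        (Function.update x i v)) (fun v w => hadd i hi x v w)
    exact ZMod.map_smul φ c v

/-- AH-22 -/
theorem quad_two {n : ℕ} {a b : Type} [Fintype a] [Fintype b]
    [DecidableEq a] [DecidableEq b] (f : (Fin n → ZMod 2) → Matrix b a (ZMod 2))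
    (hf : IsQuadratic f) (r : ℕ) (hr : ∀ x y, (f (x + y) - f x - f y).rank ≤ r) :
    ∃ ℓ : (Fin n → ZMod 2) →+ Matrix b a (ZMod 2), ∀ x, (f x - ℓ x).rank ≤ 2501 * r := by
  obtain ⟨h0, hT⟩ := quad_rank_T f r hr
  have hc := maxrank_structure (F := ZMod 2) (ι := Fin 2) 5 (by norm_num)
    (by
      rw [Fintype.card_fin, Nat.card_zmod]
      norm_num [thr])
    (fun z : Fin 2 → Fin n → ZMod 2 => f (z 0 + z 1) - f (z 0) - f (z 1) + f 0)
    (quad_isML f hf) (2 * r) (fun z => hT (z 0) (z 1))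
  obtain ⟨ℓ, hℓ⟩ := quad_of_cost 2 f hf _ hc
  refine ⟨ℓ, fun x => (hℓ x).trans ?_⟩
  rw [Fintype.card_fin]
  have : 5 * (2 * 5 ^ (2 + 1) * (2 * r)) = 2500 * r := by ring
  rw [this]
  omega

private theorem quad_rank_smul {K : Type} [Field K] {a b : Type} [Fintype a] [Fintype b]
    (c : K) (A : Matrix b a K) : (c • A).rank ≤ A.rank := by
  classical
  have : c • A = (c • (1 : Matrix b b K)) * A := by
    rw [Matrix.smul_mul, Matrix.one_mul]
  rw [this]
  exact Matrix.rank_mul_le_right _ _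

theorem quad_odd (p : ℕ) [Fact p.Prime] (hp : p ≠ 2) {n : ℕ} {a b : Type} [Fintype a] [Fintype b]
    [DecidableEq a] [DecidableEq b] (f : (Fin n → ZMod p) → Matrix b a (ZMod p))
    (hf : IsQuadratic f) (r : ℕ) (hr : ∀ x y, (f (x + y) - f x - f y).rank ≤ r) :
    ∃ ℓ : (Fin n → ZMod p) →+ Matrix b a (ZMod p), ∀ x, (f x - ℓ x).rank ≤ 3 * r := by
  obtain ⟨h0, hT⟩ := quad_rank_T f r hr
  have h2 : (2 : ZMod p) ≠ 0 := by
    intro h
    have h' : ((2 : ℕ) : ZMod p) = 0 := by exact_mod_cast h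
    rw [ZMod.natCast_eq_zero_iff] at h'
    exact hp ((Nat.prime_dvd_prime_iff_eq Fact.out Nat.prime_two).1 h')
  have hadd : ∀ x y, f (x + y) - f 0 - (2⁻¹ : ZMod p) • (f (x + y + (x + y)) - f (x + y) -
      f (x + y) + f 0) =
      (f x - f 0 - (2⁻¹ : ZMod p) • (f (x + x) - f x - f x + f 0)) +
      (f y - f 0 - (2⁻¹ : ZMod p) • (f (y + y) - f y - f y + f 0)) := by
    intro x y
    have e1 := quad_T_add f hf x y (x + y)
    have e2 := quad_T_add f hf x y x
    have e3 := quad_T_add f hf x y y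
    rw [add_comm (x + y) x] at e2
    rw [add_comm (x + y) y] at e3
    have e4 : f (x + y + (x + y)) - f (x + y) - f (x + y) + f 0 =
        (f (x + x) - f x - f x + f 0) + (f (y + y) - f y - f y + f 0) +
        (2 : ZMod p) • (f (x + y) - f x - f y + f 0) := by
      rw [e1, two_smul]
      rw [show f (x + (x + y)) - f x - f (x + y) + f 0 = f (x + (x + y)) - f (x + y) - f x + f 0
        by abel, e2]
      rw [show f (y + (x + y)) - f y - f (x + y) + f 0 = f (y + (x + y)) - f (x + y) - f y + f 0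
        by abel, e3]
      rw [add_comm y x]
      abel
    rw [e4, smul_add, smul_add, smul_smul, inv_mul_cancel₀ h2, one_smul]
    abel
  refine ⟨AddMonoidHom.mk' (fun x => f x - f 0 - (2⁻¹ : ZMod p) • (f (x + x) - f x - f x + f 0))
    hadd, fun x => ?_⟩
  rw [AddMonoidHom.mk'_apply]
  rw [show f x - (f x - f 0 - (2⁻¹ : ZMod p) • (f (x + x) - f x - f x + f 0)) =
    f 0 + (2⁻¹ : ZMod p) • (f (x + x) - f x - f x + f 0) by abel]
  have h1 := rank_add_le' (f 0) ((2⁻¹ : ZMod p) • (f (x + x) - f x - f x + f 0))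
  have h3 := quad_rank_smul (2⁻¹ : ZMod p) (f (x + x) - f x - f x + f 0)
  have h4 := hT x x
  omega

end Pool.Agent.Helper83.AH
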