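import Pool.Agent.Helper83.AH.ExtLemma
import Pool.Agent.Helper83.AH.Cost

/-!
AH-21. Quadratic maps, `quad_of_cost`.

`quad_of_cost` (any prime `p`): let `T x y = f (x+y) - f x - f y + f 0` (bilinear), and suppose the map
`z : Fin 2 → V ↦ T (z 0) (z 1)` has cost `μ`.  Write the four terms `I = ∅, {0}, {1}, univ`:
`T x y = A₀ * β x y + α x y * B₀ + A x * B y + A' y * B' x`, where `A₀`, `B₀` are constant and
`A, B, A', B'` are additive.  Choose square matrices `ΠP` (`a × a`), `ΠQ` (`b × b`) with `B₀ * ΠP = 0`,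
`rank (1 - ΠP) ≤ μ`, `ΠQ * A₀ = 0`, `rank (1 - ΠQ) ≤ μ` (from `exists_pinv`: for `M = B₀` take
`ΠP = 1 - G₁ * G₂ * B₀`, for `M = A₀` take `ΠQ = 1 - A₀ * G₁ * G₂`).
Let `w x = f x - f 0 - A x * B x` and `f' x = ΠQ * w x * ΠP`.  Then
`f' (x+y) - f' x - f' y = ΠQ * (T x y - A x * B y - A y * B x) * ΠP =
ΠQ * (A' y * B' x - A y * B x) * ΠP`, which is symmetric in `x, y` (the left side is), hence equal to
`u x * v y` with `u x = ΠQ * [A' x, - A x]` (columns `Fin μ ⊕ Fin μ`), `v y = [B' y; B y] * ΠP`, and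
`additive_corner` (with `m = 2 μ`) gives additive `ℓ` with `rank (f' x - ℓ x) ≤ 2 μ`.
Finally `f x - ℓ x = f 0 + A x * B x + (f' x - ℓ x) + (1 - ΠQ) * w x + ΠQ * w x * (1 - ΠP)`
has rank `≤ rank (f 0) + μ + 2 μ + μ + μ`.

`quad_two`: `p = 2`, `T` has rank `≤ r + rank (f 0) ≤ 2 r` (`f 0 = -(f (0+0) - f 0 - f 0)`),
`maxrank_structure` with `ι = Fin 2`, `m = 5` (`thr 2 + 1 = 19 ≤ 32`), cost
`2 * 5^3 * (2 r) = 500 r`; result `r + 5 * 500 r = 2501 r`.
(`T` is biadditive because `f` is quadratic; over `ZMod 2`, additive is linear.)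

`quad_odd`: `p ≠ 2`: `f x - f 0 - (2⁻¹ : ZMod p) • T x x` is additive and `T x x` has rank `≤ 2 r`.
-/

set_option autoImplicit false

namespace Pool.Agent.Helper83.AH

open Finset

section core
variable {K : Type} [Field K] {V a b : Type} [AddCommGroup V] [Fintype a] [Fintype b]
  [DecidableEq a] [DecidableEq b]

theorem quad_kill_right {μ : ℕ} (M : Matrix (Fin μ) a K) :
    ∃ P : Matrix a a K, M * P = 0 ∧ (1 - P).rank ≤ μ := by
  obtain ⟨G₁, G₂, -, h⟩ := exists_pinv M
  refine ⟨1 - G₁ * G₂ * M, ?_, ?_⟩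
  · rw [Matrix.mul_sub, Matrix.mul_one, ← Matrix.mul_assoc, ← Matrix.mul_assoc, h, sub_self]
  · rw [sub_sub_cancel]
    exact rank_mul_le_mid (G₁ * G₂) M

theorem quad_kill_left {μ : ℕ} (M : Matrix b (Fin μ) K) :
    ∃ P : Matrix b b K, P * M = 0 ∧ (1 - P).rank ≤ μ := by
  obtain ⟨G₁, G₂, -, h⟩ := exists_pinv M
  refine ⟨1 - M * G₁ * G₂, ?_, ?_⟩
  · rw [Matrix.sub_mul, Matrix.one_mul, h, sub_self]
  · rw [sub_sub_cancel, Matrix.mul_assoc]
    exact rank_mul_le_mid M (G₁ * G₂)

/-- two columns blocks, indexed by `Fin (μ + μ)` -/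
def quadCols {μ : ℕ} (X Y : V →+ Matrix b (Fin μ) K) : V →+ Matrix b (Fin (μ + μ)) K where
  toFun x := (Matrix.fromCols (X x) (Y x)).submatrix id finSumFinEquiv.symm
  map_zero' := by
    ext i j
    rcases h : finSumFinEquiv.symm j with k | k <;> simp [Matrix.submatrix_apply, h]
  map_add' x y := by
    ext i j
    rcases h : finSumFinEquiv.symm j with k | k <;> simp [Matrix.submatrix_apply, h]

/-- two rows blocks, indexed by `Fin (μ + μ)` -/
def quadRows {μ : ℕ} (X Y : V →+ Matrix (Fin μ) a K) : V →+ Matrix (Fin (μ + μ)) a K where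
  toFun x := (Matrix.fromRows (X x) (Y x)).submatrix finSumFinEquiv.symm id
  map_zero' := by
    ext i j
    rcases h : finSumFinEquiv.symm i with k | k <;> simp [Matrix.submatrix_apply, h]
  map_add' x y := by
    ext i j
    rcases h : finSumFinEquiv.symm i with k | k <;> simp [Matrix.submatrix_apply, h]

theorem quadCols_mul_quadRows {μ : ℕ} (X Y : V →+ Matrix b (Fin μ) K)
    (Z W : V →+ Matrix (Fin μ) a K) (x y : V) :
    quadCols X Y x * quadRows Z W y = X x * Z y + Y x * W y := by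
  show (Matrix.fromCols (X x) (Y x)).submatrix id finSumFinEquiv.symm *
    (Matrix.fromRows (Z y) (W y)).submatrix finSumFinEquiv.symm id = _
  rw [Matrix.submatrix_mul_equiv, Matrix.fromCols_mul_fromRows, Matrix.submatrix_id_id]

/-- left multiplication as an additive map -/
def quadL {μ : ℕ} (P : Matrix b b K) (X : V →+ Matrix b (Fin μ) K) : V →+ Matrix b (Fin μ) K where
  toFun x := P * X x
  map_zero' := by rw [map_zero, Matrix.mul_zero]
  map_add' x y := by rw [map_add, Matrix.mul_add]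

/-- right multiplication as an additive map -/
def quadR {μ : ℕ} (P : Matrix a a K) (X : V →+ Matrix (Fin μ) a K) : V →+ Matrix (Fin μ) a K where
  toFun x := X x * P
  map_zero' := by rw [map_zero, Matrix.zero_mul]
  map_add' x y := by rw [map_add, Matrix.add_mul]

theorem quad_core (f : V → Matrix b a K) (μ : ℕ) (A₀ : Matrix b (Fin μ) K)
    (B₀ : Matrix (Fin μ) a K) (β : V → V → Matrix (Fin μ) a K) (α : V → V → Matrix b (Fin μ) K)
    (A A' : V →+ Matrix b (Fin μ) K) (B B' : V →+ Matrix (Fin μ) a K)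
    (hT : ∀ x y, f (x + y) - f x - f y + f 0 =
      A₀ * β x y + α x y * B₀ + A x * B y + A' y * B' x) :
    ∃ ℓ : V →+ Matrix b a K, ∀ x, (f x - ℓ x).rank ≤ (f 0).rank + 5 * μ := by
  obtain ⟨P, hP0, hP⟩ := quad_kill_right B₀
  obtain ⟨Q, hQ0, hQ⟩ := quad_kill_left A₀
  set w : V → Matrix b a K := fun x => f x - f 0 - A x * B x with hw
  set f' : V → Matrix b a K := fun x => Q * w x * P with hf'
  have hwadd : ∀ x y, w (x + y) = w x + w y +
      (A₀ * β x y + α x y * B₀ + (A' y * B' x - A y * B x)) := by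
    intro x y
    have h := hT x y
    simp only [hw, map_add, Matrix.add_mul, Matrix.mul_add]
    have h' : f (x + y) = f x + f y - f 0 +
        (A₀ * β x y + α x y * B₀ + A x * B y + A' y * B' x) := by
      rw [← h]; abel
    rw [h']
    abel
  have hf'add : ∀ x y, f' (x + y) = f' x + f' y + Q * (A' y * B' x - A y * B x) * P := by
    intro x y
    simp only [hf']
    rw [hwadd x y]
    simp only [Matrix.mul_add, Matrix.add_mul]
    have e1 : Q * (A₀ * β x y) * P = 0 := by
      rw [← Matrix.mul_assoc, hQ0, Matrix.zero_mul, Matrix.zero_mul]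
    have e2 : Q * (α x y * B₀) * P = 0 := by
      rw [Matrix.mul_assoc, Matrix.mul_assoc, hP0, Matrix.mul_zero, Matrix.mul_zero]
    rw [e1, e2]
    abel
  have hsymm : ∀ x y, f' (x + y) = f' x + f' y + Q * (A' x * B' y - A x * B y) * P := by
    intro x y
    have h := hf'add y x
    rw [add_comm y x] at h
    rw [h]
    abel
  have hprod : ∀ x y, quadCols (quadL Q A') (-(quadL Q A)) x * quadRows (quadR P B') (quadR P B) y =
      Q * (A' x * B' y - A x * B y) * P := by
    intro x y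
    rw [quadCols_mul_quadRows]
    show (Q * A' x) * (B' y * P) + (-(Q * A x)) * (B y * P) = _
    rw [Matrix.mul_sub, Matrix.sub_mul, Matrix.neg_mul]
    simp only [Matrix.mul_assoc]
    abel
  obtain ⟨ℓ, hℓ⟩ := additive_corner (μ + μ) f' (quadCols (quadL Q A') (-(quadL Q A)))
    (quadRows (quadR P B') (quadR P B)) (by
      intro x y
      rw [hprod x y]
      exact hsymm x y)
  refine ⟨ℓ, fun x => ?_⟩
  have hdec : f x - ℓ x = f 0 + A x * B x + (f' x - ℓ x) + (1 - Q) * w x +
      Q * w x * (1 - P) := by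
    have h1 : (1 - Q) * w x + Q * w x * (1 - P) = w x - f' x := by
      have e1 : (1 - Q) * w x = w x - Q * w x := by rw [Matrix.sub_mul, Matrix.one_mul]
      have e2 : Q * w x * (1 - P) = Q * w x - Q * w x * P := by
        rw [Matrix.mul_sub (Q * w x), Matrix.mul_one]
      rw [e1, e2]
      show _ = w x - Q * w x * P
      abel
    have h2 : w x = f x - f 0 - A x * B x := rfl
    rw [add_assoc (f 0 + A x * B x + (f' x - ℓ x)), h1, h2]
    abel
  rw [hdec]
  have r1 := rank_add_le' (f 0 + A x * B x + (f' x - ℓ x) + (1 - Q) * w x) (Q * w x * (1 - P))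
  have r2 := rank_add_le' (f 0 + A x * B x + (f' x - ℓ x)) ((1 - Q) * w x)
  have r3 := rank_add_le' (f 0 + A x * B x) (f' x - ℓ x)
  have r4 := rank_add_le' (f 0) (A x * B x)
  have r5 := rank_mul_le_mid (A x) (B x)
  have r6 := hℓ x
  have r7 := Matrix.rank_mul_le_left (1 - Q) (w x)
  have r8 := Matrix.rank_mul_le_right (Q * w x) (1 - P)
  omega

end core

/-- AH-21 -/
theorem quad_of_cost (p : ℕ) [Fact p.Prime] {n : ℕ} {a b : Type} [Fintype a] [Fintype b]
    [DecidableEq a] [DecidableEq b] (f : (Fin n → ZMod p) → Matrix b a (ZMod p))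
    (hf : IsQuadratic f) (μ : ℕ)
    (h : HasCost (ZMod p) (fun z : Fin 2 → Fin n → ZMod p =>
      f (z 0 + z 1) - f (z 0) - f (z 1) + f 0) μ) :
    ∃ ℓ : (Fin n → ZMod p) →+ Matrix b a (ZMod p), ∀ x,
      (f x - ℓ x).rank ≤ (f 0).rank + 5 * μ := by
  obtain ⟨A, B, hA, hB, hT⟩ := h
  have hpow : (Finset.univ : Finset (Finset (Fin 2))) = {∅, {0}, {1}, Finset.univ} := by decide
  -- additive maps from multilinear ones
  have key0 : ∀ {W : Type} [AddCommGroup W] [Module (ZMod p) W] (J : Finset (Fin 2))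
      (g : (Fin 2 → Fin n → ZMod p) → W), IsML (ZMod p) J g → (0 : Fin 2) ∈ J →
      ∃ φ : (Fin n → ZMod p) →+ W, ∀ x, φ x = g ![x, 0] := by
    intro W _ _ J g hg h0
    have hup : ∀ x : Fin n → ZMod p, Function.update (![0, 0] : Fin 2 → Fin n → ZMod p) 0 x =
        ![x, 0] := by
      intro x
      funext i
      fin_cases i <;> simp
    have hadd : ∀ x y, g ![x + y, 0] = g ![x, 0] + g ![y, 0] := by
      intro x y
      have := hg.add 0 h0 ![0, 0] x y
      rw [hup, hup, hup] at this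
      exact this
    exact ⟨AddMonoidHom.mk' (fun x => g ![x, 0]) hadd, fun x => rfl⟩
  have key1 : ∀ {W : Type} [AddCommGroup W] [Module (ZMod p) W] (J : Finset (Fin 2))
      (g : (Fin 2 → Fin n → ZMod p) → W), IsML (ZMod p) J g → (1 : Fin 2) ∈ J →
      ∃ φ : (Fin n → ZMod p) →+ W, ∀ x, φ x = g ![0, x] := by
    intro W _ _ J g hg h0
    have hup : ∀ x : Fin n → ZMod p, Function.update (![0, 0] : Fin 2 → Fin n → ZMod p) 1 x =
        ![0, x] := by
      intro x
      funext i
      fin_cases i <;> simp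
    have hadd : ∀ x y, g ![0, x + y] = g ![0, x] + g ![0, y] := by
      intro x y
      have := hg.add 1 h0 ![0, 0] x y
      rw [hup, hup, hup] at this
      exact this
    exact ⟨AddMonoidHom.mk' (fun x => g ![0, x]) hadd, fun x => rfl⟩
  obtain ⟨Ax, hAx⟩ := key0 {0} (A {0}) (hA {0}) (by simp)
  obtain ⟨Bx', hBx'⟩ := key0 ({1} : Finset (Fin 2))ᶜ (B {1}) (hB {1}) (by simp)
  obtain ⟨Ay', hAy'⟩ := key1 {1} (A {1}) (hA {1}) (by simp)
  obtain ⟨By, hBy⟩ := key1 ({0} : Finset (Fin 2))ᶜ (B {0}) (hB {0}) (by simp)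
  refine quad_core f μ (A ∅ 0) (B Finset.univ 0) (fun x y => B ∅ ![x, y])
    (fun x y => A Finset.univ ![x, y]) Ax Ay' By Bx' ?_
  intro x y
  have h := hT ![x, y]
  simp only [Matrix.cons_val_zero, Matrix.cons_val_one] at h
  rw [h, hpow, Finset.sum_insert (by decide), Finset.sum_insert (by decide),
    Finset.sum_insert (by decide), Finset.sum_singleton]
  have e1 : A ∅ ![x, y] = A ∅ 0 := (hA ∅).dep _ _ (by simp)
  have e2 : B Finset.univ ![x, y] = B Finset.univ 0 := (hB Finset.univ).dep _ _ (by simp)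
  have e3 : A {0} ![x, y] = Ax x := by
    rw [hAx]
    exact (hA {0}).dep _ _ (by simp)
  have e4 : B {0} ![x, y] = By y := by
    rw [hBy]
    apply (hB {0}).dep
    intro i hi
    fin_cases i
    · simp at hi
    · simp
  have e5 : A {1} ![x, y] = Ay' y := by
    rw [hAy']
    exact (hA {1}).dep _ _ (by simp)
  have e6 : B {1} ![x, y] = Bx' x := by
    rw [hBx']
    apply (hB {1}).dep
    intro i hi
    fin_cases i
    · simp
    · simp at hi
  rw [e1, e2, e3, e4, e5, e6]
  abel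

end Pool.Agent.Helper83.AH
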