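import Pool.Agent.Helper83.AH.Expand
import Pool.Agent.Helper83.AH.Basic

/-!
AH-27. If the rank of the values of a multilinear map is `≤ R` except on a set of density
`< 2^{-k}` then it is `≤ 2^k * R` everywhere: `T x = ∑_I ± T (mix (x + y) y I)`
(`expand_sub_ml` with `x + y` and `y`).  For every fixed `x` and `I` the map `y ↦ mix (x + y) y I` is a
bijection, so by the union bound (over the `2^k` sets `I`) some `y` makes all terms good.
-/

set_option autoImplicit false

namespace Pool.Agent.Helper83.AH

open Finset

variable {F : Type} [Field F] {n : ℕ}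

namespace Quantile

theorem rank_sign_smul {a b : Type} [Fintype a] [Fintype b] (M : Matrix b a F) (m : ℕ) :
    ((-1 : F) ^ m • M).rank = M.rank := by
  rcases neg_one_pow_eq_or F m with h | h
  · rw [h, one_smul]
  · rw [h, neg_one_smul, rank_neg']

end Quantile

theorem max_of_quantile [Fintype F] [DecidableEq F] {ι : Type} [Fintype ι] [DecidableEq ι]
    (T : (ι → Fin n → F) → Matrix (Fin n) (Fin n) F) (hT : IsML F Finset.univ T) (R : ℕ)
    (h : 2 ^ Fintype.card ι * (Finset.univ.filter fun x : ι → Fin n → F => R < (T x).rank).card <
      Fintype.card (ι → Fin n → F)) :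
    ∀ x, (T x).rank ≤ 2 ^ Fintype.card ι * R := by
  classical
  intro x
  set B : Finset (ι → Fin n → F) :=
    Finset.univ.filter fun x : ι → Fin n → F => R < (T x).rank with hB
  -- the shift attached to a set of slots
  set sh : Finset ι → (ι → Fin n → F) := fun I i => if i ∈ I then 0 else x i with hsh
  have hmix : ∀ (y : ι → Fin n → F) (I : Finset ι), mix (x + y) y I = y + sh I := by
    intro y I
    funext i
    simp only [mix, hsh, Pi.add_apply]
    split_ifs with hi
    · simp
    · rw [add_comm]
  have hcard : ∀ I : Finset ι, (Finset.univ.filter fun y : ι → Fin n → F =>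
      y + sh I ∈ B).card = B.card := by
    intro I
    refine Finset.card_bij (fun y _ => y + sh I) ?_ ?_ ?_
    · intro y hy
      exact (Finset.mem_filter.mp hy).2
    · intro y _ y' _ hyy
      exact add_right_cancel hyy
    · intro z hz
      refine ⟨z - sh I, ?_, by simp⟩
      simp only [Finset.mem_filter, Finset.mem_univ, true_and, sub_add_cancel]
      exact hz
  have hunion : (Finset.univ.biUnion fun I : Finset ι =>
      Finset.univ.filter fun y : ι → Fin n → F => y + sh I ∈ B).card <
        Fintype.card (ι → Fin n → F) := by
    refine lt_of_le_of_lt Finset.card_biUnion_le ?_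
    rw [Finset.sum_congr rfl fun I _ => hcard I, Finset.sum_const, Finset.card_univ,
      Fintype.card_finset, smul_eq_mul]
    exact h
  obtain ⟨y, hy⟩ : ∃ y, y ∉ Finset.univ.biUnion fun I : Finset ι =>
      Finset.univ.filter fun y : ι → Fin n → F => y + sh I ∈ B := by
    by_contra hcon
    push Not at hcon
    have : (Finset.univ.biUnion fun I : Finset ι =>
      Finset.univ.filter fun y : ι → Fin n → F => y + sh I ∈ B) = Finset.univ :=
      Finset.eq_univ_of_forall hcon
    rw [this, Finset.card_univ] at hunion
    exact lt_irrefl _ hunion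
  have hgood : ∀ I : Finset ι, (T (mix (x + y) y I)).rank ≤ R := by
    intro I
    by_contra hcon
    push Not at hcon
    apply hy
    simp only [Finset.mem_biUnion, Finset.mem_univ, true_and, Finset.mem_filter]
    refine ⟨I, ?_⟩
    rw [← hmix, hB]
    simpa using hcon
  have hexp := expand_sub_ml hT (x + y) y
  rw [add_sub_cancel_right] at hexp
  rw [hexp]
  refine (rank_sum_le' _ _).trans ?_
  calc ∑ I : Finset ι, ((-1 : F) ^ I.card • T (mix (x + y) y I)).rank
      = ∑ I : Finset ι, (T (mix (x + y) y I)).rank :=
        Finset.sum_congr rfl fun I _ => Quantile.rank_sign_smul _ _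
    _ ≤ ∑ _I : Finset ι, R := Finset.sum_le_sum fun I _ => hgood I
    _ = 2 ^ Fintype.card ι * R := by
        rw [Finset.sum_const, Finset.card_univ, Fintype.card_finset, smul_eq_mul]

end Pool.Agent.Helper83.AH
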