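import Pool.Agent.Helper83.AH.Defs

/-!
AH-17. Dimension counts (linear algebra).
`dim1`: rank-nullity for `u₀` restricted to `ker n₀` (its kernel is `ker n₀ ⊓ ker u₀`) and for `n₀`.
`dim2`: `P ⧸ P₁ ≃ (range n₀ ⊔ range v₀) ⧸ range n₀` (the map `P → M → M ⧸ range n₀` induced by `v₀`
has kernel `P₁` and range the image of `range n₀ ⊔ range v₀`).
-/

set_option autoImplicit false

namespace Pool.Agent.Helper83.AH

variable {K : Type} [Field K] {P M Q : Type}
    [AddCommGroup P] [Module K P] [AddCommGroup M] [Module K M] [AddCommGroup Q] [Module K Q]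
    [FiniteDimensional K P] [FiniteDimensional K M] [FiniteDimensional K Q]

theorem dim1 (n₀ : M →ₗ[K] M) (u₀ : M →ₗ[K] Q) :
    Module.finrank K (LinearMap.ker n₀ ⊓ LinearMap.ker u₀ : Submodule K M) +
      Module.finrank K (LinearMap.range n₀) +
      Module.finrank K (Submodule.map u₀ (LinearMap.ker n₀)) = Module.finrank K M := by
  have h1 := LinearMap.finrank_range_add_finrank_ker n₀
  have h2 := LinearMap.finrank_range_add_finrank_ker (u₀.domRestrict (LinearMap.ker n₀))
  have h3 : LinearMap.range (u₀.domRestrict (LinearMap.ker n₀)) =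
      Submodule.map u₀ (LinearMap.ker n₀) := LinearMap.range_domRestrict _ _
  have h4 : Module.finrank K (LinearMap.ker (u₀.domRestrict (LinearMap.ker n₀))) =
      Module.finrank K (LinearMap.ker n₀ ⊓ LinearMap.ker u₀ : Submodule K M) := by
    rw [LinearMap.ker_domRestrict]
    have h5 : (LinearMap.ker n₀ ⊓ LinearMap.ker u₀ : Submodule K M) =
        (Submodule.comap (LinearMap.ker n₀).subtype (LinearMap.ker u₀)).map
          (LinearMap.ker n₀).subtype := by
      rw [Submodule.map_comap_subtype]
    rw [h5]
    exact (LinearEquiv.finrank_eq (Submodule.equivMapOfInjective _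
      (Submodule.injective_subtype _) _))
  rw [h3, h4] at h2
  omega

theorem dim2 (n₀ : M →ₗ[K] M) (v₀ : P →ₗ[K] M) :
    Module.finrank K (M ⧸ (LinearMap.range n₀ ⊔ LinearMap.range v₀)) +
      Module.finrank K (LinearMap.range n₀) +
      (Module.finrank K P - Module.finrank K (Submodule.comap v₀ (LinearMap.range n₀))) =
      Module.finrank K M := by
  have h1 := Submodule.finrank_quotient_add_finrank (LinearMap.range n₀ ⊔ LinearMap.range v₀)
  have h2 := Submodule.finrank_sup_add_finrank_inf_eq (LinearMap.range n₀) (LinearMap.range v₀)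
  have h3 := LinearMap.finrank_range_add_finrank_ker v₀
  have h4 := LinearMap.finrank_range_add_finrank_ker
    (v₀.domRestrict (Submodule.comap v₀ (LinearMap.range n₀)))
  have h5 : LinearMap.range (v₀.domRestrict (Submodule.comap v₀ (LinearMap.range n₀))) =
      LinearMap.range n₀ ⊓ LinearMap.range v₀ := by
    rw [LinearMap.range_domRestrict, Submodule.map_comap_eq, inf_comm]
  have h6 : Module.finrank K
      (LinearMap.ker (v₀.domRestrict (Submodule.comap v₀ (LinearMap.range n₀)))) =
      Module.finrank K (LinearMap.ker v₀) := by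
    rw [LinearMap.ker_domRestrict]
    have h7 : (LinearMap.ker v₀ : Submodule K P) =
        (Submodule.comap (Submodule.comap v₀ (LinearMap.range n₀)).subtype (LinearMap.ker v₀)).map
          (Submodule.comap v₀ (LinearMap.range n₀)).subtype := by
      rw [Submodule.map_comap_subtype]
      symm
      apply inf_eq_right.2
      intro p hp
      rw [Submodule.mem_comap, LinearMap.mem_ker.1 hp]
      exact Submodule.zero_mem _
    conv_rhs => rw [h7]
    exact (LinearEquiv.finrank_eq (Submodule.equivMapOfInjective _
      (Submodule.injective_subtype _) _))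
  rw [h5, h6] at h4
  have h8 := Submodule.finrank_le (Submodule.comap v₀ (LinearMap.range n₀))
  omega

end Pool.Agent.Helper83.AH
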