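import Pool.Agent.Helper83.AH.RepRestrict

/-!
AH-16. Quotient step for a corner representation (dual of AH-15; same notation and (c1)-(c4)).
`Q₁ = u₀ (ker n₀)`, `π : Q → Q ⧸ Q₁`, `N = range n₀ ⊔ range v₀`.  Choose a linear
`ζ : M → Q ⧸ Q₁` with `ζ ∘ n₀ = - π ∘ u₀` and `finrank (range ζ) ≤ finrank (range n₀)`: it exists
because `ker n₀ ≤ ker (π ∘ u₀)`, so `-π u₀` factors through `range n₀`; extend by a projection
`M → range n₀` (`LinearMap.exists_extend` / a complement).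
`f₁ x = π f x + ζ v x`, `u₁ x = π u x + ζ (g x - 1)` which kills `N`:
`u₁ x n₀ = π u x n₀ + ζ (g x - 1) n₀ = (π u₀ + ζ n₀)(g x - 1) = 0` (c3, c4),
`u₁ x v₀ = π u x v₀ + ζ (g x - 1) v₀ = π u₀ v x + ζ n₀ v x = 0` (c1, c2);
so it induces `M ⧸ N → Q ⧸ Q₁`.  `g x` preserves `N` (`g x n₀ = n₀ g x`,
`g x v₀ = v₀ + (g x - 1) v₀ = v₀ + n₀ v x`), `v₁ x = mkQ ∘ v x`.
`hf`: `f₁ (x+y) = π f x + π f y + π u x v y + ζ v x + ζ g x v y = f₁ x + f₁ y + u₁ x v y`.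
`hu`: `u₁ y + u₁ x g y = π u y + ζ (g y - 1) + π u x g y + ζ (g x - 1) g y = u₁ (x + y)`.
-/

set_option autoImplicit false

namespace Pool.Agent.Helper83.AH

variable {K : Type} [Field K] {V P M Q : Type} [AddCommGroup V]
    [AddCommGroup P] [Module K P] [AddCommGroup M] [Module K M] [AddCommGroup Q] [Module K Q]
    [FiniteDimensional K P] [FiniteDimensional K M] [FiniteDimensional K Q]
    {f : V → P →ₗ[K] Q} {u : V → M →ₗ[K] Q} {v : V → P →ₗ[K] M} {g : V → M →ₗ[K] M}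

theorem rep_quotient (h : CornerRep K f u v g) (x₀ : V) :
    ∃ (Q₁ : Submodule K Q) (N : Submodule K M)
      (f₁ : V → P →ₗ[K] (Q ⧸ Q₁)) (u₁ : V → (M ⧸ N) →ₗ[K] (Q ⧸ Q₁)) (v₁ : V → P →ₗ[K] (M ⧸ N))
      (g₁ : V → (M ⧸ N) →ₗ[K] (M ⧸ N)) (ζ : M →ₗ[K] (Q ⧸ Q₁)),
      Q₁ = Submodule.map (u x₀) (LinearMap.ker (g x₀ - 1)) ∧
      N = LinearMap.range (g x₀ - 1) ⊔ LinearMap.range (v x₀) ∧
      CornerRep K f₁ u₁ v₁ g₁ ∧
      Module.finrank K (LinearMap.range ζ) ≤ Module.finrank K (LinearMap.range (g x₀ - 1)) ∧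
      ∀ x, f₁ x = Q₁.mkQ ∘ₗ f x + ζ ∘ₗ v x := by
  obtain ⟨σ, hσ⟩ := LinearMap.exists_rightInverse_of_surjective
    (g x₀ - 1 : M →ₗ[K] M).rangeRestrict (LinearMap.range_rangeRestrict _)
  obtain ⟨τ, hτ⟩ := LinearMap.exists_leftInverse_of_injective
    (LinearMap.range (g x₀ - 1 : M →ₗ[K] M)).subtype (Submodule.ker_subtype _)
  set Q₁ := Submodule.map (u x₀) (LinearMap.ker (g x₀ - 1)) with hQ₁
  set N := LinearMap.range (g x₀ - 1) ⊔ LinearMap.range (v x₀) with hN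
  have hσ' : ∀ y : LinearMap.range (g x₀ - 1 : M →ₗ[K] M), g x₀ (σ y) - σ y = y := by
    intro y
    have := congrArg Subtype.val (LinearMap.congr_fun hσ y)
    exact this
  let ζ : M →ₗ[K] (Q ⧸ Q₁) := (-(Q₁.mkQ ∘ₗ u x₀ ∘ₗ σ)) ∘ₗ τ
  have hζ : ∀ m : M, ζ (g x₀ m - m) = - Q₁.mkQ (u x₀ m) := by
    intro m
    let y : LinearMap.range (g x₀ - 1 : M →ₗ[K] M) := ⟨g x₀ m - m, ⟨m, rfl⟩⟩
    have h1 : τ (g x₀ m - m) = y := LinearMap.congr_fun hτ y
    change -(Q₁.mkQ (u x₀ (σ (τ (g x₀ m - m))))) = _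
    rw [h1]
    congr 1
    have h2 : g x₀ (σ y) - σ y = g x₀ m - m := hσ' y
    rw [← sub_eq_zero, ← map_sub, ← map_sub, Submodule.mkQ_apply, Submodule.Quotient.mk_eq_zero]
    refine ⟨σ y - m, ?_, rfl⟩
    rw [SetLike.mem_coe, LinearMap.mem_ker, LinearMap.sub_apply, Module.End.one_apply, map_sub]
    have h3 : g x₀ (σ y) - g x₀ m - (σ y - m) = (g x₀ (σ y) - σ y) - (g x₀ m - m) := by abel
    rw [h3, h2, sub_self]
  have hker : ∀ x, N ≤ LinearMap.ker (Q₁.mkQ ∘ₗ u x + ζ ∘ₗ (g x - 1)) := by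
    intro x
    rw [hN, sup_le_iff]
    constructor
    · rintro _ ⟨m, rfl⟩
      rw [LinearMap.mem_ker]
      change Q₁.mkQ (u x (g x₀ m - m)) + ζ (g x (g x₀ m - m) - (g x₀ m - m)) = 0
      have h1 : g x (g x₀ m - m) - (g x₀ m - m) = g x₀ (g x m - m) - (g x m - m) := by
        rw [map_sub, map_sub, h.c4 x x₀]
        abel
      rw [h1, hζ, map_sub (u x), h.c3 x x₀ m, map_sub (u x₀), add_neg_cancel]
    · rintro _ ⟨p, rfl⟩
      rw [LinearMap.mem_ker]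
      change Q₁.mkQ (u x (v x₀ p)) + ζ (g x (v x₀ p) - v x₀ p) = 0
      rw [h.c1 x x₀, h.c2 x x₀, hζ, add_neg_cancel]
  have hgN : ∀ x, N ≤ N.comap (g x) := by
    intro x
    rw [hN, sup_le_iff]
    constructor
    · rintro _ ⟨m, rfl⟩
      refine Submodule.mem_sup_left ⟨g x m, ?_⟩
      change g x₀ (g x m) - g x m = g x (g x₀ m - m)
      rw [map_sub, h.c4]
    · rintro _ ⟨p, rfl⟩
      have h1 : g x (v x₀ p) = (g x₀ (v x p) - v x p) + v x₀ p := by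
        rw [← h.c2 x x₀]
        abel
      change g x (v x₀ p) ∈ LinearMap.range (g x₀ - 1) ⊔ LinearMap.range (v x₀)
      rw [h1]
      exact Submodule.add_mem_sup ⟨v x p, rfl⟩ ⟨p, rfl⟩
  refine ⟨Q₁, N, fun x => Q₁.mkQ ∘ₗ f x + ζ ∘ₗ v x,
    fun x => N.liftQ (Q₁.mkQ ∘ₗ u x + ζ ∘ₗ (g x - 1)) (hker x), fun x => N.mkQ ∘ₗ v x,
    fun x => N.mapQ N (g x) (hgN x), ζ, rfl, rfl, ?_, ?_, fun x => rfl⟩
  · constructor
    · intro x y
      ext p
      change Q₁.mkQ (f (x + y) p) + ζ (v (x + y) p) = Q₁.mkQ (f x p) + ζ (v x p) +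
        (Q₁.mkQ (f y p) + ζ (v y p)) +
        (Q₁.mkQ (u x (v y p)) + ζ (g x (v y p) - v y p))
      rw [h.hf, h.hv]
      simp only [LinearMap.add_apply, LinearMap.comp_apply, map_add, map_sub]
      abel
    · intro x y
      ext p
      change N.mkQ (v (x + y) p) = N.mkQ (v x p) + N.mkQ (g x (v y p))
      rw [h.hv]
      simp only [LinearMap.add_apply, LinearMap.comp_apply, map_add]
    · intro x y
      ext m
      change Q₁.mkQ (u (x + y) m) + ζ (g (x + y) m - m) =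
        (Q₁.mkQ (u y m) + ζ (g y m - m)) + (Q₁.mkQ (u x (g y m)) + ζ (g x (g y m) - g y m))
      rw [h.hu, h.hg]
      simp only [LinearMap.add_apply, LinearMap.comp_apply, map_add, map_sub]
      abel
    · intro x y
      ext m
      change N.mkQ (g (x + y) m) = N.mkQ (g x (g y m))
      rw [h.hg]
      rfl
  · calc Module.finrank K (LinearMap.range ζ)
        ≤ Module.finrank K (LinearMap.range (-(Q₁.mkQ ∘ₗ u x₀ ∘ₗ σ))) :=
          Submodule.finrank_mono (LinearMap.range_comp_le_range τ _)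
      _ ≤ Module.finrank K (LinearMap.range (g x₀ - 1)) := LinearMap.finrank_range_le _

end Pool.Agent.Helper83.AH
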