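import Pool.Agent.Helper83.AH.RepRestrict
import Pool.Agent.Helper83.AH.RepQuotient
import Pool.Agent.Helper83.AH.RepDim

/-!
AH-18. The main theorem on corner representations: `f` is within rank `dim M` of a homomorphism.
Strong induction on `m = finrank M`, for all `P M Q`.
If for all `x₀` : `g x₀ - 1 = 0`, `u x₀ = 0`, `v x₀ = 0`, then `f` is additive; take `ℓ = f`.
Otherwise fix such an `x₀` with one of them nonzero; let `r = finrank range (g x₀ - 1)`,
`α = finrank (map (u x₀) (ker n₀))`, `β = finrank P - finrank P₁`.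
Then `r + α > 0` or `r + β > 0`: if `r = 0` then `n₀ = 0`, `ker n₀ = ⊤`, `α = rank u₀`, `β = rank v₀`.
Case `β ≤ α`: then `r + α > 0` (if `r = α = 0` then also `β = 0` and everything vanishes), use
`rep_restrict`: the new middle `S` has `finrank S = m - r - α < m` by `dim1`; the induction
hypothesis gives additive `ℓ₁ : V → (P₁ → Q)`; choose a projection `π : P → P₁` (a linear retraction
of the inclusion) and `ℓ x = ℓ₁ x ∘ π`.  Then `f x - ℓ x` restricted to `P₁` is
`(f₁ x - ℓ₁ x) - u x ∘ ξ`, of rank `≤ (m - r - α) + r`, and `rank (f x - ℓ x) ≤ β + rank of the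
restriction to P₁ ≤ m + β - α ≤ m`.
Case `α ≤ β` (dual) use `rep_quotient`: the new middle has dimension `m - r - β < m` by `dim2`;
`ℓ₁ : V → (P → Q ⧸ Q₁)`, choose a linear section `σ : Q ⧸ Q₁ → Q` of `mkQ` and
`ℓ x = σ ∘ ℓ₁ x`; `mkQ ∘ (f x - ℓ x) = (f₁ x - ℓ₁ x) - ζ ∘ v x` has rank `≤ (m - r - β) + r` and
`rank (f x - ℓ x) ≤ α + (m - β) ≤ m`.
-/

set_option autoImplicit false

namespace Pool.Agent.Helper83.AH

theorem finrank_range_le_restrict {K : Type} [Field K] {P Q : Type}
    [AddCommGroup P] [Module K P] [AddCommGroup Q] [Module K Q]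
    [FiniteDimensional K P] [FiniteDimensional K Q] (w : P →ₗ[K] Q) (P₁ : Submodule K P) :
    Module.finrank K (LinearMap.range w) ≤
      (Module.finrank K P - Module.finrank K P₁) +
      Module.finrank K (LinearMap.range (w ∘ₗ P₁.subtype)) := by
  obtain ⟨P₂, h⟩ := Submodule.exists_isCompl P₁
  have h1 : LinearMap.range w = Submodule.map w P₁ ⊔ Submodule.map w P₂ := by
    rw [← Submodule.map_sup, h.sup_eq_top, Submodule.map_top]
  have h2 : LinearMap.range (w ∘ₗ P₁.subtype) = Submodule.map w P₁ := by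
    rw [LinearMap.range_comp, Submodule.range_subtype]
  have h3 := Submodule.finrank_add_eq_of_isCompl h
  have h4 := Submodule.finrank_add_le_finrank_add_finrank (Submodule.map w P₁) (Submodule.map w P₂)
  have h5 := Submodule.finrank_map_le w P₂
  rw [h2, h1]
  omega

theorem finrank_range_le_mkQ {K : Type} [Field K] {P Q : Type}
    [AddCommGroup P] [Module K P] [AddCommGroup Q] [Module K Q]
    [FiniteDimensional K P] [FiniteDimensional K Q] (w : P →ₗ[K] Q) (Q₁ : Submodule K Q) :
    Module.finrank K (LinearMap.range w) ≤ Module.finrank K Q₁ +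
      Module.finrank K (LinearMap.range (Q₁.mkQ ∘ₗ w)) := by
  set φ : LinearMap.range w →ₗ[K] Q ⧸ Q₁ := Q₁.mkQ ∘ₗ (LinearMap.range w).subtype with hφ
  have h1 := LinearMap.finrank_range_add_finrank_ker φ
  have h2 : LinearMap.range φ = LinearMap.range (Q₁.mkQ ∘ₗ w) := by
    rw [hφ, LinearMap.range_comp, LinearMap.range_comp, Submodule.range_subtype]
  have h3 : Module.finrank K (LinearMap.ker φ) ≤ Module.finrank K Q₁ := by
    let f : LinearMap.ker φ →ₗ[K] Q₁ := LinearMap.codRestrict Q₁
      ((LinearMap.range w).subtype ∘ₗ (LinearMap.ker φ).subtype) (by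
        intro x
        have hx : φ x.1 = 0 := LinearMap.mem_ker.1 x.2
        exact (Submodule.Quotient.mk_eq_zero Q₁).1 hx)
    apply LinearMap.finrank_le_finrank_of_injective (f := f)
    intro x y hxy
    have := congrArg Subtype.val hxy
    exact Subtype.ext (Subtype.ext this)
  rw [← h2]
  omega

theorem rm_finrank_range_sub_le {K : Type} [Field K] {P Q : Type}
    [AddCommGroup P] [Module K P] [AddCommGroup Q] [Module K Q]
    [FiniteDimensional K P] [FiniteDimensional K Q] (a b : P →ₗ[K] Q) :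
    Module.finrank K (LinearMap.range (a - b)) ≤
      Module.finrank K (LinearMap.range a) + Module.finrank K (LinearMap.range b) := by
  have h1 : LinearMap.range (a - b) ≤ LinearMap.range a ⊔ LinearMap.range b := by
    rintro _ ⟨x, rfl⟩
    rw [LinearMap.sub_apply]
    exact Submodule.sub_mem _ (Submodule.mem_sup_left ⟨x, rfl⟩) (Submodule.mem_sup_right ⟨x, rfl⟩)
  exact (Submodule.finrank_mono h1).trans (Submodule.finrank_add_le_finrank_add_finrank _ _)

theorem rm_finrank_range_comp_le {K : Type} [Field K] {P Q R : Type}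
    [AddCommGroup P] [Module K P] [AddCommGroup Q] [Module K Q] [AddCommGroup R] [Module K R]
    [FiniteDimensional K P] [FiniteDimensional K Q] [FiniteDimensional K R]
    (a : Q →ₗ[K] R) (b : P →ₗ[K] Q) :
    Module.finrank K (LinearMap.range (a ∘ₗ b)) ≤ Module.finrank K (LinearMap.range b) := by
  rw [LinearMap.range_comp]
  exact Submodule.finrank_map_le a _

theorem rm_finrank_range_comp_le' {K : Type} [Field K] {P Q R : Type}
    [AddCommGroup P] [Module K P] [AddCommGroup Q] [Module K Q] [AddCommGroup R] [Module K R]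
    [FiniteDimensional K P] [FiniteDimensional K Q] [FiniteDimensional K R]
    (a : Q →ₗ[K] R) (b : P →ₗ[K] Q) :
    Module.finrank K (LinearMap.range (a ∘ₗ b)) ≤ Module.finrank K (LinearMap.range a) := by
  apply Submodule.finrank_mono
  exact LinearMap.range_comp_le_range b a

theorem rep_main {K : Type} [Field K] {V : Type} [AddCommGroup V] (m : ℕ) :
    ∀ (P M Q : Type) [AddCommGroup P] [Module K P] [AddCommGroup M] [Module K M]
      [AddCommGroup Q] [Module K Q] [FiniteDimensional K P] [FiniteDimensional K M]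
      [FiniteDimensional K Q] (f : V → P →ₗ[K] Q) (u : V → M →ₗ[K] Q) (v : V → P →ₗ[K] M)
      (g : V → M →ₗ[K] M), CornerRep K f u v g → Module.finrank K M = m →
      ∃ ℓ : V →+ (P →ₗ[K] Q), ∀ x, Module.finrank K (LinearMap.range (f x - ℓ x)) ≤ m := by
  induction m using Nat.strong_induction_on with
  | _ m ih =>
  intro P M Q _ _ _ _ _ _ _ _ _ f u v g h hm
  by_cases hz : ∀ x₀, g x₀ - 1 = 0 ∧ u x₀ = 0 ∧ v x₀ = 0
  · refine ⟨AddMonoidHom.mk' f (fun x y => ?_), fun x => ?_⟩
    · rw [h.hf x y, (hz x).2.1, LinearMap.zero_comp, add_zero]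
    · have : f x - (AddMonoidHom.mk' f (fun x y => by
          rw [h.hf x y, (hz x).2.1, LinearMap.zero_comp, add_zero]) : V →+ (P →ₗ[K] Q)) x = 0 := by
        exact sub_self _
      rw [this, LinearMap.range_zero, finrank_bot]
      exact Nat.zero_le _
  · rw [not_forall] at hz
    obtain ⟨x₀, hx₀⟩ := hz
    have hd1 := dim1 (g x₀ - 1) (u x₀)
    have hd2 := dim2 (g x₀ - 1) (v x₀)
    rw [hm] at hd1 hd2
    set r := Module.finrank K (LinearMap.range (g x₀ - 1)) with hr
    set α := Module.finrank K (Submodule.map (u x₀) (LinearMap.ker (g x₀ - 1))) with hα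
    set β := Module.finrank K P -
      Module.finrank K (Submodule.comap (v x₀) (LinearMap.range (g x₀ - 1))) with hβ
    have hpos : ¬ (r = 0 ∧ α = 0 ∧ β = 0) := by
      rintro ⟨h1, h2, h3⟩
      apply hx₀
      have hn : g x₀ - 1 = 0 := by
        rw [← LinearMap.range_eq_bot, ← Submodule.finrank_eq_zero (R := K)]
        exact h1
      refine ⟨hn, ?_, ?_⟩
      · rw [hn, LinearMap.ker_zero, Submodule.map_top] at hα
        rw [← LinearMap.range_eq_bot, ← Submodule.finrank_eq_zero (R := K), ← hα]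
        exact h2
      · rw [hn, LinearMap.range_zero] at hβ
        have h4 : Module.finrank K P ≤ Module.finrank K (Submodule.comap (v x₀) ⊥) := by omega
        have h5 : Submodule.comap (v x₀) (⊥ : Submodule K M) = ⊤ :=
          Submodule.eq_top_of_finrank_eq (le_antisymm (Submodule.finrank_le _) h4)
        ext p
        have h6 : p ∈ Submodule.comap (v x₀) (⊥ : Submodule K M) := by rw [h5]; trivial
        simpa using h6
    rcases le_or_gt β α with hle | hlt
    · obtain ⟨P₁, S, f₁, u₁, v₁, g₁, ξ, hP₁, hS, hrep, hξ, hf₁⟩ := rep_restrict h x₀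
      have hSr : Module.finrank K S + r + α = m := by rw [hS]; exact hd1
      obtain ⟨ℓ₁, hℓ₁⟩ := ih (Module.finrank K S) (by omega) P₁ S Q f₁ u₁ v₁ g₁ hrep rfl
      obtain ⟨π, hπ⟩ := LinearMap.exists_leftInverse_of_injective P₁.subtype
        (Submodule.ker_subtype P₁)
      refine ⟨AddMonoidHom.mk' (fun x => ℓ₁ x ∘ₗ π) (fun x y => by
        rw [map_add, LinearMap.add_comp]), fun x => ?_⟩
      have h1 := finrank_range_le_restrict (f x - ℓ₁ x ∘ₗ π) P₁
      have h2 : (f x - ℓ₁ x ∘ₗ π) ∘ₗ P₁.subtype = (f₁ x - ℓ₁ x) - u x ∘ₗ ξ := by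
        rw [hf₁ x, LinearMap.sub_comp, LinearMap.comp_assoc, hπ, LinearMap.comp_id]
        abel
      have h3 := rm_finrank_range_sub_le (f₁ x - ℓ₁ x) (u x ∘ₗ ξ)
      have h4 := rm_finrank_range_comp_le (u x) ξ
      have h5 := hℓ₁ x
      have h6 : Module.finrank K P - Module.finrank K P₁ = β := by rw [hP₁]
      rw [h2] at h1
      change Module.finrank K (LinearMap.range (f x - ℓ₁ x ∘ₗ π)) ≤ m
      omega
    · obtain ⟨Q₁, N, f₁, u₁, v₁, g₁, ζ, hQ₁, hN, hrep, hζ, hf₁⟩ := rep_quotient h x₀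
      have hNr : Module.finrank K (M ⧸ N) + r + β = m := by rw [hN]; exact hd2
      obtain ⟨ℓ₁, hℓ₁⟩ := ih (Module.finrank K (M ⧸ N)) (by omega) P (M ⧸ N) (Q ⧸ Q₁)
        f₁ u₁ v₁ g₁ hrep rfl
      obtain ⟨σ, hσ⟩ := LinearMap.exists_rightInverse_of_surjective Q₁.mkQ
        (LinearMap.range_eq_top.2 (Submodule.mkQ_surjective Q₁))
      refine ⟨AddMonoidHom.mk' (fun x => σ ∘ₗ ℓ₁ x) (fun x y => by
        rw [map_add, LinearMap.comp_add]), fun x => ?_⟩
      have h1 := finrank_range_le_mkQ (f x - σ ∘ₗ ℓ₁ x) Q₁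
      have h2 : Q₁.mkQ ∘ₗ (f x - σ ∘ₗ ℓ₁ x) = (f₁ x - ℓ₁ x) - ζ ∘ₗ v x := by
        rw [hf₁ x, LinearMap.comp_sub, ← LinearMap.comp_assoc, hσ, LinearMap.id_comp]
        abel
      have h3 := rm_finrank_range_sub_le (f₁ x - ℓ₁ x) (ζ ∘ₗ v x)
      have h4 := rm_finrank_range_comp_le' ζ (v x)
      have h5 := hℓ₁ x
      have h6 : Module.finrank K Q₁ = α := by rw [hQ₁]
      rw [h2] at h1
      change Module.finrank K (LinearMap.range (f x - σ ∘ₗ ℓ₁ x)) ≤ m
      omega

end Pool.Agent.Helper83.AH
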