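import Pool.Agent.Helper83.AH.Defs

/-!
AH-15. Restriction step for a corner representation.  Write `n₀ = g x₀ - 1`, `u₀ = u x₀`,
`v₀ = v x₀`.  As `V` is commutative, `hf, hv, hu, hg` give
(c1) `u x ∘ v y = u y ∘ v x`, (c2) `(g x - 1) ∘ v y = (g y - 1) ∘ v x`,
(c3) `u x ∘ (g y - 1) = u y ∘ (g x - 1)`, (c4) `g x ∘ g y = g y ∘ g x`.
`P₁ = {p : v₀ p ∈ range n₀}`, `𝒮 = ker n₀ ⊓ ker u₀`.  Choose a linear `ξ : P₁ → M` with
`n₀ (ξ p) = - v₀ p` and `finrank (range ξ) ≤ finrank (range n₀)` (a linear section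
`σ : range n₀ → M` of `n₀`, `ξ p = - σ (v₀ p)`).
`f₁ x = f x|P₁ + u x ∘ ξ`, `v₁ x = v x|P₁ + (g x - 1) ∘ ξ`, `u₁ x = u x|𝒮`, `g₁ x = g x|𝒮`.
`v₁ x` lands in `𝒮`: `n₀ v₁ x = n₀ v x + n₀ (g x - 1) ξ = (g x - 1)(v₀ + n₀ ξ) = 0` (c2, c4) and
`u₀ v₁ x = u₀ v x + u₀ (g x - 1) ξ = u x v₀ + u x n₀ ξ = u x (v₀ + n₀ ξ) = 0` (c1, c3).
`g x` preserves `𝒮`: `n₀ g x η = g x n₀ η = 0`, `u₀ g x η = u₀ η + u₀ (g x - 1) η = u x n₀ η = 0`.
`hf`: `f₁ (x+y) - f₁ x - f₁ y = u x v y + (u (x+y) - u x - u y) ξ = u x v y + u x (g y - 1) ξ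
= u x v₁ y`.  `hv`: `v₁ x + g x v₁ y = v x + (g x - 1) ξ + g x v y + g x (g y - 1) ξ = v₁ (x + y)`.
-/

set_option autoImplicit false

namespace Pool.Agent.Helper83.AH

variable {K : Type} [Field K] {V P M Q : Type} [AddCommGroup V]
    [AddCommGroup P] [Module K P] [AddCommGroup M] [Module K M] [AddCommGroup Q] [Module K Q]
    [FiniteDimensional K P] [FiniteDimensional K M] [FiniteDimensional K Q]
    {f : V → P →ₗ[K] Q} {u : V → M →ₗ[K] Q} {v : V → P →ₗ[K] M} {g : V → M →ₗ[K] M}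

omit [FiniteDimensional K P] [FiniteDimensional K M] [FiniteDimensional K Q] in
theorem CornerRep.c1 (h : CornerRep K f u v g) (x y : V) (p : P) : u x (v y p) = u y (v x p) := by
  have h1 := h.hf x y
  rw [add_comm x y, h.hf y x] at h1
  have h2 := LinearMap.congr_fun h1 p
  simp only [LinearMap.add_apply, LinearMap.comp_apply] at h2
  rw [add_comm (f y p)] at h2
  exact (add_left_cancel h2).symm

omit [FiniteDimensional K P] [FiniteDimensional K M] [FiniteDimensional K Q] in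
theorem CornerRep.c2 (h : CornerRep K f u v g) (x y : V) (p : P) :
    g x (v y p) - v y p = g y (v x p) - v x p := by
  have h1 := h.hv x y
  rw [add_comm x y, h.hv y x] at h1
  have h2 := LinearMap.congr_fun h1 p
  simp only [LinearMap.add_apply, LinearMap.comp_apply] at h2
  rw [sub_eq_sub_iff_add_eq_add, add_comm, ← h2, add_comm]

omit [FiniteDimensional K P] [FiniteDimensional K M] [FiniteDimensional K Q] in
theorem CornerRep.c3 (h : CornerRep K f u v g) (x y : V) (m : M) :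
    u x (g y m) - u x m = u y (g x m) - u y m := by
  have h1 := h.hu x y
  rw [add_comm x y, h.hu y x] at h1
  have h2 := LinearMap.congr_fun h1 m
  simp only [LinearMap.add_apply, LinearMap.comp_apply] at h2
  rw [sub_eq_sub_iff_add_eq_add, add_comm, ← h2, add_comm]

omit [FiniteDimensional K P] [FiniteDimensional K M] [FiniteDimensional K Q] in
theorem CornerRep.c4 (h : CornerRep K f u v g) (x y : V) (m : M) :
    g x (g y m) = g y (g x m) := by
  have h1 := h.hg x y
  rw [add_comm x y, h.hg y x] at h1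
  exact (LinearMap.congr_fun h1 m).symm

theorem rep_restrict (h : CornerRep K f u v g) (x₀ : V) :
    ∃ (P₁ : Submodule K P) (S : Submodule K M)
      (f₁ : V → P₁ →ₗ[K] Q) (u₁ : V → S →ₗ[K] Q) (v₁ : V → P₁ →ₗ[K] S) (g₁ : V → S →ₗ[K] S)
      (ξ : P₁ →ₗ[K] M),
      P₁ = Submodule.comap (v x₀) (LinearMap.range (g x₀ - 1)) ∧
      S = LinearMap.ker (g x₀ - 1) ⊓ LinearMap.ker (u x₀) ∧
      CornerRep K f₁ u₁ v₁ g₁ ∧
      Module.finrank K (LinearMap.range ξ) ≤ Module.finrank K (LinearMap.range (g x₀ - 1)) ∧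
      ∀ x, f₁ x = f x ∘ₗ P₁.subtype + u x ∘ₗ ξ := by
  obtain ⟨σ, hσ⟩ := LinearMap.exists_rightInverse_of_surjective
    (g x₀ - 1 : M →ₗ[K] M).rangeRestrict (LinearMap.range_rangeRestrict _)
  set P₁ := Submodule.comap (v x₀) (LinearMap.range (g x₀ - 1)) with hP₁
  set S := LinearMap.ker (g x₀ - 1) ⊓ LinearMap.ker (u x₀) with hS
  have hσ' : ∀ y : LinearMap.range (g x₀ - 1 : M →ₗ[K] M), g x₀ (σ y) - σ y = y := by
    intro y
    have := congrArg Subtype.val (LinearMap.congr_fun hσ y)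
    exact this
  let w : P₁ →ₗ[K] LinearMap.range (g x₀ - 1 : M →ₗ[K] M) :=
    (v x₀).restrict (p := P₁) (q := LinearMap.range (g x₀ - 1)) (fun x hx => hx)
  let ξ : P₁ →ₗ[K] M := (-σ) ∘ₗ w
  have hξ : ∀ p : P₁, g x₀ (ξ p) - ξ p = - v x₀ p := by
    intro p
    have h1 := hσ' (w p)
    change g x₀ (-(σ (w p))) - (-(σ (w p))) = _
    rw [map_neg]
    have h2 : ((w p : LinearMap.range (g x₀ - 1 : M →ₗ[K] M)) : M) = v x₀ p := rfl
    rw [← h2, ← h1]
    abel
  have hSmem : ∀ m : M, m ∈ S ↔ g x₀ m - m = 0 ∧ u x₀ m = 0 := by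
    intro m
    rw [hS, Submodule.mem_inf, LinearMap.mem_ker, LinearMap.mem_ker, LinearMap.sub_apply,
      Module.End.one_apply]
  have hgS : ∀ x, ∀ m ∈ S, g x m ∈ S := by
    intro x m hm
    rw [hSmem] at hm ⊢
    constructor
    · rw [h.c4 x₀ x m, ← map_sub, hm.1, map_zero]
    · have h1 := h.c3 x₀ x m
      rw [hm.2, sub_zero, ← map_sub, hm.1, map_zero] at h1
      exact h1
  have hvS : ∀ x (p : P₁), (v x p + (g x (ξ p) - ξ p)) ∈ S := by
    intro x p
    rw [hSmem]
    constructor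
    · have h1 := h.c2 x₀ x p
      have h2 : g x (g x₀ (ξ p) - ξ p) = g x (- v x₀ p) := by rw [hξ p]
      rw [map_sub, map_neg] at h2
      have h3 := hξ p
      rw [map_add, map_sub, h.c4 x₀ x]
      calc g x₀ (v x ↑p) + (g x (g x₀ (ξ p)) - g x₀ (ξ p)) - (v x ↑p + (g x (ξ p) - ξ p))
          = (g x₀ (v x ↑p) - v x ↑p) + (g x (g x₀ (ξ p)) - g x (ξ p)) - (g x₀ (ξ p) - ξ p) := by
            abel
        _ = (g x (v x₀ ↑p) - v x₀ ↑p) + (- g x (v x₀ ↑p)) - (- v x₀ ↑p) := by rw [h1, h2, h3]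
        _ = 0 := by abel
    · have h1 := h.c1 x₀ x p
      have h2 := h.c3 x₀ x (ξ p)
      have h3 : u x (g x₀ (ξ p) - ξ p) = u x (- v x₀ p) := by rw [hξ p]
      rw [map_sub, map_neg] at h3
      rw [map_add, map_sub, h1, h2, h3]
      abel
  refine ⟨P₁, S, fun x => f x ∘ₗ P₁.subtype + u x ∘ₗ ξ, fun x => u x ∘ₗ S.subtype,
    fun x => LinearMap.codRestrict S (v x ∘ₗ P₁.subtype + (g x ∘ₗ ξ - ξ)) (fun p => hvS x p),
    fun x => (g x).restrict (hgS x), ξ, rfl, rfl, ?_, ?_, fun x => rfl⟩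
  · constructor
    · intro x y
      ext p
      simp only [LinearMap.add_apply, LinearMap.comp_apply, Submodule.subtype_apply,
        LinearMap.codRestrict_apply, LinearMap.sub_apply, map_add, map_sub]
      rw [h.hf, h.hu]
      simp only [LinearMap.add_apply, LinearMap.comp_apply]
      abel
    · intro x y
      ext p
      simp only [LinearMap.add_apply, LinearMap.comp_apply, Submodule.subtype_apply,
        LinearMap.codRestrict_apply, LinearMap.sub_apply, Submodule.coe_add,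
        LinearMap.coe_restrict_apply, map_add, map_sub]
      rw [h.hv, h.hg]
      simp only [LinearMap.add_apply, LinearMap.comp_apply]
      abel
    · intro x y
      ext m
      simp only [LinearMap.add_apply, LinearMap.comp_apply, Submodule.subtype_apply,
        LinearMap.coe_restrict_apply]
      rw [h.hu]
      simp only [LinearMap.add_apply, LinearMap.comp_apply]
    · intro x y
      ext m
      simp only [LinearMap.comp_apply, LinearMap.coe_restrict_apply]
      rw [h.hg]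
      rfl
  · calc Module.finrank K (LinearMap.range ξ)
        ≤ Module.finrank K (LinearMap.range (-σ)) :=
          Submodule.finrank_mono (LinearMap.range_comp_le_range w (-σ))
      _ ≤ Module.finrank K (LinearMap.range (g x₀ - 1)) := LinearMap.finrank_range_le _

end Pool.Agent.Helper83.AH
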