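import Pool.Agent.Helper83.AH.Slice
import Pool.Agent.Helper83.AH.PolyOf
import Pool.Agent.Helper83.AH.MHom
import Pool.Agent.Helper83.AH.Cost

/-!
AH-26. From the cost of the slice map to a Schmidt decomposition.
Slots `ι = {i : Fin d // i ≠ s ∧ i ≠ t}`; `card ι = d - 2`.  For `x : ι → Fin n → F` let
`ext x : Fin d × Fin n → F` be `x` on the slots of `ι` and `0` on `s, t`.  The map
`T x = sliceMat P s t (ext x)` is `IsML F univ` (from `MultiHom.isML`) - this is `sliceMap_isML`.
If `HasCost F T μ`, `T x = ∑_I A_I x * B_I x`, then for every `z : Fin d × Fin n → F`, with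
`x = z` restricted to `ι`, `eval z P = ∑_{i,j} z (s,i) z (t,j) T x i j =
∑_I ∑_{l : Fin μ} (∑_i z (s,i) A_I x i l) (∑_j B_I x l j z (t,j))`.
For fixed `I, l` the first factor is multilinear in the slots `{s} ∪ I`, the second in the slots
`{t} ∪ (ι \ I)`.  `exists_poly` gives polynomials `Q_{I,l}`, `R_{I,l}`, of total degree
`≤ 1 + |I| ≤ 1 + (d - 2) < d` (`MultiHom.totalDegree_le`).  The product is `MultiHom univ`, so
`P = ∑ Q R` by `MultiHom.ext_of_eval`.  Number of terms `2^(d-2) * μ`
(reindex `Finset ι × Fin μ ≃ Fin (2^(d-2) * μ)`).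
-/

set_option autoImplicit false

namespace Pool.Agent.Helper83.AH

open Finset

variable {F : Type} [Field F] {d n : ℕ}

theorem card_rest {s t : Fin d} (hst : s ≠ t) : Fintype.card (Rest s t) = d - 2 := by
  rw [Fintype.card_subtype]
  have h : (univ.filter (fun i : Fin d => i ≠ s ∧ i ≠ t)) = univ \ {s, t} := by
    ext i
    simp
  rw [h, Finset.card_sdiff_of_subset (Finset.subset_univ _), Finset.card_univ, Fintype.card_fin,
    Finset.card_pair hst]

private theorem Schmidt_update {s t : Fin d} (x : Rest s t → Fin n → F) (i : Rest s t)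
    (v : Fin n → F) (a b : Fin n) :
    (fun k l => slicePt s t (extZ s t (Function.update x i v)) a b (k, l)) =
      Function.update (fun k l => slicePt s t (extZ s t x) a b (k, l)) (i : Fin d) v := by
  funext k l
  by_cases hk : k = i
  · subst hk
    rw [Function.update_self]
    unfold slicePt extZ
    simp only
    rw [if_neg i.2.1, if_neg i.2.2, dif_pos i.2, Subtype.coe_eta, Function.update_self]
  · rw [Function.update_of_ne hk]
    unfold slicePt extZ
    simp only
    by_cases h1 : k = s
    · rw [if_pos h1, if_pos h1]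
    · rw [if_neg h1, if_neg h1]
      by_cases h2 : k = t
      · rw [if_pos h2, if_pos h2]
      · rw [if_neg h2, if_neg h2, dif_pos ⟨h1, h2⟩, dif_pos ⟨h1, h2⟩]
        have hne : (⟨k, ⟨h1, h2⟩⟩ : Rest s t) ≠ i := fun h => hk (congrArg Subtype.val h)
        rw [Function.update_of_ne hne]

theorem sliceMap_isML {P : MvPolynomial (Fin d × Fin n) F} (hP : MultiHom Finset.univ P)
    {s t : Fin d} (hst : s ≠ t) :
    IsML F Finset.univ (fun x : Rest s t → Fin n → F => sliceMat P s t (extZ s t x)) := by
  have hM := hP.isML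
  have key : ∀ (x : Rest s t → Fin n → F) (i : Rest s t) (v : Fin n → F) (a b : Fin n),
      MvPolynomial.eval (slicePt s t (extZ s t (Function.update x i v)) a b) P =
      (fun z : Fin d → Fin n → F => MvPolynomial.eval (fun c => z c.1 c.2) P)
        (Function.update (fun k l => slicePt s t (extZ s t x) a b (k, l)) (i : Fin d) v) := by
    intro x i v a b
    rw [← Schmidt_update]
  refine ⟨?_, ?_, ?_⟩
  · intro x y hxy
    have : x = y := funext fun i => hxy i (Finset.mem_univ i)
    rw [this]
  · intro i _ x v w
    ext a b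
    simp only [sliceMat, Matrix.of_apply, Matrix.add_apply]
    rw [key, key, key]
    exact hM.add _ (Finset.mem_univ _) _ _ _
  · intro i _ x c v
    ext a b
    simp only [sliceMat, Matrix.of_apply, Matrix.smul_apply]
    rw [key, key]
    exact hM.smul _ (Finset.mem_univ _) _ _ _

private theorem Schmidt_aux {s t p : Fin d} (hp : p = s ∨ p = t) (I : Finset (Rest s t))
    (φ : Fin n → (Rest s t → Fin n → F) → F) (hφ : ∀ i, IsML F I (φ i)) :
    IsML F (insert p (I.map (Function.Embedding.subtype _)))
      (fun z : Fin d → Fin n → F => ∑ i, z p i * φ i (fun r => z r)) := by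
  have hne : ∀ r : Rest s t, (r : Fin d) ≠ p := by
    intro r
    rcases hp with rfl | rfl
    · exact r.2.1
    · exact r.2.2
  have hu1 : ∀ (x : Fin d → Fin n → F) (v : Fin n → F),
      (fun r : Rest s t => Function.update x p v r) = fun r : Rest s t => x r := by
    intro x v
    funext r
    rw [Function.update_of_ne (hne r)]
  have hu2 : ∀ (x : Fin d → Fin n → F) (r0 : Rest s t) (v : Fin n → F),
      (fun r : Rest s t => Function.update x (r0 : Fin d) v r) =
        Function.update (fun r : Rest s t => x r) r0 v := by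
    intro x r0 v
    funext r
    by_cases hr : r = r0
    · subst hr
      rw [Function.update_self, Function.update_self]
    · rw [Function.update_of_ne hr, Function.update_of_ne (fun h => hr (Subtype.ext h))]
  refine ⟨?_, ?_, ?_⟩
  · intro x y hxy
    refine Finset.sum_congr rfl fun i _ => ?_
    rw [hxy p (Finset.mem_insert_self _ _)]
    congr 1
    refine (hφ i).dep _ _ fun r hr => ?_
    exact hxy r (Finset.mem_insert_of_mem (Finset.mem_map_of_mem _ hr))
  · intro i hi x v w
    rcases Finset.mem_insert.1 hi with rfl | hi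
    · simp only [hu1, Function.update_self, Pi.add_apply]
      rw [← Finset.sum_add_distrib]
      exact Finset.sum_congr rfl fun j _ => by ring
    · obtain ⟨r0, hr0, rfl⟩ := Finset.mem_map.1 hi
      simp only [Function.Embedding.subtype_apply, hu2]
      rw [← Finset.sum_add_distrib]
      refine Finset.sum_congr rfl fun j _ => ?_
      rw [Function.update_of_ne (hne r0).symm, Function.update_of_ne (hne r0).symm,
        Function.update_of_ne (hne r0).symm, (hφ j).add r0 hr0]
      ring
  · intro i hi x c v
    rcases Finset.mem_insert.1 hi with rfl | hi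
    · simp only [hu1, Function.update_self, Pi.smul_apply, smul_eq_mul]
      rw [Finset.mul_sum]
      exact Finset.sum_congr rfl fun j _ => by ring
    · obtain ⟨r0, hr0, rfl⟩ := Finset.mem_map.1 hi
      simp only [Function.Embedding.subtype_apply, hu2]
      rw [smul_eq_mul, Finset.mul_sum]
      refine Finset.sum_congr rfl fun j _ => ?_
      rw [Function.update_of_ne (hne r0).symm, Function.update_of_ne (hne r0).symm,
        (hφ j).smul r0 hr0, smul_eq_mul]
      ring

private theorem Schmidt_entry {s t : Fin d} {a b : Type} {I : Finset (Rest s t)}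
    {A : (Rest s t → Fin n → F) → Matrix a b F} (hA : IsML F I A) (i : a) (j : b) :
    IsML F I (fun x => A x i j) :=
  ⟨fun x y h => by simp only [hA.dep x y h], fun k hk x v w => by
    simp only [hA.add k hk x v w, Matrix.add_apply], fun k hk x c v => by
    simp only [hA.smul k hk x c v, Matrix.smul_apply]⟩

private theorem Schmidt_sum {α : Type} (S : Finset α) {J : Finset (Fin d)}
    (p : α → MvPolynomial (Fin d × Fin n) F) (hp : ∀ a ∈ S, MultiHom J (p a)) :
    MultiHom J (∑ a ∈ S, p a) := by
  classical
  intro m hm i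
  obtain ⟨a, ha, hma⟩ := Finset.mem_biUnion.1 (MvPolynomial.support_sum hm)
  exact hp a ha m hma i

theorem schmidt_of_cost [Fintype F] {P : MvPolynomial (Fin d × Fin n) F}
    (hP : MultiHom Finset.univ P) {s t : Fin d} (hst : s ≠ t) (μ : ℕ)
    (h : HasCost F (fun x : Rest s t → Fin n → F => sliceMat P s t (extZ s t x)) μ) :
    ∃ Q R : Fin (2 ^ (d - 2) * μ) → MvPolynomial (Fin d × Fin n) F,
      (∀ i, (Q i).totalDegree < d ∧ (R i).totalDegree < d) ∧ P = ∑ i, Q i * R i := by
  classical
  obtain ⟨A, B, hA, hB, hT⟩ := h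
  have hd2 : 2 ≤ d := by
    have h1 : ({s, t} : Finset (Fin d)).card ≤ d := by
      calc ({s, t} : Finset (Fin d)).card ≤ (univ : Finset (Fin d)).card :=
            Finset.card_le_univ _
        _ = d := by rw [Finset.card_univ, Fintype.card_fin]
    rwa [Finset.card_pair hst] at h1
  set emb := Function.Embedding.subtype (fun i : Fin d => i ≠ s ∧ i ≠ t) with hemb
  have hQ : ∀ (I : Finset (Rest s t)) (l : Fin μ), ∃ p : MvPolynomial (Fin d × Fin n) F,
      MultiHom (insert s (I.map emb)) p ∧ ∀ z : Fin d × Fin n → F, MvPolynomial.eval z p =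
        ∑ i, z (s, i) * A I (fun r j => z (r, j)) i l := fun I l =>
    exists_poly _ _ (Schmidt_aux (Or.inl rfl) I (fun i x => A I x i l)
      fun i => Schmidt_entry (hA I) i l)
  have hR : ∀ (I : Finset (Rest s t)) (l : Fin μ), ∃ p : MvPolynomial (Fin d × Fin n) F,
      MultiHom (insert t (Iᶜ.map emb)) p ∧ ∀ z : Fin d × Fin n → F, MvPolynomial.eval z p =
        ∑ j, z (t, j) * B I (fun r j => z (r, j)) l j := fun I l =>
    exists_poly _ _ (Schmidt_aux (Or.inr rfl) Iᶜ (fun j x => B I x l j)
      fun j => Schmidt_entry (hB I) l j)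
  choose Q hQm hQe using hQ
  choose R hRm hRe using hR
  have hdeg : ∀ (p : Fin d) (I : Finset (Rest s t)) (q : MvPolynomial (Fin d × Fin n) F),
      MultiHom (insert p (I.map emb)) q → q.totalDegree < d := by
    intro p I q hq
    have h1 := hq.totalDegree_le
    have h2 := Finset.card_insert_le p (I.map emb)
    rw [Finset.card_map] at h2
    have h3 : I.card ≤ d - 2 := by
      rw [← card_rest hst]
      exact Finset.card_le_univ I
    omega
  have hdisj : ∀ I : Finset (Rest s t),
      Disjoint (insert s (I.map emb)) (insert t (Iᶜ.map emb)) := by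
    intro I
    rw [Finset.disjoint_left]
    intro k hk hk'
    rcases Finset.mem_insert.1 hk with rfl | hk
    · rcases Finset.mem_insert.1 hk' with h | h
      · exact hst h
      · obtain ⟨r, _, hr⟩ := Finset.mem_map.1 h
        exact r.2.1 hr
    · obtain ⟨r, hrI, rfl⟩ := Finset.mem_map.1 hk
      rcases Finset.mem_insert.1 hk' with h | h
      · exact r.2.2 h
      · obtain ⟨r', hr', hrr⟩ := Finset.mem_map.1 h
        have : r' = r := emb.injective hrr
        subst this
        exact Finset.mem_compl.1 hr' hrI
  have hunion : ∀ I : Finset (Rest s t),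
      insert s (I.map emb) ∪ insert t (Iᶜ.map emb) = univ := by
    intro I
    rw [Finset.eq_univ_iff_forall]
    intro k
    by_cases hks : k = s
    · subst hks
      exact Finset.mem_union_left _ (Finset.mem_insert_self _ _)
    by_cases hkt : k = t
    · subst hkt
      exact Finset.mem_union_right _ (Finset.mem_insert_self _ _)
    by_cases hkI : (⟨k, hks, hkt⟩ : Rest s t) ∈ I
    · exact Finset.mem_union_left _ (Finset.mem_insert_of_mem
        (Finset.mem_map.2 ⟨_, hkI, rfl⟩))
    · exact Finset.mem_union_right _ (Finset.mem_insert_of_mem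
        (Finset.mem_map.2 ⟨_, Finset.mem_compl.2 hkI, rfl⟩))
  have hprod : ∀ I l, MultiHom univ (Q I l * R I l) := by
    intro I l
    rw [← hunion I]
    exact (hQm I l).mul (hRm I l) (hdisj I)
  have hP' : P = ∑ c : Finset (Rest s t) × Fin μ, Q c.1 c.2 * R c.1 c.2 := by
    refine hP.ext_of_eval (Schmidt_sum _ _ fun c _ => hprod c.1 c.2) fun z => ?_
    rw [eval_eq_slice hP hst, map_sum, Fintype.sum_prod_type]
    have hslice : sliceMat P s t z = sliceMat P s t (extZ s t (fun r j => z (r, j))) := by
      ext a b
      simp only [sliceMat, Matrix.of_apply]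
      congr 1
      congr 1
      funext c
      unfold slicePt extZ
      by_cases h1 : c.1 = s
      · rw [if_pos h1, if_pos h1]
      · rw [if_neg h1, if_neg h1]
        by_cases h2 : c.1 = t
        · rw [if_pos h2, if_pos h2]
        · rw [if_neg h2, if_neg h2, dif_pos ⟨h1, h2⟩]
    have hTx := hT (fun r j => z (r, j))
    simp only at hTx
    rw [hslice, hTx]
    simp only [map_mul, hQe, hRe, Matrix.sum_apply, Matrix.mul_apply, Finset.mul_sum,
      Finset.sum_mul]
    calc ∑ i, ∑ j, ∑ I, ∑ l, z (s, i) * z (t, j) *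
          (A I (fun r j => z (r, j)) i l * B I (fun r j => z (r, j)) l j)
        = ∑ i, ∑ I, ∑ j, ∑ l, z (s, i) * z (t, j) *
          (A I (fun r j => z (r, j)) i l * B I (fun r j => z (r, j)) l j) :=
          Finset.sum_congr rfl fun i _ => Finset.sum_comm
      _ = ∑ I, ∑ i, ∑ j, ∑ l, z (s, i) * z (t, j) *
          (A I (fun r j => z (r, j)) i l * B I (fun r j => z (r, j)) l j) := Finset.sum_comm
      _ = ∑ I, ∑ i, ∑ l, ∑ j, z (s, i) * z (t, j) *
          (A I (fun r j => z (r, j)) i l * B I (fun r j => z (r, j)) l j) :=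
          Finset.sum_congr rfl fun I _ => Finset.sum_congr rfl fun i _ => Finset.sum_comm
      _ = ∑ I, ∑ l, ∑ i, ∑ j, z (s, i) * z (t, j) *
          (A I (fun r j => z (r, j)) i l * B I (fun r j => z (r, j)) l j) :=
          Finset.sum_congr rfl fun I _ => Finset.sum_comm
      _ = _ := by
          refine Finset.sum_congr rfl fun I _ => Finset.sum_congr rfl fun l _ => ?_
          rw [Finset.sum_comm]
          refine Finset.sum_congr rfl fun j _ => Finset.sum_congr rfl fun i _ => ?_
          ring
  have hcard : Fintype.card (Finset (Rest s t) × Fin μ) = 2 ^ (d - 2) * μ := by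
    rw [Fintype.card_prod, Fintype.card_finset, Fintype.card_fin, card_rest hst]
  let e : Fin (2 ^ (d - 2) * μ) ≃ Finset (Rest s t) × Fin μ :=
    (Fintype.equivFinOfCardEq hcard).symm
  refine ⟨fun i => Q (e i).1 (e i).2, fun i => R (e i).1 (e i).2, fun i =>
    ⟨hdeg _ _ _ (hQm _ _), hdeg _ _ _ (hRm _ _)⟩, ?_⟩
  rw [hP']
  exact (Equiv.sum_comp e (fun c : Finset (Rest s t) × Fin μ => Q c.1 c.2 * R c.1 c.2)).symm

end Pool.Agent.Helper83.AH
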