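import Pool.Agent.Helper83.AH.SliceDefs

/-!
AH-28. The density over all points equals the density over the slots of `Rest s t`:
`sliceMat P s t x` depends only on the coordinates of `x` in slots `≠ s, t`, the restriction map
`(Fin d × Fin n → F) → (Rest s t → Fin n → F)` is surjective with all fibres of size `|F|^(2n)`.
-/

set_option autoImplicit false

namespace Pool.Agent.Helper83.AH

open Finset

variable {F : Type} [Field F] {d n : ℕ}

/-- restriction and the coordinates in the two slots `s` and `t` -/
private def trEquiv {s t : Fin d} (hst : s ≠ t) : (Fin d × Fin n → F) ≃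
    (Rest s t → Fin n → F) × ((Fin n → F) × (Fin n → F)) where
  toFun x := (fun r j => x (r.1, j), (fun j => x (s, j), fun j => x (t, j)))
  invFun y := fun c => if h1 : c.1 = s then y.2.1 c.2 else if h2 : c.1 = t then y.2.2 c.2 else
    y.1 ⟨c.1, h1, h2⟩ c.2
  left_inv x := by
    funext c
    obtain ⟨a, b⟩ := c
    by_cases h1 : a = s
    · subst h1; simp
    · by_cases h2 : a = t
      · subst h2; simp [h1]
      · simp [h1, h2]
  right_inv y := by
    obtain ⟨y, u, v⟩ := y
    refine Prod.ext ?_ (Prod.ext ?_ ?_)
    · funext r j
      simp [r.2.1, r.2.2]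
    · funext j
      simp
    · funext j
      simp [hst.symm]

private theorem tr_slice (P : MvPolynomial (Fin d × Fin n) F) (s t : Fin d)
    (x : Fin d × Fin n → F) :
    sliceMat P s t (extZ s t (fun r j => x (r.1, j))) = sliceMat P s t x := by
  have h : ∀ i j, slicePt s t (extZ s t (fun r j => x (r.1, j))) i j = slicePt s t x i j := by
    intro i j
    funext c
    unfold slicePt extZ
    by_cases h1 : c.1 = s
    · simp [h1]
    · by_cases h2 : c.1 = t
      · simp [h1, h2]
      · simp [h1, h2]
  unfold sliceMat
  congr 1
  funext i j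
  rw [h i j]

private theorem tr_card {s t : Fin d} (hst : s ≠ t) : Fintype.card (Rest s t) = d - 2 := by
  rw [Fintype.card_subtype]
  have h : (univ.filter fun x : Fin d => x ≠ s ∧ x ≠ t) = (univ.erase s).erase t := by
    ext x
    simp only [mem_filter, mem_univ, true_and, mem_erase, and_true]
    tauto
  rw [h, card_erase_of_mem, card_erase_of_mem, card_univ, Fintype.card_fin]
  · omega
  · exact mem_univ _
  · rw [mem_erase]
    exact ⟨hst.symm, mem_univ _⟩

theorem quantile_transfer [Fintype F] [DecidableEq F] {P : MvPolynomial (Fin d × Fin n) F}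
    {s t : Fin d} (hst : s ≠ t) (R : ℕ)
    (h : 2 ^ (d - 2) * (Finset.univ.filter fun x : Fin d × Fin n → F =>
      R < (sliceMat P s t x).rank).card < Fintype.card F ^ (d * n)) :
    2 ^ Fintype.card (Rest s t) *
      (Finset.univ.filter fun x : Rest s t → Fin n → F =>
        R < (sliceMat P s t (extZ s t x)).rank).card < Fintype.card (Rest s t → Fin n → F) := by
  rw [tr_card hst]
  have h1 : Fintype.card F ^ (d * n) = Fintype.card (Rest s t → Fin n → F) *
      (Fintype.card (Fin n → F) * Fintype.card (Fin n → F)) := by
    rw [← Fintype.card_prod, ← Fintype.card_prod, ← Fintype.card_congr (trEquiv hst)]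
    simp
  have h2 : (Finset.univ.filter fun x : Fin d × Fin n → F =>
      R < (sliceMat P s t x).rank).card =
      (Finset.univ.filter fun x : Rest s t → Fin n → F =>
        R < (sliceMat P s t (extZ s t x)).rank).card *
        (Fintype.card (Fin n → F) * Fintype.card (Fin n → F)) := by
    rw [← Fintype.card_prod, ← Finset.card_univ (α := (Fin n → F) × (Fin n → F)),
      ← Finset.card_product]
    refine Finset.card_bij' (fun x _ => trEquiv hst x) (fun y _ => (trEquiv hst).symm y)
      ?_ ?_ ?_ ?_
    · intro x hx
      rw [mem_filter] at hx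
      rw [mem_product, mem_filter]
      refine ⟨⟨mem_univ _, ?_⟩, mem_univ _⟩
      show R < (sliceMat P s t (extZ s t (fun r j => x (r.1, j)))).rank
      rw [tr_slice]
      exact hx.2
    · intro y hy
      rw [mem_product, mem_filter] at hy
      rw [mem_filter]
      refine ⟨mem_univ _, ?_⟩
      have h3 : (fun (r : Rest s t) j => (trEquiv hst).symm y (r.1, j)) = y.1 := by
        have := congrArg Prod.fst ((trEquiv hst).apply_symm_apply y)
        exact this
      rw [← tr_slice, h3]
      exact hy.1.2
    · intro x _
      exact (trEquiv hst).symm_apply_apply x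
    · intro y _
      exact (trEquiv hst).apply_symm_apply y
  rw [h1, h2, ← mul_assoc] at h
  exact Nat.lt_of_mul_lt_mul_right h

end Pool.Agent.Helper83.AH
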