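import Pool.Agent.Helper83.AH.Schmidt
import Pool.Agent.Helper83.AH.Quantile
import Pool.Agent.Helper83.AH.Transfer
import Pool.Agent.Helper83.AH.MaxRank

/-!
AH-29. The final theorem on Schmidt rank.  With `k = d - 2`, `ι = Rest s t`:
`quantile_transfer`, `max_of_quantile`: rank `≤ 2^k R` everywhere; `maxrank_structure` with
`m = 2 * (d - 1) = 2 k + 2` (`thr k + 1 = k + 2^(k+1) k + 1 ≤ 2^(2k+2) ≤ |F|^m`) gives cost
`2 * m^(k+1) * (2^k R)`; `schmidt_of_cost` gives `2^k * (2 * m^(k+1) * (2^k * R))` terms.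
-/

set_option autoImplicit false

namespace Pool.Agent.Helper83.AH

open Finset

theorem thr_lt (k : ℕ) : thr k + 1 ≤ 2 ^ (2 * (k + 1)) := by
  unfold thr
  have h1 : k + 1 ≤ 2 ^ k := Nat.lt_two_pow_self
  have h2 : 2 ^ (2 * (k + 1)) = 2 ^ (k + 1) * 2 ^ (k + 1) := by rw [← pow_add]; congr 1; ring
  rw [h2]
  have h3 : 2 * 2 ^ k = 2 ^ (k + 1) := by rw [pow_succ]; ring
  have h4 : 1 ≤ 2 ^ k := Nat.one_le_two_pow
  nlinarith [Nat.mul_le_mul_left (2 ^ (k + 1)) h1]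

theorem schmidt_main {d : ℕ} (hd : 2 ≤ d) {F : Type} [Field F] [Fintype F] [DecidableEq F] (n : ℕ)
    (P : MvPolynomial (Fin d × Fin n) F)
    (hP : ∀ m ∈ P.support, ∀ i : Fin d, ∑ j : Fin n, m (i, j) = 1)
    (s t : Fin d) (hst : s ≠ t) (R : ℕ)
    (h : 2 ^ (d - 2) * (Finset.univ.filter fun x : Fin d × Fin n → F =>
      R < (sliceMat P s t x).rank).card < Fintype.card F ^ (d * n)) :
    ∃ k ≤ 2 * 4 ^ (d - 2) * (2 * d - 2) ^ (d - 1) * R,
      ∃ Q Q' : Fin k → MvPolynomial (Fin d × Fin n) F,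
      (∀ i, (Q i).totalDegree < d ∧ (Q' i).totalDegree < d) ∧ P = ∑ i, Q i * Q' i := by
  have hP' : MultiHom Finset.univ P := by
    intro m hm i
    simp [hP m hm i]
  have hcard := card_rest hst
  have h1 := quantile_transfer hst R h
  have h2 := max_of_quantile _ (sliceMap_isML hP' hst) R h1
  rw [hcard] at h2
  have hq : 2 ≤ Nat.card F := by
    rw [Nat.card_eq_fintype_card]; exact Fintype.one_lt_card
  have h3 := maxrank_structure (2 * (d - 2 + 1)) (by omega) (by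
    rw [hcard]
    exact (thr_lt (d - 2)).trans (Nat.pow_le_pow_left hq _)) _ (sliceMap_isML hP' hst)
    (2 ^ (d - 2) * R) h2
  rw [hcard] at h3
  obtain ⟨Q, Q', hQ, hPQ⟩ := schmidt_of_cost hP' hst _ h3
  refine ⟨_, ?_, Q, Q', hQ, hPQ⟩
  have e1 : 2 * (d - 2 + 1) = 2 * d - 2 := by omega
  have e2 : d - 2 + 1 = d - 1 := by omega
  rw [e1, e2]
  have e3 : (4 : ℕ) ^ (d - 2) = 2 ^ (d - 2) * 2 ^ (d - 2) := by
    rw [← mul_pow]; norm_num
  rw [e3]
  apply le_of_eq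
  ring

end Pool.Agent.Helper83.AH
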