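import Pool.Agent.Helper83.AH.SliceDefs
import Pool.Agent.Helper83.AH.ML

/-!
AH-23. Every monomial `m` of a `MultiHom J` polynomial is `∏_{i ∈ J} X (i, j_i)` for a unique
choice of `j_i`; so `eval z` of it is `∏_{i ∈ J} z (i, j_i)` (use `MvPolynomial.eval_eq'` and, for a
slot `i ∈ J`, the fact that a function `Fin n → ℕ` with sum 1 is a `Pi.single`).
`eval_eq_slice`: expand in the slots `s` and `t` by multilinearity (`MultiHom.isML` with
`z (s, ·) = ∑_i z (s, i) • e_i`).
-/

set_option autoImplicit false

namespace Pool.Agent.Helper83.AH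

open Finset

variable {F : Type} [Field F] {d n : ℕ}

theorem slice_prod_pow_one (e : Fin n → ℕ) (he : ∑ j, e j = 1) (v : Fin n → F) :
    ∏ j, v j ^ e j = ∑ j, (e j : F) * v j := by
  classical
  have hex : ∃ j₀, e j₀ ≠ 0 := by
    by_contra hcon
    push Not at hcon
    have : ∑ j, e j = 0 := Finset.sum_eq_zero (fun j _ => hcon j)
    omega
  obtain ⟨j₀, hj₀⟩ := hex
  have hsplit := Finset.add_sum_erase Finset.univ e (Finset.mem_univ j₀)
  have hsum0 : ∑ j ∈ Finset.univ.erase j₀, e j = 0 := by omega
  have h1 : e j₀ = 1 := by omega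
  have h0 : ∀ j, j ≠ j₀ → e j = 0 := by
    intro j hj
    exact (Finset.sum_eq_zero_iff.mp hsum0) j (Finset.mem_erase.mpr ⟨hj, Finset.mem_univ _⟩)
  rw [Finset.prod_eq_single j₀, Finset.sum_eq_single j₀]
  · rw [h1]; simp
  · intro j _ hj
    rw [h0 j hj]; simp
  · intro h; exact absurd (Finset.mem_univ _) h
  · intro j _ hj
    rw [h0 j hj]; simp
  · intro h; exact absurd (Finset.mem_univ _) h

theorem slice_prod_update (G : Fin d → (Fin n → F) → F) (x : Fin d → Fin n → F) (i : Fin d)
    (v : Fin n → F) :
    ∏ k, G k (Function.update x i v k) = G i v * ∏ k ∈ Finset.univ.erase i, G k (x k) := by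
  rw [← Finset.mul_prod_erase Finset.univ _ (Finset.mem_univ i)]
  congr 1
  · simp
  · apply Finset.prod_congr rfl
    intro k hk
    rw [Function.update_of_ne (Finset.ne_of_mem_erase hk)]

theorem slice_isML_mono {J : Finset (Fin d)} (m : Fin d × Fin n → ℕ)
    (hm : ∀ i : Fin d, ∑ j : Fin n, m (i, j) = if i ∈ J then 1 else 0) :
    IsML F J (fun z : Fin d → Fin n → F => ∏ i, ∏ j, z i j ^ m (i, j)) := by
  have hlin : ∀ i ∈ J, ∀ v : Fin n → F, ∏ j, v j ^ m (i, j) = ∑ j, (m (i, j) : F) * v j := by
    intro i hi v
    have h := hm i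
    rw [if_pos hi] at h
    exact slice_prod_pow_one (fun j => m (i, j)) h v
  have hcon : ∀ i, i ∉ J → ∀ v : Fin n → F, ∏ j, v j ^ m (i, j) = 1 := by
    intro i hi v
    have h := hm i
    rw [if_neg hi] at h
    apply Finset.prod_eq_one
    intro j _
    have : m (i, j) = 0 := (Finset.sum_eq_zero_iff.mp h) j (Finset.mem_univ _)
    rw [this, pow_zero]
  refine ⟨?_, ?_, ?_⟩
  · intro x y hxy
    show ∏ i, ∏ j, x i j ^ m (i, j) = ∏ i, ∏ j, y i j ^ m (i, j)
    apply Finset.prod_congr rfl
    intro i _
    by_cases hi : i ∈ J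
    · rw [hxy i hi]
    · rw [hcon i hi, hcon i hi]
  · intro i hi x v w
    show ∏ k, ∏ j, Function.update x i (v + w) k j ^ m (k, j) =
      ∏ k, ∏ j, Function.update x i v k j ^ m (k, j) +
        ∏ k, ∏ j, Function.update x i w k j ^ m (k, j)
    have h := fun u => slice_prod_update (F := F) (fun k u => ∏ j, u j ^ m (k, j)) x i u
    rw [h (v + w), h v, h w]
    rw [hlin i hi, hlin i hi, hlin i hi, ← add_mul, ← Finset.sum_add_distrib]
    congr 1
    apply Finset.sum_congr rfl
    intro j _
    rw [Pi.add_apply]; ring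
  · intro i hi x c v
    show ∏ k, ∏ j, Function.update x i (c • v) k j ^ m (k, j) =
      c • ∏ k, ∏ j, Function.update x i v k j ^ m (k, j)
    have h := fun u => slice_prod_update (F := F) (fun k u => ∏ j, u j ^ m (k, j)) x i u
    rw [h (c • v), h v]
    rw [hlin i hi, hlin i hi, smul_eq_mul, ← mul_assoc, Finset.mul_sum]
    congr 1
    apply Finset.sum_congr rfl
    intro j _
    rw [Pi.smul_apply, smul_eq_mul]; ring

/-- AH-23: evaluation of a `MultiHom J` polynomial is multilinear in the slots of `J`. -/
theorem MultiHom.isML {J : Finset (Fin d)} {P : MvPolynomial (Fin d × Fin n) F}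
    (hP : MultiHom J P) :
    IsML F J (fun z : Fin d → Fin n → F => MvPolynomial.eval (fun c => z c.1 c.2) P) := by
  have hfun : (fun z : Fin d → Fin n → F => MvPolynomial.eval (fun c => z c.1 c.2) P) =
      (fun z => ∑ m ∈ P.support, P.coeff m * ∏ i, ∏ j, z i j ^ m (i, j)) := by
    funext z
    rw [MvPolynomial.eval_eq']
    apply Finset.sum_congr rfl
    intro m _
    rw [Fintype.prod_prod_type]
  rw [hfun]
  apply IsML.sum
  intro m hm
  have h := slice_isML_mono (F := F) (J := J) (fun c => m c) (fun i => hP m hm i)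
  exact h.map (LinearMap.mulLeft F (P.coeff m))

/-- The linear map of slot `s` of a multilinear map. -/
def sliceLin {f : (Fin d → Fin n → F) → F} {J : Finset (Fin d)} (hf : IsML F J f) (s : Fin d)
    (hs : s ∈ J) (z : Fin d → Fin n → F) : (Fin n → F) →ₗ[F] F where
  toFun v := f (Function.update z s v)
  map_add' v w := hf.add s hs z v w
  map_smul' c v := hf.smul s hs z c v

theorem slice_expand {f : (Fin d → Fin n → F) → F} {J : Finset (Fin d)} (hf : IsML F J f)
    (s : Fin d) (hs : s ∈ J) (z : Fin d → Fin n → F) (v : Fin n → F) :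
    f (Function.update z s v) =
      ∑ i, v i * f (Function.update z s (fun j => if i = j then 1 else 0)) := by
  have h := (sliceLin hf s hs z).pi_apply_eq_sum_univ v
  exact h

/-- AH-23: expansion in the slots `s` and `t` -/
theorem eval_eq_slice {P : MvPolynomial (Fin d × Fin n) F} (hP : MultiHom Finset.univ P)
    {s t : Fin d} (hst : s ≠ t) (x : Fin d × Fin n → F) :
    MvPolynomial.eval x P = ∑ i, ∑ j, x (s, i) * x (t, j) * sliceMat P s t x i j := by
  have hML := hP.isML
  set f := (fun z : Fin d → Fin n → F => MvPolynomial.eval (fun c => z c.1 c.2) P) with hf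
  set z : Fin d → Fin n → F := fun i j => x (i, j) with hz
  have h0 : MvPolynomial.eval x P = f (Function.update z s (z s)) := by
    rw [Function.update_eq_self]
  rw [h0, slice_expand hML s (Finset.mem_univ _) z (z s)]
  apply Finset.sum_congr rfl
  intro i _
  have h1 : Function.update z s (fun j => if i = j then 1 else 0) =
      Function.update (Function.update z s (fun j => if i = j then 1 else 0)) t (z t) := by
    funext k
    by_cases hk : k = t
    · subst hk
      rw [Function.update_self, Function.update_of_ne (Ne.symm hst)]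
    · rw [Function.update_of_ne hk]
  rw [h1, slice_expand hML t (Finset.mem_univ _) _ (z t), Finset.mul_sum]
  apply Finset.sum_congr rfl
  intro j _
  have h2 : f (Function.update (Function.update z s (fun j => if i = j then 1 else 0)) t
      (fun k => if j = k then 1 else 0)) = sliceMat P s t x i j := by
    show MvPolynomial.eval _ P = MvPolynomial.eval (slicePt s t x i j) P
    congr 1
    congr 1
    funext c
    unfold slicePt
    by_cases h3 : c.1 = s
    · rw [if_pos h3, h3, Function.update_of_ne hst, Function.update_self]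
      by_cases h4 : c.2 = i
      · rw [if_pos h4, if_pos h4.symm]
      · rw [if_neg h4, if_neg (Ne.symm h4)]
    · rw [if_neg h3]
      by_cases h5 : c.1 = t
      · rw [if_pos h5, h5, Function.update_self]
        by_cases h4 : c.2 = j
        · rw [if_pos h4, if_pos h4.symm]
        · rw [if_neg h4, if_neg (Ne.symm h4)]
      · rw [if_neg h5, Function.update_of_ne h5, Function.update_of_ne h3]
  rw [h2]
  show x (s, i) * (x (t, j) * sliceMat P s t x i j) = _
  ring

end Pool.Agent.Helper83.AH
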