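import Pool.Agent.Helper83.AH.MaxRank

/-!
Definitions for forms as polynomials.
`P` is a polynomial in the variables `(i, j)`, `i : Fin d` the slot, `j : Fin n`, homogeneous of degree
one in each slot.  `sliceMat P s t x` = the matrix of the bilinear form obtained by freezing the
slots other than `s, t` to the values of `x`.
-/

set_option autoImplicit false

namespace Pool.Agent.Helper83.AH

open Finset

/-- homogeneous of degree one in each slot of `J`, of degree zero in the others -/
def MultiHom {F : Type} [Field F] {d n : ℕ} (J : Finset (Fin d))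
    (P : MvPolynomial (Fin d × Fin n) F) : Prop :=
  ∀ m ∈ P.support, ∀ i : Fin d, ∑ j : Fin n, m (i, j) = if i ∈ J then 1 else 0

/-- the point with unit vectors in the slots `s` and `t` -/
def slicePt {F : Type} [Field F] {d n : ℕ} (s t : Fin d) (x : Fin d × Fin n → F) (i j : Fin n) :
    Fin d × Fin n → F :=
  fun c => if c.1 = s then (if c.2 = i then 1 else 0)
    else if c.1 = t then (if c.2 = j then 1 else 0) else x c

noncomputable def sliceMat {F : Type} [Field F] {d n : ℕ} (P : MvPolynomial (Fin d × Fin n) F)
    (s t : Fin d) (x : Fin d × Fin n → F) : Matrix (Fin n) (Fin n) F :=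
  Matrix.of fun i j => MvPolynomial.eval (slicePt s t x i j) P

variable {F : Type} [Field F] {d n : ℕ}

/-- the slots different from `s` and `t` -/
abbrev Rest (s t : Fin d) : Type := {i : Fin d // i ≠ s ∧ i ≠ t}

/-- extension by zero to all slots -/
def extZ (s t : Fin d) (x : Rest s t → Fin n → F) : Fin d × Fin n → F :=
  fun c => if h : c.1 ≠ s ∧ c.1 ≠ t then x ⟨c.1, h⟩ c.2 else 0

end Pool.Agent.Helper83.AH
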