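import Pool.Agent.Helper83.AH.ML

/-!
AH-8. The multilinear matrix valued maps `U_J`.  Define `U'` and `U` by strong recursion on `J`
(for every `x`, or as functions of `x`): `U ∅ x = 1 - G₁ * G₂ * M0`, `U' ∅ x = 0`, and for `J ≠ ∅`
`U' J x = -(G₂ * ∑_{∅ ≠ I ⊆ J} M I x * U (J \ I) x)`, `U J x = G₁ * U' J x`.  Multilinearity by strong
induction: `M I * U (J \ I)` is multilinear in `I ∪ (J \ I) = J` by `IsML.mul`.
-/

set_option autoImplicit false

namespace Pool.Agent.Helper83.AH

open Finset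

variable {K : Type} [Field K] {ι V : Type} [Fintype ι] [DecidableEq ι] [AddCommGroup V]
    [Module K V] {a b : Type} [Fintype a] [Fintype b] [DecidableEq a] [DecidableEq b]

omit [Fintype ι] in
theorem card_sdiff_lt_UE {J I : Finset ι} (h : I ∈ J.powerset.erase ∅) :
    (J \ I).card < J.card := by
  rw [Finset.mem_erase, Finset.mem_powerset] at h
  apply Finset.card_lt_card
  exact Finset.sdiff_ssubset h.2 (Finset.nonempty_iff_ne_empty.2 h.1)

/-- the recursive definition -/
noncomputable def URec (M : Finset ι → (ι → V) → Matrix b a K)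
    (M0 : Matrix b a K) (H : Matrix a b K) (J : Finset ι) (x : ι → V) : Matrix a a K :=
  if J = ∅ then 1 - H * M0
  else -(H * ∑ I ∈ (J.powerset.erase ∅).attach, M I.1 x * URec M M0 H (J \ I.1) x)
termination_by J.card
decreasing_by exact card_sdiff_lt_UE I.2

omit [Fintype ι] in
theorem URec_empty (M : Finset ι → (ι → V) → Matrix b a K)
    (M0 : Matrix b a K) (H : Matrix a b K) (x : ι → V) : URec M M0 H ∅ x = 1 - H * M0 := by
  rw [URec, if_pos rfl]

omit [Fintype ι] in
theorem URec_of_ne (M : Finset ι → (ι → V) → Matrix b a K)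
    (M0 : Matrix b a K) (H : Matrix a b K) {J : Finset ι} (hJ : J ≠ ∅) (x : ι → V) :
    URec M M0 H J x = -(H * ∑ I ∈ J.powerset.erase ∅, M I x * URec M M0 H (J \ I) x) := by
  rw [URec, if_neg hJ]
  rw [Finset.sum_attach (J.powerset.erase ∅) (fun I => M I x * URec M M0 H (J \ I) x)]

omit [Fintype ι] in
theorem isML_step_UE (M : Finset ι → (ι → V) → Matrix b a K) (hM : ∀ I, IsML K I (M I))
    (U : Finset ι → (ι → V) → Matrix a a K) (J : Finset ι)
    (h : ∀ I ∈ J.powerset.erase ∅, IsML K (J \ I) (U (J \ I))) :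
    IsML K J (fun x => ∑ I ∈ J.powerset.erase ∅, M I x * U (J \ I) x) := by
  apply IsML.sum
  intro I hI
  have h1 := (hM I).mul (h I hI) Finset.disjoint_sdiff
  rw [Finset.mem_erase, Finset.mem_powerset] at hI
  rwa [Finset.union_sdiff_of_subset hI.2] at h1

omit [Fintype ι] in
theorem isML_URec (M : Finset ι → (ι → V) → Matrix b a K) (hM : ∀ I, IsML K I (M I))
    (M0 : Matrix b a K) (H : Matrix a b K) (J : Finset ι) : IsML K J (URec M M0 H J) := by
  induction hn : J.card using Nat.strong_induction_on generalizing J with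
  | _ n ih =>
    by_cases hJ : J = ∅
    · subst hJ
      have : URec M M0 H (∅ : Finset ι) = fun _ => 1 - H * M0 := by
        funext x
        exact URec_empty M M0 H x
      rw [this]
      exact IsML.const _
    · have : URec M M0 H J =
          fun x => -(H * ∑ I ∈ J.powerset.erase ∅, M I x * URec M M0 H (J \ I) x) := by
        funext x
        exact URec_of_ne M M0 H hJ x
      rw [this]
      apply IsML.neg
      apply IsML.const_mul
      apply isML_step_UE M hM
      intro I hI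
      exact ih _ (hn ▸ card_sdiff_lt_UE hI) _ rfl

theorem exists_U (M : Finset ι → (ι → V) → Matrix b a K) (hM : ∀ I, IsML K I (M I))
    (M0 : Matrix b a K) (ρ : ℕ) (G₁ : Matrix a (Fin ρ) K) (G₂ : Matrix (Fin ρ) b K) :
    ∃ (U : Finset ι → (ι → V) → Matrix a a K) (U' : Finset ι → (ι → V) → Matrix (Fin ρ) a K),
      (∀ J, IsML K J (U J)) ∧ (∀ J, IsML K J (U' J)) ∧
      (∀ J, J ≠ ∅ → ∀ x, U J x = G₁ * U' J x) ∧
      (∀ x, U ∅ x = 1 - G₁ * G₂ * M0) ∧
      (∀ J, J ≠ ∅ → ∀ x, U J x = -(G₁ * G₂ * ∑ I ∈ J.powerset.erase ∅, M I x * U (J \ I) x)) := by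
  refine ⟨URec M M0 (G₁ * G₂),
    fun J x => -(G₂ * ∑ I ∈ J.powerset.erase ∅, M I x * URec M M0 (G₁ * G₂) (J \ I) x),
    fun J => isML_URec M hM M0 _ J, ?_, ?_, ?_, ?_⟩
  · intro J
    apply IsML.neg
    apply IsML.const_mul
    apply isML_step_UE M hM
    intro I _
    exact isML_URec M hM M0 _ _
  · intro J hJ x
    rw [URec_of_ne _ _ _ hJ, Matrix.mul_neg, Matrix.mul_assoc]
  · intro x
    exact URec_empty M M0 _ x
  · intro J hJ x
    exact URec_of_ne M M0 _ hJ x

end Pool.Agent.Helper83.AH
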